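import Pool.Agent.Helper44K9.AR.ZL
import Pool.Agent.H986R2.K4.PL
import Pool.Agent.H986R2.K4.HHb
import Pool.Agent.H986R2.K4.A2
import Pool.Agent.H986R2.K4.SAB
import Pool.Agent.H986R2.K4.A1
import Pool.Agent.H24R2.JP.Zeta

/-! Lower bound for `ζ'` at the zeros on RH, when the zeros nearby are separated. -/

set_option autoImplicit false

namespace Pool.Agent.Helper44K9.AR

open Complex Filter Topology Set Metric
open Pool.Agent.H986R2.K4 (ZB S_PL S_HH)
open Pool.Agent.H24R2.JP (XX HH Om)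

lemma zeta_an {s : ℂ} (hs : s ≠ 1) : AnalyticAt ℂ riemannZeta s := by
  have hd : DifferentiableOn ℂ riemannZeta {1}ᶜ := fun z hz =>
    (differentiableAt_riemannZeta hz).differentiableWithinAt
  exact hd.analyticAt (isOpen_compl_singleton.mem_nhds hs)

lemma rh_re (RH : RiemannHypothesis) {s : ℂ} (h0 : riemannZeta s = 0) (h2 : 0 < s.im) :
    s.re = 1 / 2 := by
  apply RH s h0
  · rintro ⟨n, hn⟩
    rw [hn] at h2
    simp at h2
  · intro h
    rw [h] at h2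
    simp at h2

lemma zb (RH : RiemannHypothesis) : ZB 0 := by
  refine Pool.Agent.H986R2.K4.a2 Pool.Agent.H986R2.K4.sab Pool.Agent.H986R2.K4.a1 0 le_rfl (by norm_num) ?_
  intro s hs h0
  have : s.re = 1 / 2 := by
    apply RH s h0
    · rintro ⟨n, hn⟩
      have h3 := congrArg Complex.re hn
      simp at h3
      have : (0 : ℝ) ≤ n := Nat.cast_nonneg n
      rw [h3] at hs
      nlinarith
    · intro h
      rw [h] at h0
      exact riemannZeta_one_ne_zero h0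
  linarith

/-- upper bound near the line -/
lemma zeta_up (RH : RiemannHypothesis) {a : ℝ} (ha : 0 < a) (ha2 : a ≤ 1 / 10) :
    ∃ K T0 : ℝ, 0 < K ∧ 2 ≤ T0 ∧ ∀ t : ℝ, T0 ≤ t → ∀ u : ℂ, |u.re| ≤ 5 * a → |u.im| ≤ 1 / 2 →
      ‖riemannZeta (1 / 2 + (I * t + u))‖ ≤ K * t ^ (6 * a) := by
  obtain ⟨t1, ht1, hz⟩ := zb RH a ha
  obtain ⟨C', T1, hC', hT1, hpl⟩ := Pool.Agent.H986R2.K4.pl Pool.Agent.H986R2.K4.hh (5 * a) a 1 t1 1
    (by positivity) (by linarith) ha.le (by linarith) one_pos (by linarith) le_rfl (by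
      intro t ht
      have h1 := (hz (1 / 2 + (5 * a : ℝ) + t * I) (by simp; linarith) (by simpa using ht)).2.2.2
      have him : (1 / 2 + ((5 * a : ℝ) : ℂ) + t * I).im = t := by simp
      rw [him] at h1
      rw [one_mul]
      exact h1)
  obtain ⟨K, hK, hHH⟩ := Pool.Agent.H986R2.K4.hh
  obtain ⟨T2, hT2, hHH⟩ := hHH 1 le_rfl
  refine ⟨C' * Real.exp K, max T1 T2, by positivity, hT1.trans (le_max_left _ _), fun t ht u hu1 hu2 => ?_⟩
  have htT1 := (le_max_left _ _).trans ht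
  have htT2 := (le_max_right _ _).trans ht
  have ht0 : 0 < t := by linarith
  have hu : ‖u‖ ≤ 1 := by
    refine (Complex.norm_le_abs_re_add_abs_im u).trans ?_
    linarith
  have h1 := hpl t u htT1 hu1 (hu2.trans (by norm_num))
  obtain ⟨h2, h3, -, h4, -⟩ := hHH t u htT2 hu
  have him : 0 < (I * t + u).im := by
    have : (I * t + u).im = t + u.im := by simp
    rw [this]
    have := neg_abs_le u.im
    linarith
  have h5 := Pool.Agent.H24R2.JP.ZetaTask.part1 (I * t + u) him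
  have h6 : riemannZeta (1 / 2 + (I * t + u)) = XX (I * t + u) / HH (I * t + u) := by
    rw [h5]; field_simp
  obtain ⟨-, h0, -⟩ := hHH t 0 htT2 (by simp)
  rw [add_zero] at h0
  have hH0 : 0 < ‖HH (I * t)‖ := norm_pos_iff.2 h0
  have hOm : Om t = Real.log t / 2 := rfl
  have hlt : 0 ≤ Real.log t := Real.log_nonneg (by linarith)
  rw [h6, norm_div, div_le_iff₀ (norm_pos_iff.2 h3)]
  have h7 : Real.exp (5 * a * Om t) ≤ t ^ (5 * a) * Real.exp K * Real.exp (Om t * u.re - K * 1) := by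
    rw [Real.rpow_def_of_pos ht0, ← Real.exp_add, ← Real.exp_add]
    apply Real.exp_le_exp.2
    have h8 := neg_abs_le u.re
    rw [hOm]
    nlinarith
  calc ‖XX (I * t + u)‖ ≤ C' * t ^ a * (Real.exp (5 * a * Om t) * ‖HH (I * t)‖) := h1
    _ ≤ C' * t ^ a * ((t ^ (5 * a) * Real.exp K * Real.exp (Om t * u.re - K * 1)) * ‖HH (I * t)‖) := by gcongr
    _ = C' * Real.exp K * (t ^ a * t ^ (5 * a)) * (Real.exp (Om t * u.re - K * 1) * ‖HH (I * t)‖) := by ring
    _ ≤ C' * Real.exp K * (t ^ a * t ^ (5 * a)) * ‖HH (I * t + u)‖ := by gcongr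
    _ = _ := by
        rw [← Real.rpow_add ht0]
        congr 3
        ring

/-- the lower bound -/
theorem zeta_low (RH : RiemannHypothesis) {ε c0 : ℝ} (hε : 0 < ε) (hc0 : 0 < c0) :
    ∃ t0 : ℝ, 2 ≤ t0 ∧ ∀ γ : ℝ, t0 ≤ γ → riemannZeta ⟨1 / 2, γ⟩ = 0 →
      (∀ ρ : ℂ, riemannZeta ρ = 0 → ρ.re = 1 / 2 → |ρ.im - γ| ≤ 1 → deriv riemannZeta ρ ≠ 0) →
      (∀ ρ ρ' : ℂ, riemannZeta ρ = 0 → ρ.re = 1 / 2 → |ρ.im - γ| ≤ 1 → riemannZeta ρ' = 0 → ρ'.re = 1 / 2 →
        |ρ'.im - γ| ≤ 1 → ρ ≠ ρ' → c0 / Real.log γ ≤ |ρ.im - ρ'.im|) →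
      γ ^ (-ε) ≤ ‖deriv riemannZeta ⟨1 / 2, γ⟩‖ := by
  -- the parameters
  obtain ⟨τ, hτ, hτ1, hτ2⟩ : ∃ τ : ℝ, 0 < τ ∧ τ ≤ 1 ∧ 2 * τ / c0 ≤ ε / 4 := by
    refine ⟨min 1 (ε * c0 / 8), lt_min one_pos (by positivity), min_le_left _ _, ?_⟩
    rw [div_le_iff₀ hc0]
    have := min_le_right 1 (ε * c0 / 8)
    linarith
  obtain ⟨a, ha, ha10, hae⟩ : ∃ a : ℝ, 0 < a ∧ a ≤ 1 / 10 ∧ 97 * a + 16 * a * Real.log (1 / τ) ≤ ε / 4 := by
    have hl : 0 ≤ Real.log (1 / τ) := Real.log_nonneg (by rw [le_div_iff₀ hτ]; linarith)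
    refine ⟨min (1 / 10) (ε / 4 / (97 + 16 * Real.log (1 / τ))), lt_min (by norm_num) (by positivity),
      min_le_left _ _, ?_⟩
    have h1 := min_le_right (1 / 10) (ε / 4 / (97 + 16 * Real.log (1 / τ)))
    rw [le_div_iff₀ (by positivity)] at h1
    linarith
  obtain ⟨K, T0, hK, hT0, hup⟩ := zeta_up RH ha ha10
  obtain ⟨t1, ht1, hz⟩ := zb RH a ha
  obtain ⟨t2, ht2⟩ := (tendsto_atTop_atTop.1 Real.tendsto_log_atTop)
    (24 / ε + |Real.log K| / a + |Real.log K| + 1)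
  refine ⟨max (max T0 t1) (max t2 3), (hT0.trans (le_max_left _ _)).trans (le_max_left _ _),
    fun γ hγ h0 hsimp hsep => ?_⟩
  rw [max_le_iff, max_le_iff, max_le_iff] at hγ
  obtain ⟨⟨hγ0, hγ1⟩, hγ2, hγ3⟩ := hγ
  have hγp : 0 < γ := by linarith
  set l := Real.log γ with hl
  have hl1 := ht2 γ hγ2
  rw [← hl] at hl1
  have hq1 : 0 ≤ |Real.log K| / a := by positivity
  have hq2 : 0 ≤ |Real.log K| := abs_nonneg _
  have hq3 : 0 < 24 / ε := by positivity
  have hlp : 1 ≤ l := by linarith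
  -- the local theorem
  set ρ₀ : ℂ := ⟨1 / 2, γ⟩ with hρ₀
  have hρ₀e : ρ₀ = 1 / 2 + I * γ := by apply Complex.ext <;> simp [hρ₀]
  set M : ℝ := Real.exp (7 * a * l) with hM
  have hM1 : 1 ≤ M := Real.one_le_exp (by positivity)
  have hball : ∀ z ∈ closedBall (ρ₀ + a) (4 * a), |z.re - 1 / 2| ≤ 5 * a ∧ |z.im - γ| ≤ 4 * a := by
    intro z hz
    rw [mem_closedBall, dist_eq_norm] at hz
    have e1 : (z - (ρ₀ + a)).re = z.re - 1 / 2 - a := by simp [hρ₀]; ring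
    have e2 : (z - (ρ₀ + a)).im = z.im - γ := by simp [hρ₀]
    have h1 := (Complex.abs_re_le_norm (z - (ρ₀ + a))).trans hz
    have h2 := (Complex.abs_im_le_norm (z - (ρ₀ + a))).trans hz
    rw [e1] at h1
    rw [e2] at h2
    refine ⟨?_, h2⟩
    rw [abs_le] at h1 ⊢
    constructor <;> linarith [h1.1, h1.2]
  have hne1 : ∀ z ∈ closedBall (ρ₀ + a) (4 * a), z ≠ 1 := by
    intro z hz h
    have := (abs_le.1 (hball z hz).2).1
    rw [h] at this
    simp at this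
    linarith
  have hKM : K * γ ^ (6 * a) ≤ M := by
    have h1 : K ≤ Real.exp (a * l) := by
      rw [← Real.exp_log hK]
      apply Real.exp_le_exp.2
      have h2 := le_abs_self (Real.log K)
      have h3 : |Real.log K| ≤ a * l := by
        have h4 : |Real.log K| / a ≤ l := by linarith
        rw [div_le_iff₀ ha] at h4
        linarith
      linarith
    rw [Real.rpow_def_of_pos hγp, ← hl, hM]
    calc K * Real.exp (l * (6 * a)) ≤ Real.exp (a * l) * Real.exp (l * (6 * a)) := by gcongr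
      _ = _ := by rw [← Real.exp_add]; congr 1; ring
  have hb : ∀ z ∈ closedBall (ρ₀ + a) (4 * a), ‖riemannZeta z‖ ≤ M := by
    intro z hz
    obtain ⟨h1, h2⟩ := hball z hz
    have e : z = 1 / 2 + (I * γ + (z - ρ₀)) := by rw [hρ₀e]; ring
    have e1 : (z - ρ₀).re = z.re - 1 / 2 := by simp [hρ₀]
    have e2 : (z - ρ₀).im = z.im - γ := by simp [hρ₀]
    rw [e]
    refine (hup γ hγ0 (z - ρ₀) (by rw [e1]; exact h1) (by rw [e2]; linarith)).trans hKM
  have hfc1 := hz (ρ₀ + a) (by simp [hρ₀]) (by simpa [hρ₀] using hγ1)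
  have him : (ρ₀ + a).im = γ := by simp [hρ₀]
  have hfc0 : Real.exp (-(a * l)) ≤ ‖riemannZeta (ρ₀ + a)‖ := by
    have := hfc1.2.2.1
    rw [him, Real.rpow_def_of_pos hγp, ← hl] at this
    refine le_trans (le_of_eq ?_) this
    congr 1; ring
  have hfcp : 0 < ‖riemannZeta (ρ₀ + a)‖ := lt_of_lt_of_le (Real.exp_pos _) hfc0
  have hzero : ∀ ρ ∈ closedBall (ρ₀ + a) (2 * a), riemannZeta ρ = 0 → ρ.re = 1 / 2 ∧ |ρ.im - γ| ≤ 1 := by
    intro ρ hρ h
    obtain ⟨h1, h2⟩ := hball ρ (closedBall_subset_closedBall (by linarith) hρ)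
    refine ⟨rh_re RH h ?_, by linarith⟩
    have := (abs_le.1 h2).1; linarith
  have hmain := low_deriv (f := riemannZeta) (ρ₀ := ρ₀) (a := a) (δ := c0 / l) (M := M) (τ := τ) ha
    (by linarith) (by positivity) hM1 hτ hτ1
    (fun z hz => zeta_an (hne1 z hz)) hfc1.1 hb h0
    (fun ρ hρ h => (hzero ρ hρ h).1)
    (fun ρ hρ h => hsimp ρ h (hzero ρ hρ h).1 (hzero ρ hρ h).2)
    (fun ρ hρ h ρ' hρ' h' hne => hsep ρ ρ' h (hzero ρ hρ h).1 (hzero ρ hρ h).2 h' (hzero ρ' hρ' h').1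
      (hzero ρ' hρ' h').2 hne)
  refine le_trans ?_ hmain
  have hB : Real.log (M / ‖riemannZeta (ρ₀ + a)‖) ≤ 8 * a * l := by
    rw [Real.log_div (by positivity) hfcp.ne', hM, Real.log_exp]
    have : -(a * l) ≤ Real.log ‖riemannZeta (ρ₀ + a)‖ := by
      rw [Real.le_log_iff_exp_le hfcp]; exact hfc0
    linarith
  set B := Real.log (M / ‖riemannZeta (ρ₀ + a)‖) with hBd
  have hτB : Real.exp (-(16 * a * l * Real.log (1 / τ))) ≤ τ ^ (2 * B) := by
    rw [Real.rpow_def_of_pos hτ, one_div, Real.log_inv]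
    apply Real.exp_le_exp.2
    have h1 : Real.log τ ≤ 0 := Real.log_nonpos hτ.le hτ1
    nlinarith
  have h2τ : Real.exp (-(2 * τ / (c0 / l))) = Real.exp (-(2 * τ / c0 * l)) := by
    congr 2
    field_simp
  rw [h2τ, Real.rpow_def_of_pos hγp, ← hl]
  calc Real.exp (l * -ε) ≤ Real.exp (-(a * l)) * (Real.exp (-(12 * (8 * a * l + 1))) *
        (Real.exp (-(16 * a * l * Real.log (1 / τ))) * Real.exp (-(2 * τ / c0 * l)))) := by
        rw [← Real.exp_add, ← Real.exp_add, ← Real.exp_add]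
        apply Real.exp_le_exp.2
        have h1 : l * (97 * a + 16 * a * Real.log (1 / τ)) ≤ l * (ε / 4) := by gcongr
        have h2 : l * (2 * τ / c0) ≤ l * (ε / 4) := by gcongr
        have h3 : 12 ≤ ε / 2 * l := by
          have h4 : 24 / ε ≤ l := by linarith
          rw [div_le_iff₀ hε] at h4
          linarith
        nlinarith
    _ ≤ _ := by
        gcongr

end Pool.Agent.Helper44K9.AR
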