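import Pool.Agent.Helper44K9.AR.Wt

/-! The functional equation at the zeros. -/

set_option autoImplicit false

namespace Pool.Agent.Helper44K9.AR

open Complex Filter Topology Set

lemma deriv_zeta_conj (s : ℂ) : deriv riemannZeta ((starRingEnd ℂ) s) = (starRingEnd ℂ) (deriv riemannZeta s) := by
  have h1 : (starRingEnd ℂ) ∘ riemannZeta ∘ (starRingEnd ℂ) = riemannZeta := by
    funext z
    simp only [Function.comp_apply, riemannZeta_conj, Complex.conj_conj]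
  have h2 := congrFun (deriv_conj_conj (f := riemannZeta)) ((starRingEnd ℂ) s)
  rw [h1] at h2
  simpa using h2

lemma fe_deriv {γ : ℝ} (hγ : 0 < γ) (h0 : riemannZeta ⟨1 / 2, γ⟩ = 0) :
    (starRingEnd ℂ) (deriv riemannZeta ⟨1 / 2, γ⟩) =
      -(2 * (2 * Real.pi) ^ (-(⟨1 / 2, γ⟩ : ℂ)) * Gamma ⟨1 / 2, γ⟩ * Complex.cos (Real.pi * ⟨1 / 2, γ⟩ / 2) *
        deriv riemannZeta ⟨1 / 2, γ⟩) := by
  set ρ : ℂ := ⟨1 / 2, γ⟩ with hρ
  have him : 0 < ρ.im := hγ
  have hne : ∀ s : ℂ, 0 < s.im → (∀ n : ℕ, s ≠ -n) ∧ s ≠ 1 := by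
    intro s hs
    constructor
    · intro n h
      rw [h] at hs
      simp at hs
    · intro h
      rw [h] at hs
      simp at hs
  set F : ℂ → ℂ := fun s => 2 * (2 * Real.pi) ^ (-s) * Gamma s * Complex.cos (Real.pi * s / 2) with hF
  have hev : (fun s => riemannZeta (1 - s)) =ᶠ[𝓝 ρ] fun s => F s * riemannZeta s := by
    have hopen : IsOpen {s : ℂ | 0 < s.im} := isOpen_lt continuous_const Complex.continuous_im
    filter_upwards [hopen.mem_nhds him] with s hs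
    obtain ⟨h1, h2⟩ := hne s hs
    rw [riemannZeta_one_sub h1 h2]
  have hFd : DifferentiableAt ℂ F ρ := by
    simp only [hF]
    have h2pi : (2 * Real.pi : ℂ) ≠ 0 := by
      have : (Real.pi : ℂ) ≠ 0 := by exact_mod_cast Real.pi_ne_zero
      exact mul_ne_zero two_ne_zero this
    apply DifferentiableAt.mul
    · apply DifferentiableAt.mul
      · apply DifferentiableAt.mul (differentiableAt_const _)
        apply DifferentiableAt.const_cpow differentiableAt_id.neg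
        left; exact h2pi
      · exact Complex.differentiableAt_Gamma _ (hne ρ him).1
    · fun_prop
  have hd1 : HasDerivAt (fun s => F s * riemannZeta s)
      (deriv F ρ * riemannZeta ρ + F ρ * deriv riemannZeta ρ) ρ :=
    hFd.hasDerivAt.mul (differentiableAt_riemannZeta (hne ρ him).2).hasDerivAt
  have hd2 : HasDerivAt (fun s => riemannZeta (1 - s)) (deriv riemannZeta (1 - ρ) * -1) ρ := by
    have h1 : HasDerivAt (fun s : ℂ => 1 - s) (-1) ρ := by
      simpa using (hasDerivAt_id ρ).const_sub 1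
    have h2 : (1 : ℂ) - ρ ≠ 1 := by
      intro h
      have := congrArg Complex.im h
      simp [hρ] at this
      linarith
    exact (differentiableAt_riemannZeta h2).hasDerivAt.comp ρ h1
  have h3 := hev.deriv_eq
  rw [hd1.deriv, hd2.deriv, h0, mul_zero, zero_add] at h3
  have h4 : 1 - ρ = (starRingEnd ℂ) ρ := by
    apply Complex.ext
    · simp [hρ]; norm_num
    · simp [hρ]
  rw [h4, deriv_zeta_conj] at h3
  simp only [hF] at h3
  rw [← h3]
  ring

/-- the phase -/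
noncomputable def ph (c γ : ℝ) : ℂ := Complex.exp (2 * I * (γ * (Real.log γ - Real.log c)))

noncomputable def xc (c : ℝ) : ℝ := c ^ 2 / (2 * Real.pi * Real.exp 1 ^ 2)

lemma xc_pos {c : ℝ} (hc : 0 < c) : 0 < xc c := by unfold xc; positivity

lemma log_xc {c : ℝ} (hc : 0 < c) : Real.log (xc c) = 2 * Real.log c - Real.log (2 * Real.pi) - 2 := by
  unfold xc
  rw [Real.log_div (by positivity) (by positivity), Real.log_mul (by positivity) (by positivity),
    Real.log_pow, Real.log_pow, Real.log_exp]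
  push_cast
  ring

lemma phase_id {c γ : ℝ} (hc : 0 < c) :
    G0 (xc c) ⟨1 / 2, γ⟩ * Gamma ⟨1 / 2, γ⟩ * (-(2 * (2 * Real.pi) ^ (-(⟨1 / 2, γ⟩ : ℂ)) * Gamma ⟨1 / 2, γ⟩ *
      Complex.cos (Real.pi * ⟨1 / 2, γ⟩ / 2))) =
    (Real.exp 1 / c : ℝ) * ph c γ * (Gamma (⟨1 / 2, γ⟩ : ℂ) ^ 2 * Complex.exp (Real.pi * γ) *
      Complex.exp (-(2 * I * (γ * Real.log γ - γ)))) * (I - Complex.exp (-(Real.pi * γ))) := by
  have hpi : (Real.pi : ℂ) ≠ 0 := by exact_mod_cast Real.pi_ne_zero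
  have h2pi : (2 * Real.pi : ℂ) ≠ 0 := mul_ne_zero two_ne_zero hpi
  have hlog2 : Complex.log (2 * Real.pi) = (Real.log (2 * Real.pi) : ℝ) := by
    rw [Complex.ofReal_log (by positivity)]
    push_cast
    rfl
  rw [Complex.cpow_def_of_ne_zero h2pi, hlog2]
  unfold Complex.cos G0 ph
  rw [log_xc hc]
  set ρ : ℂ := ⟨1 / 2, γ⟩ with hρ
  have hρe : ρ = 1 / 2 + I * γ := by apply Complex.ext <;> simp [hρ]
  have hec : ((Real.exp 1 / c : ℝ) : ℂ) = Complex.exp ((1 - Real.log c : ℝ) : ℂ) := by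
    rw [← Complex.ofReal_exp, Real.exp_sub, Real.exp_log hc]
  rw [hec]
  set L2 : ℝ := Real.log (2 * Real.pi) with hL2
  set Lc : ℝ := Real.log c with hLc
  set Lg : ℝ := Real.log γ with hLg
  have hI : Complex.exp (-(Real.pi / 2 * I)) = -I := by
    have := Complex.exp_neg_pi_div_two_mul_I
    rw [← this]; congr 1; ring
  -- left side
  have e1 : Complex.exp (-(ρ * (((2 * Lc - L2 - 2 : ℝ) : ℂ) + I * (Real.pi / 2)))) * Gamma ρ *
      (-(2 * Complex.exp ((L2 : ℂ) * -ρ) * Gamma ρ *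
        ((Complex.exp (Real.pi * ρ / 2 * I) + Complex.exp (-(Real.pi * ρ / 2) * I)) / 2))) =
      -Gamma ρ ^ 2 * (Complex.exp (-(ρ * (2 * Lc - 2))) * (1 + Complex.exp (-(Real.pi * ρ * I)))) := by
    have e2 : Complex.exp (-(ρ * (((2 * Lc - L2 - 2 : ℝ) : ℂ) + I * (Real.pi / 2)))) =
        Complex.exp (-(ρ * (2 * Lc - 2))) * Complex.exp (L2 * ρ) * Complex.exp (-(Real.pi * ρ / 2) * I) := by
      rw [← Complex.exp_add, ← Complex.exp_add]
      congr 1
      push_cast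
      ring
    have e3 : Complex.exp (L2 * ρ) * Complex.exp ((L2 : ℂ) * -ρ) = 1 := by
      rw [← Complex.exp_add, ← Complex.exp_zero]
      congr 1
      ring
    have e4 : Complex.exp (-(Real.pi * ρ / 2) * I) * Complex.exp (Real.pi * ρ / 2 * I) = 1 := by
      rw [← Complex.exp_add, ← Complex.exp_zero]
      congr 1
      ring
    have e5 : Complex.exp (-(Real.pi * ρ / 2) * I) * Complex.exp (-(Real.pi * ρ / 2) * I) =
        Complex.exp (-(Real.pi * ρ * I)) := by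
      rw [← Complex.exp_add]
      congr 1
      ring
    rw [e2]
    calc _ = -Gamma ρ ^ 2 * (Complex.exp (-(ρ * (2 * Lc - 2))) *
          (Complex.exp (L2 * ρ) * Complex.exp ((L2 : ℂ) * -ρ)) *
          (Complex.exp (-(Real.pi * ρ / 2) * I) * Complex.exp (Real.pi * ρ / 2 * I) +
            Complex.exp (-(Real.pi * ρ / 2) * I) * Complex.exp (-(Real.pi * ρ / 2) * I))) := by ring
      _ = _ := by rw [e3, e4, e5, mul_one]
  rw [e1]
  have e6 : Complex.exp (-(Real.pi * ρ * I)) = -I * Complex.exp (Real.pi * γ) := by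
    rw [← hI, ← Complex.exp_add]
    congr 1
    rw [hρe]
    linear_combination (-(Real.pi : ℂ) * γ) * Complex.I_sq
  have e7 : Complex.exp (-(ρ * (2 * Lc - 2))) = Complex.exp ((1 - Lc : ℝ) : ℂ) *
      Complex.exp (2 * I * (γ * (Lg - Lc))) * Complex.exp (-(2 * I * (γ * Lg - γ))) := by
    rw [← Complex.exp_add, ← Complex.exp_add]
    congr 1
    rw [hρe]
    push_cast
    ring
  have e8 : Complex.exp (Real.pi * γ) * Complex.exp (-(Real.pi * γ)) = 1 := by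
    rw [← Complex.exp_add, ← Complex.exp_zero]
    congr 1
    ring
  rw [e6, e7]
  linear_combination (Gamma ρ ^ 2 * Complex.exp ((1 - Lc : ℝ) : ℂ) *
      Complex.exp (2 * I * (γ * (Lg - Lc))) * Complex.exp (-(2 * I * (γ * Lg - γ)))) * e8

/-- the relation at the zeros -/
theorem fe_zero {c : ℝ} (hc : 0 < c) : ∃ C : ℝ, 0 < C ∧ ∀ γ : ℝ, 1 ≤ γ → riemannZeta ⟨1 / 2, γ⟩ = 0 →
    deriv riemannZeta ⟨1 / 2, γ⟩ ≠ 0 →
    ‖G0 (xc c) ⟨1 / 2, γ⟩ * Gamma ⟨1 / 2, γ⟩ / deriv riemannZeta ⟨1 / 2, γ⟩ -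
      2 * Real.pi * I * (Real.exp 1 / c : ℝ) * ph c γ * (starRingEnd ℂ) (1 / deriv riemannZeta ⟨1 / 2, γ⟩)‖ ≤
      C / γ * ‖1 / deriv riemannZeta (⟨1 / 2, γ⟩ : ℂ)‖ := by
  obtain ⟨C0, hC0, h0⟩ := gam_sq
  refine ⟨Real.exp 1 / c * (2 * Real.pi + 2 * C0), by positivity, fun γ hγ hz hd => ?_⟩
  have hγ0 : 0 < γ := by linarith
  have hfe := fe_deriv hγ0 hz
  set Z := deriv riemannZeta ⟨1 / 2, γ⟩ with hZ
  set Fρ : ℂ := 2 * (2 * Real.pi) ^ (-(⟨1 / 2, γ⟩ : ℂ)) * Gamma ⟨1 / 2, γ⟩ * Complex.cos (Real.pi * ⟨1 / 2, γ⟩ / 2)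
    with hFρ
  have hcZ : (starRingEnd ℂ) Z ≠ 0 := by rw [map_ne_zero]; exact hd
  have h1 : 1 / Z = -Fρ * (starRingEnd ℂ) (1 / Z) := by
    rw [map_div₀, map_one]
    field_simp
    rw [hfe]
    ring
  set A : ℂ := Gamma (⟨1 / 2, γ⟩ : ℂ) ^ 2 * Complex.exp (Real.pi * γ) *
      Complex.exp (-(2 * I * (γ * Real.log γ - γ))) with hA
  have h2 := phase_id (c := c) (γ := γ) hc
  rw [← hFρ, ← hA] at h2
  have h3 : G0 (xc c) ⟨1 / 2, γ⟩ * Gamma ⟨1 / 2, γ⟩ / Z =
      (Real.exp 1 / c : ℝ) * ph c γ * A * (I - Complex.exp (-(Real.pi * γ))) * (starRingEnd ℂ) (1 / Z) := by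
    calc G0 (xc c) ⟨1 / 2, γ⟩ * Gamma ⟨1 / 2, γ⟩ / Z =
        G0 (xc c) ⟨1 / 2, γ⟩ * Gamma ⟨1 / 2, γ⟩ * (1 / Z) := by rw [div_eq_mul_one_div]
      _ = G0 (xc c) ⟨1 / 2, γ⟩ * Gamma ⟨1 / 2, γ⟩ * (-Fρ * (starRingEnd ℂ) (1 / Z)) := by rw [← h1]
      _ = G0 (xc c) ⟨1 / 2, γ⟩ * Gamma ⟨1 / 2, γ⟩ * (-Fρ) * (starRingEnd ℂ) (1 / Z) := by ring
      _ = _ := by rw [h2]
  have hph : ‖ph c γ‖ = 1 := by
    unfold ph
    have : (2 * I * (γ * (Real.log γ - Real.log c)) : ℂ) =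
        ((2 * (γ * (Real.log γ - Real.log c)) : ℝ) : ℂ) * I := by push_cast; ring
    rw [this, Complex.norm_exp_ofReal_mul_I]
  have h4 : (Real.exp 1 / c : ℝ) * ph c γ * A * (I - Complex.exp (-(Real.pi * γ))) * (starRingEnd ℂ) (1 / Z) -
      2 * Real.pi * I * (Real.exp 1 / c : ℝ) * ph c γ * (starRingEnd ℂ) (1 / Z) =
      (Real.exp 1 / c : ℝ) * ph c γ * ((A - 2 * Real.pi) * (I - Complex.exp (-(Real.pi * γ))) -
        2 * Real.pi * Complex.exp (-(Real.pi * γ))) * (starRingEnd ℂ) (1 / Z) := by ring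
  have hE : ‖Complex.exp (-(Real.pi * γ))‖ ≤ 1 / γ := by
    have : (-(Real.pi * γ) : ℂ) = ((-(Real.pi * γ) : ℝ) : ℂ) := by push_cast; ring
    rw [this, ← Complex.ofReal_exp, Complex.norm_real, Real.norm_of_nonneg (Real.exp_pos _).le,
      Real.exp_neg, ← one_div]
    apply one_div_le_one_div_of_le hγ0
    have h5 := Real.add_one_le_exp (Real.pi * γ)
    nlinarith [Real.pi_gt_three]
  have hE1 : ‖Complex.exp (-(Real.pi * γ))‖ ≤ 1 := by
    refine hE.trans ?_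
    rw [div_le_one hγ0]; exact hγ
  have hA0 := h0 γ hγ
  rw [← hA] at hA0
  rw [h3, h4, norm_mul, norm_mul, norm_mul, hph, mul_one, Complex.norm_real,
    Real.norm_of_nonneg (by positivity), RCLike.norm_conj]
  have h5 : ‖(A - 2 * Real.pi) * (I - Complex.exp (-(Real.pi * γ))) -
        2 * Real.pi * Complex.exp (-(Real.pi * γ))‖ ≤ (2 * Real.pi + 2 * C0) / γ := by
    calc _ ≤ ‖A - 2 * Real.pi‖ * ‖I - Complex.exp (-(Real.pi * γ))‖ +
          ‖(2 * Real.pi : ℂ)‖ * ‖Complex.exp (-(Real.pi * γ))‖ := by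
          refine (norm_sub_le _ _).trans ?_
          rw [norm_mul, norm_mul]
      _ ≤ C0 / γ * 2 + 2 * Real.pi * (1 / γ) := by
          have n1 : ‖I - Complex.exp (-(Real.pi * γ))‖ ≤ 2 := by
            refine (norm_sub_le _ _).trans ?_
            rw [Complex.norm_I]; linarith
          have n2 : ‖(2 * Real.pi : ℂ)‖ = 2 * Real.pi := by
            rw [norm_mul, Complex.norm_real, Real.norm_of_nonneg Real.pi_pos.le]; norm_num
          rw [n2]
          gcongr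
      _ = _ := by ring
  calc _ ≤ Real.exp 1 / c * ((2 * Real.pi + 2 * C0) / γ) * ‖1 / Z‖ := by gcongr
    _ = _ := by ring

end Pool.Agent.Helper44K9.AR
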