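import Pool.Agent.Helper44K9.AR.Ms3
import Pool.Agent.Helper44K9.AR.FE
import Pool.Agent.Helper44K9.AR.ZB

/-! Coherent windows are rare. -/

set_option autoImplicit false

namespace Pool.Agent.Helper44K9.AR

open Complex Filter Topology Set MeasureTheory
open Pool.Agent.W120.WM (NT)

/-- the window at `T` is coherent: the zeros are simple, separated, and the phases nearly agree -/
def Coh (c δ c1 X T : ℝ) : Prop :=
  (∀ ρ : ℂ, riemannZeta ρ = 0 → ρ.re = 1 / 2 → |ρ.im - T| ≤ ll X → deriv riemannZeta ρ ≠ 0) ∧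
  (∀ ρ ρ' : ℂ, riemannZeta ρ = 0 → ρ.re = 1 / 2 → |ρ.im - T| ≤ ll X → riemannZeta ρ' = 0 → ρ'.re = 1 / 2 →
    |ρ'.im - T| ≤ ll X → ρ ≠ ρ' → c1 / Real.log X ≤ |ρ.im - ρ'.im|) ∧
  ∃ κ : ℂ, ‖κ‖ = 1 ∧ ∀ ρ : ℂ, riemannZeta ρ = 0 → ρ.re = 1 / 2 → |ρ.im - T| ≤ ll X →
    ‖ph c ρ.im - κ‖ ≤ X ^ (-δ)

lemma pow_log_small (K δ : ℝ) (hδ : 0 < δ) : ∃ X0 : ℝ, 3 ≤ X0 ∧ ∀ X : ℝ, X0 ≤ X →
    K * Real.log X ^ 5 * X ^ (-δ) ≤ 1 := by
  have h1 : Tendsto (fun X : ℝ => K * (Real.log X ^ 5 * X ^ (-δ))) atTop (𝓝 (K * 0)) := by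
    apply Tendsto.const_mul
    have h2 := (isLittleO_log_rpow_rpow_atTop (5 : ℝ) hδ).tendsto_div_nhds_zero
    refine h2.congr' ?_
    filter_upwards [eventually_gt_atTop 1] with x hx
    have h3 : 0 < Real.log x := Real.log_pos hx
    rw [Real.rpow_neg (by linarith), div_eq_mul_inv]
    congr 1
    have := Real.rpow_natCast (Real.log x) 5
    push_cast at this
    exact this
  rw [mul_zero] at h1
  obtain ⟨a, ha⟩ := (eventually_atTop.1 (h1.eventually (ge_mem_nhds (show (0:ℝ) < 1 by norm_num))))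
  refine ⟨max a 3, le_max_right _ _, fun X hX => ?_⟩
  have := ha X ((le_max_left _ _).trans hX)
  rw [mul_assoc]
  exact this

lemma Sg_eq_int {x X : ℝ} (hx : 0 < x) (hX : 3 ≤ X) (T : ℝ) :
    (1 / (2 * Real.pi) : ℂ) * ∫ y : ℝ, G0 x (⟨3 / 2, y⟩ : ℂ) * Gamma (⟨3 / 2, y⟩ : ℂ) *
        Wt T X (⟨3 / 2, y⟩ : ℂ) * (riemannZeta ⟨3 / 2, y⟩)⁻¹ = Sg x X T := by
  rw [S_int hx (show 0 < 1 / X by positivity) (by rw [div_le_one (by linarith)]; linarith) hX T]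
  unfold Sg
  have hpi : (Real.pi : ℂ) ≠ 0 := by exact_mod_cast Real.pi_ne_zero
  field_simp

theorem coh_low (RH : RiemannHypothesis) {c δ c1 : ℝ} (hc : 0 < c) (hδ : 0 < δ) (hδ1 : δ ≤ 1) (hc1 : 0 < c1) :
    ∃ X0 : ℝ, 3 ≤ X0 ∧ ∀ X : ℝ, X0 ≤ X → ∀ T ∈ Icc X (2 * X), Coh c δ c1 X T →
      Real.exp 1 / c * hh X ≤ ‖Sg (xc c) X T‖ := by
  obtain ⟨C, hC, hgood⟩ := exists_good
  obtain ⟨X1, hX1, hU⟩ := loc_U C hC
  obtain ⟨X2, hX2, hS⟩ := loc_S (xc c) C hC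
  obtain ⟨X3, hX3, hUl⟩ := U_low
  obtain ⟨C4, hC4, hfe⟩ := fe_zero hc
  obtain ⟨t0, ht0, hzl⟩ := zeta_low RH (ε := δ / 4) (c0 := c1 / 2) (by positivity) (by positivity)
  obtain ⟨X5, hX5, hll⟩ := ll_le
  set K1 : ℝ := 2 * C4 + 2 * Real.pi * (Real.exp 1 / c) with hK1
  have hK10 : 0 < K1 := by positivity
  obtain ⟨X6, hX6, hps⟩ := pow_log_small ((2 / c1 + 1) * (3 * K1)) (3 * δ / 4) (by positivity)
  obtain ⟨X7, hX7, hlog⟩ := ev_log (10 + 10 * (c / Real.exp 1))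
  refine ⟨max (max (max X1 X2) (max X3 (2 * t0))) (max X5 (max X6 X7)), by simp [hX1],
    fun X hX T hT hcoh => ?_⟩
  simp only [max_le_iff] at hX
  obtain ⟨⟨⟨hXa, hXb⟩, hXc, hXd⟩, hXe, hXf, hXg⟩ := hX
  have hX3' : 3 ≤ X := hX1.trans hXa
  have hX0 : 0 < X := by linarith
  have hl1 := log_ge_one hX3'
  have hll := hll X hXe
  have hps := hps X hXf
  have hlog := hlog X hXg
  have hec : 0 < c / Real.exp 1 := by positivity
  have hhh : hh X = Real.log X ^ 2 := rfl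
  have hllX : ll X = Real.log X ^ 4 := rfl
  have hl6 : 10 ≤ ll X := by
    rw [hllX]
    have : (10 : ℝ) ^ 1 ≤ Real.log X ^ 4 := by
      calc (10 : ℝ) ^ 1 ≤ 10 ^ 4 := by norm_num
        _ ≤ Real.log X ^ 4 := by gcongr; linarith
    linarith
  obtain ⟨c', hc'1, hc'2, hGc⟩ := hgood (T - ll X + 2) (by linarith [hT.1])
  obtain ⟨d', hd'1, hd'2, hGd⟩ := hgood (T + ll X - 3) (by linarith [hT.1])
  obtain ⟨hsimp, hsep, κ, hκ, hph⟩ := hcoh
  have hc'0 : X / 2 ≤ c' := by linarith [hT.1]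
  have hcp : 0 < c' := by linarith
  -- the zeros in the window
  have hZ : ∀ ρ ∈ Zf c' d', riemannZeta ρ = 0 ∧ ρ.re = 1 / 2 ∧ |ρ.im - T| ≤ ll X - 1 ∧ X / 2 ≤ ρ.im ∧ ρ.im ≤ 3 * X := by
    intro ρ hρ
    obtain ⟨h1, h2, h3⟩ := (mem_Zf hcp.le).1 hρ
    refine ⟨h1.1, rh_re RH h1.1 (hcp.trans h2), ?_, by linarith, by linarith [hT.2]⟩
    rw [abs_le]
    constructor <;> linarith
  have hder : ∀ ρ ∈ Zf c' d', deriv riemannZeta ρ ≠ 0 := by
    intro ρ hρ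
    obtain ⟨h1, h2, h3, -⟩ := hZ ρ hρ
    exact hsimp ρ h1 h2 (by linarith)
  have hmk : ∀ ρ : ℂ, ρ.re = 1 / 2 → (⟨1 / 2, ρ.im⟩ : ℂ) = ρ := by
    intro ρ h
    apply Complex.ext <;> simp [h]
  have hlow : ∀ ρ ∈ Zf c' d', ‖1 / deriv riemannZeta ρ‖ ≤ (3 * X) ^ (δ / 4) := by
    intro ρ hρ
    obtain ⟨h1, h2, h3, h4, h5⟩ := hZ ρ hρ
    have hρp : 0 < ρ.im := by linarith
    have hnear : ∀ ρ' : ℂ, |ρ'.im - ρ.im| ≤ 1 → |ρ'.im - T| ≤ ll X := by
      intro ρ' h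
      have := abs_sub_le ρ'.im ρ.im T
      linarith
    have h6 := hzl ρ.im (by linarith) (by rw [hmk ρ h2]; exact h1)
      (fun ρ' a1 a2 a3 => hsimp ρ' a1 a2 (hnear ρ' a3))
      (fun ρ' ρ'' a1 a2 a3 b1 b2 b3 hne => by
        refine le_trans ?_ (hsep ρ' ρ'' a1 a2 (hnear ρ' a3) b1 b2 (hnear ρ'' b3) hne)
        have h7 : Real.log X / 2 ≤ Real.log ρ.im := by
          have h8 : Real.log (X / 2) ≤ Real.log ρ.im := Real.log_le_log (by linarith) h4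
          rw [Real.log_div hX0.ne' (by norm_num)] at h8
          have := Real.log_two_lt_d9
          linarith
        have h9 : 0 < Real.log X := by linarith
        calc c1 / 2 / Real.log ρ.im ≤ c1 / 2 / (Real.log X / 2) := by gcongr
          _ = c1 / Real.log X := by field_simp)
    rw [hmk ρ h2] at h6
    rw [norm_div, norm_one]
    have h7 : 0 < ρ.im ^ (-(δ / 4)) := by positivity
    calc 1 / ‖deriv riemannZeta ρ‖ ≤ 1 / ρ.im ^ (-(δ / 4)) := by gcongr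
      _ = ρ.im ^ (δ / 4) := by rw [Real.rpow_neg hρp.le, one_div, inv_inv]
      _ ≤ (3 * X) ^ (δ / 4) := by gcongr
  -- the number of zeros
  have hcard : ((Zf c' d').card : ℝ) ≤ (2 / c1 + 1) * Real.log X ^ 5 := by
    classical
    rcases Nat.eq_zero_or_pos (Zf c' d').card with h | h
    · rw [h, Nat.cast_zero]; positivity
    set R : Finset ℝ := (Zf c' d').image (fun ρ => ρ.im) with hR
    have hinj : Set.InjOn (fun ρ : ℂ => ρ.im) (Zf c' d') := by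
      intro x hx y hy hxy
      exact Complex.ext (by rw [(hZ x hx).2.1, (hZ y hy).2.1]) hxy
    have hRc : R.card = (Zf c' d').card := Finset.card_image_of_injOn hinj
    obtain ⟨x, hx, y, hy, hxy⟩ := sep_card (c1 / Real.log X) (R.card - 1) R (by omega) (by
      intro x hx y hy hne
      rw [hR, Finset.mem_image] at hx hy
      obtain ⟨ρ, hρ, rfl⟩ := hx
      obtain ⟨ρ', hρ', rfl⟩ := hy
      obtain ⟨a1, a2, a3, -⟩ := hZ ρ hρ
      obtain ⟨b1, b2, b3, -⟩ := hZ ρ' hρ'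
      exact hsep ρ ρ' a1 a2 (by linarith) b1 b2 (by linarith) (fun h => hne (by rw [h])))
    have hx2 : |x - T| ≤ ll X - 1 := by
      rw [hR, Finset.mem_image] at hx
      obtain ⟨ρ, hρ, rfl⟩ := hx
      exact (hZ ρ hρ).2.2.1
    have hy2 : |y - T| ≤ ll X - 1 := by
      rw [hR, Finset.mem_image] at hy
      obtain ⟨ρ, hρ, rfl⟩ := hy
      exact (hZ ρ hρ).2.2.1
    have h8 : x - y ≤ 2 * ll X := by
      have := (abs_le.1 hx2).2
      have := (abs_le.1 hy2).1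
      linarith
    have h9 : ((R.card - 1 : ℕ) : ℝ) * (c1 / Real.log X) ≤ 2 * ll X := hxy.trans h8
    rw [Nat.cast_sub (by omega), Nat.cast_one] at h9
    have hlp : 0 < Real.log X := by linarith
    rw [mul_div_assoc', div_le_iff₀ hlp] at h9
    have h10 : ((R.card : ℝ) - 1) ≤ 2 / c1 * Real.log X ^ 5 := by
      rw [hllX] at h9
      rw [div_mul_eq_mul_div, le_div_iff₀ hc1]
      nlinarith
    rw [← hRc]
    have h11 : 1 ≤ Real.log X ^ 5 := one_le_pow₀ hl1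
    linarith
  -- the two sums
  have hcI : c' ∈ Icc (T - ll X) (T - ll X / 2) := ⟨by linarith, by linarith⟩
  have hdI : d' ∈ Icc (T + ll X / 2) (T + ll X) := ⟨by linarith, by linarith⟩
  have hUm := hU X hXa T hT c' d' hcI hdI hGc hGd hder
  have hSm := hS X hXb T hT c' d' hcI hdI hGc hGd hder
  rw [Sg_eq_int (xc_pos hc) hX3' T] at hSm
  have hUlow := hUl X hXc T
  set U := ∑ ρ ∈ Zf c' d', Wt T X ρ / deriv riemannZeta ρ with hUd
  set S := ∑ ρ ∈ Zf c' d', G0 (xc c) ρ * Gamma ρ * Wt T X ρ / deriv riemannZeta ρ with hSd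
  have hUn : hh X / 5 - 1 ≤ ‖U‖ := by
    set V := (1 / (2 * Real.pi) : ℂ) * ∫ y : ℝ, Wt T X (⟨3 / 2, y⟩ : ℂ) * (riemannZeta ⟨3 / 2, y⟩)⁻¹ with hV
    have := norm_sub_norm_le V U
    rw [norm_sub_rev] at this
    linarith
  -- the comparison
  have hcmp : ‖S - 2 * Real.pi * I * (Real.exp 1 / c : ℝ) * κ * (starRingEnd ℂ) U‖ ≤ 1 := by
    have e1 : S - 2 * Real.pi * I * (Real.exp 1 / c : ℝ) * κ * (starRingEnd ℂ) U =
        ∑ ρ ∈ Zf c' d', (G0 (xc c) ρ * Gamma ρ / deriv riemannZeta ρ -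
          2 * Real.pi * I * (Real.exp 1 / c : ℝ) * κ * (starRingEnd ℂ) (1 / deriv riemannZeta ρ)) * Wt T X ρ := by
      rw [hSd, hUd, map_sum, Finset.mul_sum, ← Finset.sum_sub_distrib]
      apply Finset.sum_congr rfl
      intro ρ hρ
      have hW : (starRingEnd ℂ) (Wt T X ρ) = Wt T X ρ := by
        rw [← hmk ρ (hZ ρ hρ).2.1, Wt_half, Complex.conj_ofReal]
      rw [map_div₀, map_div₀, hW, map_one]
      ring
    rw [e1]
    have hterm : ∀ ρ ∈ Zf c' d', ‖(G0 (xc c) ρ * Gamma ρ / deriv riemannZeta ρ -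
          2 * Real.pi * I * (Real.exp 1 / c : ℝ) * κ * (starRingEnd ℂ) (1 / deriv riemannZeta ρ)) * Wt T X ρ‖ ≤
        K1 * X ^ (-δ) * (3 * X) ^ (δ / 4) := by
      intro ρ hρ
      obtain ⟨h1, h2, h3, h4, h5⟩ := hZ ρ hρ
      have hWn : ‖Wt T X ρ‖ ≤ 1 := by
        rw [← hmk ρ h2, Wt_half, Complex.norm_real, Real.norm_of_nonneg (Real.exp_pos _).le,
          Real.exp_le_one_iff]
        have : 0 ≤ (ρ.im - T) ^ 2 / hh X ^ 2 := by positivity
        linarith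
      have h6 := hfe ρ.im (by linarith) (by rw [hmk ρ h2]; exact h1) (by rw [hmk ρ h2]; exact hder ρ hρ)
      rw [hmk ρ h2] at h6
      have h7 := hph ρ h1 h2 (by linarith)
      have e2 : G0 (xc c) ρ * Gamma ρ / deriv riemannZeta ρ -
          2 * Real.pi * I * (Real.exp 1 / c : ℝ) * κ * (starRingEnd ℂ) (1 / deriv riemannZeta ρ) =
          (G0 (xc c) ρ * Gamma ρ / deriv riemannZeta ρ -
          2 * Real.pi * I * (Real.exp 1 / c : ℝ) * ph c ρ.im * (starRingEnd ℂ) (1 / deriv riemannZeta ρ)) +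
          2 * Real.pi * I * (Real.exp 1 / c : ℝ) * (ph c ρ.im - κ) * (starRingEnd ℂ) (1 / deriv riemannZeta ρ) := by
        ring
      have h8 : C4 / ρ.im ≤ 2 * C4 * X ^ (-δ) := by
        have h9 : C4 / ρ.im ≤ C4 / (X / 2) := by gcongr
        have h10 : X⁻¹ ≤ X ^ (-δ) := by
          rw [← Real.rpow_neg_one]
          exact Real.rpow_le_rpow_of_exponent_le (by linarith) (by linarith)
        calc C4 / ρ.im ≤ C4 / (X / 2) := h9
          _ = 2 * C4 * X⁻¹ := by field_simp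
          _ ≤ _ := by gcongr
      rw [norm_mul]
      calc _ ≤ ‖G0 (xc c) ρ * Gamma ρ / deriv riemannZeta ρ -
          2 * Real.pi * I * (Real.exp 1 / c : ℝ) * κ * (starRingEnd ℂ) (1 / deriv riemannZeta ρ)‖ * 1 := by gcongr
        _ ≤ (2 * C4 * X ^ (-δ) * (3 * X) ^ (δ / 4) +
            2 * Real.pi * (Real.exp 1 / c) * X ^ (-δ) * (3 * X) ^ (δ / 4)) := by
            rw [mul_one, e2]
            refine (norm_add_le _ _).trans ?_
            apply add_le_add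
            · refine h6.trans ?_
              gcongr
              exact hlow ρ hρ
            · rw [norm_mul, norm_mul, norm_mul, norm_mul, norm_mul, Complex.norm_I, mul_one, RCLike.norm_conj,
                Complex.norm_real, Complex.norm_real, Real.norm_of_nonneg Real.pi_pos.le,
                Real.norm_of_nonneg (by positivity : (0:ℝ) ≤ Real.exp 1 / c), Complex.norm_ofNat]
              gcongr
              exact hlow ρ hρ
        _ = _ := by rw [hK1]; ring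
    have h3d : (3 * X) ^ (δ / 4) ≤ 3 * X ^ (δ / 4) := by
      rw [Real.mul_rpow (by norm_num) hX0.le]
      gcongr
      calc (3 : ℝ) ^ (δ / 4) ≤ 3 ^ (1 : ℝ) := Real.rpow_le_rpow_of_exponent_le (by norm_num) (by linarith)
        _ = 3 := Real.rpow_one 3
    calc _ ≤ ∑ ρ ∈ Zf c' d', K1 * X ^ (-δ) * (3 * X) ^ (δ / 4) :=
          (norm_sum_le _ _).trans (Finset.sum_le_sum hterm)
      _ = ((Zf c' d').card : ℝ) * (K1 * X ^ (-δ) * (3 * X) ^ (δ / 4)) := by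
          rw [Finset.sum_const, nsmul_eq_mul]
      _ ≤ ((2 / c1 + 1) * Real.log X ^ 5) * (K1 * X ^ (-δ) * (3 * X ^ (δ / 4))) := by gcongr
      _ = (2 / c1 + 1) * (3 * K1) * Real.log X ^ 5 * (X ^ (-δ) * X ^ (δ / 4)) := by ring
      _ = (2 / c1 + 1) * (3 * K1) * Real.log X ^ 5 * X ^ (-(3 * δ / 4)) := by
          rw [← Real.rpow_add hX0]
          congr 2
          ring
      _ ≤ 1 := hps
  have hn1 : ‖2 * Real.pi * I * (Real.exp 1 / c : ℝ) * κ * (starRingEnd ℂ) U‖ =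
      2 * Real.pi * (Real.exp 1 / c) * ‖U‖ := by
    rw [norm_mul, norm_mul, norm_mul, norm_mul, norm_mul, Complex.norm_I, mul_one, RCLike.norm_conj,
      Complex.norm_real, Complex.norm_real, Real.norm_of_nonneg Real.pi_pos.le,
      Real.norm_of_nonneg (by positivity : (0:ℝ) ≤ Real.exp 1 / c), Complex.norm_ofNat, hκ, mul_one]
  have hSn : 2 * Real.pi * (Real.exp 1 / c) * ‖U‖ - 1 ≤ ‖S‖ := by
    have := norm_sub_norm_le (2 * Real.pi * I * (Real.exp 1 / c : ℝ) * κ * (starRingEnd ℂ) U) S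
    rw [norm_sub_rev] at this
    linarith
  have hSg : ‖S‖ - 1 ≤ ‖Sg (xc c) X T‖ := by
    have := norm_sub_norm_le S (Sg (xc c) X T)
    linarith
  have hh100 : 10 * (10 + 10 * (c / Real.exp 1)) ≤ hh X := by
    rw [hhh]; nlinarith
  have hE0 : 0 < Real.exp 1 / c := by positivity
  have hprod : Real.exp 1 / c * (c / Real.exp 1) = 1 := by field_simp
  have h12 : 6 * (Real.exp 1 / c) * (hh X / 5 - 1) ≤ 2 * Real.pi * (Real.exp 1 / c) * ‖U‖ := by
    have h13 : 0 ≤ hh X / 5 - 1 := by linarith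
    calc 6 * (Real.exp 1 / c) * (hh X / 5 - 1) ≤ 2 * Real.pi * (Real.exp 1 / c) * (hh X / 5 - 1) := by
          gcongr
          linarith [Real.pi_gt_three]
      _ ≤ _ := by gcongr
  have h14 : Real.exp 1 / c * (10 * (10 + 10 * (c / Real.exp 1))) ≤ Real.exp 1 / c * hh X := by gcongr
  nlinarith

theorem Sg_small {x : ℝ} (hx : 0 < x) {ε : ℝ} (hε : 0 < ε) : ∃ X0 : ℝ, 3 ≤ X0 ∧ ∀ X : ℝ, X0 ≤ X →
    IntegrableOn (fun T => ‖Sg x X T‖ ^ 2) (Icc X (2 * X)) ∧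
    ∫ T in Icc X (2 * X), ‖Sg x X T‖ ^ 2 ≤ ε * hh X ^ 2 * X := by
  obtain ⟨X1, hX1, h1⟩ := ms_P1 x hx (ε / 100) (by positivity)
  obtain ⟨X2, hX2, h2⟩ := hh_small 1 one_pos
  refine ⟨max X1 X2, hX1.trans (le_max_left _ _), fun X hX => ?_⟩
  have hXa := (le_max_left _ _).trans hX
  have hXb := (le_max_right _ _).trans hX
  have hX3 := hX1.trans hXa
  have h2 := h2 X hXb
  have hhX : hh X ≤ X := by
    rw [div_mul_eq_mul_div, one_mul, div_le_one (by linarith)] at h2; exact h2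
  obtain ⟨h3, h4⟩ := S_l2 hx hX3 hhX
  refine ⟨h3, h4.trans ?_⟩
  calc _ ≤ 100 * hh X ^ 2 * (ε / 100 * X) := by
        gcongr
        exact h1 X hXa
    _ = _ := by ring

/-- coherent windows are rare -/
theorem coh_rare (RH : RiemannHypothesis) {c δ c1 : ℝ} (hc : 0 < c) (hδ : 0 < δ) (hδ1 : δ ≤ 1) (hc1 : 0 < c1)
    {ε : ℝ} (hε : 0 < ε) :
    ∃ X0 : ℝ, 3 ≤ X0 ∧ ∀ X : ℝ, X0 ≤ X → ∀ G : Set ℝ, MeasurableSet G → G ⊆ Icc X (2 * X) →
      (∀ T ∈ G, Coh c δ c1 X T) → volume.real G ≤ ε * X := by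
  obtain ⟨X1, hX1, h1⟩ := coh_low RH hc hδ hδ1 hc1
  obtain ⟨X2, hX2, h2⟩ := Sg_small (xc_pos hc) (ε := ε * (Real.exp 1 / c) ^ 2) (by positivity)
  refine ⟨max X1 X2, hX1.trans (le_max_left _ _), fun X hX G hG hGs hcoh => ?_⟩
  have hXa := (le_max_left _ _).trans hX
  have hXb := (le_max_right _ _).trans hX
  have hX3 := hX1.trans hXa
  obtain ⟨h3, h4⟩ := h2 X hXb
  have hh1 := hh_pos hX3
  have hfin : volume G ≠ ⊤ := ne_top_of_le_ne_top (by simp) (measure_mono hGs)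
  have h5 : (Real.exp 1 / c * hh X) ^ 2 * volume.real G ≤ ∫ T in G, ‖Sg (xc c) X T‖ ^ 2 := by
    have h6 : ∫ T in G, (Real.exp 1 / c * hh X) ^ 2 = (Real.exp 1 / c * hh X) ^ 2 * volume.real G := by
      rw [setIntegral_const, smul_eq_mul, mul_comm]
    rw [← h6]
    apply setIntegral_mono_on (integrableOn_const hfin) (h3.mono_set hGs) hG
    intro T hT
    have := h1 X hXa T (hGs hT) (hcoh T hT)
    gcongr
  have h7 : ∫ T in G, ‖Sg (xc c) X T‖ ^ 2 ≤ ∫ T in Icc X (2 * X), ‖Sg (xc c) X T‖ ^ 2 :=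
    setIntegral_mono_set h3 (Eventually.of_forall fun _ => by positivity) (Eventually.of_forall hGs)
  have h8 := h5.trans (h7.trans h4)
  have h9 : 0 < (Real.exp 1 / c * hh X) ^ 2 := by positivity
  have h10 : (Real.exp 1 / c * hh X) ^ 2 * volume.real G ≤ (Real.exp 1 / c * hh X) ^ 2 * (ε * X) := by
    refine h8.trans (le_of_eq ?_)
    ring
  exact le_of_mul_le_mul_left h10 h9

end Pool.Agent.Helper44K9.AR
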