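import Pool.Agent.Helper44K9.AR.Res

/-! Local sums over zeros and the line `Re s = 3/2`. -/

set_option autoImplicit false

namespace Pool.Agent.Helper44K9.AR

open Complex Filter Topology Set MeasureTheory
open Pool.Agent.W120.WM (NT)

noncomputable def hh (X : ℝ) : ℝ := Real.log X ^ 2
noncomputable def ll (X : ℝ) : ℝ := Real.log X ^ 4

lemma ll_eq (X : ℝ) : ll X = hh X * hh X := by unfold ll hh; ring

lemma log_ge_one {X : ℝ} (hX : 3 ≤ X) : 1 ≤ Real.log X := by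
  rw [Real.le_log_iff_exp_le (by linarith)]
  linarith [Real.exp_one_lt_d9]

lemma ev_log (K : ℝ) : ∃ X0 : ℝ, 3 ≤ X0 ∧ ∀ X : ℝ, X0 ≤ X → K ≤ Real.log X := by
  obtain ⟨a, ha⟩ := (tendsto_atTop_atTop.1 Real.tendsto_log_atTop) K
  exact ⟨max a 3, le_max_right _ _, fun X hX => ha X ((le_max_left _ _).trans hX)⟩

lemma tiny (K : ℝ) : ∃ X0 : ℝ, 3 ≤ X0 ∧ ∀ X : ℝ, X0 ≤ X →
    Real.exp (K * Real.log X ^ 2) * Real.exp (-(Real.log X ^ 4 / 8)) ≤ 1 / X := by
  obtain ⟨X0, h3, h0⟩ := ev_log (8 * |K| + 8)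
  refine ⟨X0, h3, fun X hX => ?_⟩
  have hX3 : 3 ≤ X := h3.trans hX
  have h1 := h0 X hX
  have h2 := log_ge_one hX3
  rw [← Real.exp_add, one_div, ← Real.exp_log (show 0 < X⁻¹ by positivity), Real.log_inv]
  apply Real.exp_le_exp.2
  set l := Real.log X
  have hK : K ≤ |K| := le_abs_self K
  have hK0 : 0 ≤ |K| := abs_nonneg K
  have h4 : 8 * (|K| + 1) ≤ l ^ 2 := by nlinarith
  have h5 : (|K| + 1) * l ^ 2 ≤ l ^ 4 / 8 := by nlinarith [sq_nonneg l]
  have h6 : l ≤ l ^ 2 := by nlinarith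
  nlinarith [sq_nonneg l]

lemma ll_div (X : ℝ) (hX : 3 ≤ X) : (ll X / 2) ^ 2 / hh X ^ 2 = Real.log X ^ 4 / 4 := by
  have h2 := log_ge_one hX
  unfold ll hh
  field_simp
  ring

/-- splitting the Gaussian far from the centre -/
lemma gauss_far {X T y : ℝ} (hX : 3 ≤ X) (hy : ll X / 2 ≤ |y - T|) :
    Real.exp (-((y - T) ^ 2 / hh X ^ 2)) ≤
      Real.exp (-(Real.log X ^ 4 / 8)) * Real.exp (-((y - T) ^ 2 / (2 * hh X ^ 2))) := by
  rw [← Real.exp_add]
  apply Real.exp_le_exp.2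
  have h2 := log_ge_one hX
  have hh0 : 0 < hh X := by unfold hh; positivity
  have hl0 : 0 < ll X := by unfold ll; positivity
  have h1 : (ll X / 2) ^ 2 ≤ (y - T) ^ 2 := by
    rw [← sq_abs (y - T)]
    gcongr
  have h3 : Real.log X ^ 4 / 4 ≤ (y - T) ^ 2 / hh X ^ 2 := by
    rw [← ll_div X hX]
    gcongr
  have h4 : (y - T) ^ 2 / (2 * hh X ^ 2) = (y - T) ^ 2 / hh X ^ 2 / 2 := by
    field_simp
  rw [h4]
  linarith

lemma x_exp (x : ℝ) : |x| * Real.exp (-(x ^ 2 / 4)) ≤ 1 := by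
  have h1 : |x| ≤ Real.exp (x ^ 2 / 4) := by
    have h2 := Real.add_one_le_exp (x ^ 2 / 4)
    have h3 : |x| ≤ x ^ 2 / 4 + 1 := by
      have := sq_nonneg (|x| / 2 - 1)
      have h4 := sq_abs x
      nlinarith
    linarith
  rw [Real.exp_neg, ← div_eq_mul_inv, div_le_one (Real.exp_pos _)]
  exact h1

lemma lin_gauss {h τ : ℝ} (hh : 1 ≤ h) :
    (1 + |τ|) * Real.exp (-(τ ^ 2 / (2 * h ^ 2))) ≤ 2 * h * Real.exp (-(τ ^ 2 / (4 * h ^ 2))) := by
  have h0 : 0 < h := by linarith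
  have e : Real.exp (-(τ ^ 2 / (2 * h ^ 2))) = Real.exp (-((τ / h) ^ 2 / 4)) *
      Real.exp (-(τ ^ 2 / (4 * h ^ 2))) := by
    rw [← Real.exp_add]
    congr 1
    field_simp
    ring
  rw [e, ← mul_assoc]
  refine mul_le_mul_of_nonneg_right ?_ (Real.exp_pos _).le
  have h1 := x_exp (τ / h)
  have h2 : Real.exp (-((τ / h) ^ 2 / 4)) ≤ 1 := by
    rw [Real.exp_le_one_iff]
    have : 0 ≤ (τ / h) ^ 2 / 4 := by positivity
    linarith
  rw [abs_div, abs_of_pos h0, div_mul_eq_mul_div, div_le_one h0] at h1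
  rw [add_mul, one_mul]
  linarith

lemma int_gauss {b T : ℝ} (hb : 0 < b) : Integrable (fun y : ℝ => Real.exp (-((y - T) ^ 2 / b))) ∧
    ∫ y : ℝ, Real.exp (-((y - T) ^ 2 / b)) = √(Real.pi * b) := by
  have h1 : (fun y : ℝ => Real.exp (-((y - T) ^ 2 / b))) = fun y : ℝ => (fun z : ℝ => Real.exp (-(1 / b) * z ^ 2)) (y - T) := by
    funext y
    simp only
    congr 1
    ring
  constructor
  · rw [h1]
    exact (integrable_exp_neg_mul_sq (by positivity)).comp_sub_right T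
  · rw [h1, integral_sub_right_eq_self (fun z : ℝ => Real.exp (-(1 / b) * z ^ 2)) T, integral_gaussian]
    congr 1
    field_simp

lemma ll_le : ∃ X0 : ℝ, 3 ≤ X0 ∧ ∀ X : ℝ, X0 ≤ X → ll X ≤ X / 2 := by
  obtain ⟨X0, h3, h0⟩ := ev_log 240
  refine ⟨X0, h3, fun X hX => ?_⟩
  have h1 := h0 X hX
  have hX3 : 3 ≤ X := h3.trans hX
  have h2 := Real.pow_div_factorial_le_exp (Real.log X) (by linarith) 5
  rw [Real.exp_log (by linarith)] at h2
  have h3 : ((Nat.factorial 5 : ℕ) : ℝ) = 120 := by norm_num [Nat.factorial]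
  rw [h3] at h2
  unfold ll
  have h4 : 0 ≤ Real.log X ^ 4 := by positivity
  nlinarith

lemma hh_small (K : ℝ) (hK : 0 < K) : ∃ X0 : ℝ, 3 ≤ X0 ∧ ∀ X : ℝ, X0 ≤ X → K / X * hh X ≤ 1 := by
  obtain ⟨X0, h3, h0⟩ := ev_log (6 * K)
  refine ⟨X0, h3, fun X hX => ?_⟩
  have h1 := h0 X hX
  have hX3 : 3 ≤ X := h3.trans hX
  have h2 := Real.pow_div_factorial_le_exp (Real.log X) (by linarith) 3
  rw [Real.exp_log (by linarith)] at h2
  have h3 : ((Nat.factorial 3 : ℕ) : ℝ) = 6 := by norm_num [Nat.factorial]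
  rw [h3] at h2
  unfold hh
  rw [div_mul_eq_mul_div, div_le_one (by linarith)]
  have h4 : 0 ≤ Real.log X ^ 2 := by positivity
  nlinarith

lemma le_exp_log {K : ℝ} (hK : 0 < K) {l : ℝ} (hl : 1 ≤ l) : K ≤ Real.exp (|Real.log K| * l ^ 2) := by
  calc K = Real.exp (Real.log K) := (Real.exp_log hK).symm
    _ ≤ Real.exp (|Real.log K| * l ^ 2) := by
        apply Real.exp_le_exp.2
        have h1 := le_abs_self (Real.log K)
        have h2 := abs_nonneg (Real.log K)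
        have h3 : 1 ≤ l ^ 2 := by nlinarith
        nlinarith

/-- the tail of the right line -/
lemma tail_bd (f : ℝ → ℂ) (hf : Continuous f) {X T c d K : ℝ} (hX : 3 ≤ X) (hK : 0 ≤ K)
    (hT : T ∈ Icc X (2 * X)) (hc : c ≤ T - ll X / 2) (hd : T + ll X / 2 ≤ d)
    (hb : ∀ y : ℝ, ‖f y‖ ≤ K * (1 + |y|) * Real.exp (-((y - T) ^ 2 / hh X ^ 2))) :
    Integrable f ∧ ‖(∫ y in c..d, f y) - ∫ y : ℝ, f y‖ ≤
      24 * K * (X * hh X ^ 2 * Real.exp (-(Real.log X ^ 4 / 8))) := by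
  have h2 := log_ge_one hX
  have hh1 : 1 ≤ hh X := by unfold hh; nlinarith
  have hh0 : 0 < hh X := by linarith
  have hl0 : 0 < ll X := by unfold ll; positivity
  have hT0 : 0 ≤ T := by linarith [hT.1]
  have hlin : ∀ y : ℝ, 1 + |y| ≤ 3 * X * (1 + |y - T|) := by
    intro y
    have h3 : |y| ≤ |y - T| + T := by
      have := abs_add_le (y - T) T
      rw [sub_add_cancel, abs_of_nonneg hT0] at this
      exact this
    have h4 := abs_nonneg (y - T)
    nlinarith [hT.2]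
  have hE : ∀ y : ℝ, Real.exp (-((y - T) ^ 2 / hh X ^ 2)) ≤ Real.exp (-((y - T) ^ 2 / (2 * hh X ^ 2))) := by
    intro y
    apply Real.exp_le_exp.2
    apply neg_le_neg
    gcongr
    nlinarith [sq_nonneg (hh X)]
  have hb1 : ∀ y : ℝ, ‖f y‖ ≤ 6 * K * X * hh X * Real.exp (-((y - T) ^ 2 / (4 * hh X ^ 2))) := by
    intro y
    calc ‖f y‖ ≤ K * (1 + |y|) * Real.exp (-((y - T) ^ 2 / hh X ^ 2)) := hb y
      _ ≤ K * (3 * X * (1 + |y - T|)) * Real.exp (-((y - T) ^ 2 / (2 * hh X ^ 2))) :=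
          mul_le_mul (mul_le_mul_of_nonneg_left (hlin y) hK) (hE y) (Real.exp_pos _).le
            (by positivity)
      _ = 3 * K * X * ((1 + |y - T|) * Real.exp (-((y - T) ^ 2 / (2 * hh X ^ 2)))) := by ring
      _ ≤ 3 * K * X * (2 * hh X * Real.exp (-((y - T) ^ 2 / (4 * hh X ^ 2)))) :=
          mul_le_mul_of_nonneg_left (lin_gauss hh1) (by positivity)
      _ = _ := by ring
  have hint := (int_gauss (b := 4 * hh X ^ 2) (T := T) (by positivity)).1
  have hI : Integrable f := (hint.const_mul (6 * K * X * hh X)).mono' hf.aestronglyMeasurable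
    (Eventually.of_forall hb1)
  refine ⟨hI, ?_⟩
  have hcd : c ≤ d := by linarith
  rw [intervalIntegral.integral_of_le hcd, ← integral_add_compl measurableSet_Ioc hI, ← norm_neg]
  have e1 : -((∫ y in Ioc c d, f y) - ((∫ y in Ioc c d, f y) + ∫ y in (Ioc c d)ᶜ, f y)) =
      ∫ y in (Ioc c d)ᶜ, f y := by ring
  rw [e1]
  have hb2 : ∀ y ∈ (Ioc c d)ᶜ, ‖f y‖ ≤ 6 * K * X * hh X * Real.exp (-(Real.log X ^ 4 / 8)) *
      Real.exp (-((y - T) ^ 2 / (4 * hh X ^ 2))) := by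
    intro y hy
    have hfar : ll X / 2 ≤ |y - T| := by
      rw [Set.mem_compl_iff, Set.mem_Ioc, not_and_or, not_lt, not_le] at hy
      rcases hy with h | h
      · rw [abs_sub_comm]
        exact le_trans (by linarith) (le_abs_self _)
      · exact le_trans (by linarith) (le_abs_self _)
    calc ‖f y‖ ≤ K * (1 + |y|) * Real.exp (-((y - T) ^ 2 / hh X ^ 2)) := hb y
      _ ≤ K * (3 * X * (1 + |y - T|)) * (Real.exp (-(Real.log X ^ 4 / 8)) *
          Real.exp (-((y - T) ^ 2 / (2 * hh X ^ 2)))) := by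
          gcongr
          · exact hlin y
          · exact gauss_far hX hfar
      _ = 3 * K * X * Real.exp (-(Real.log X ^ 4 / 8)) *
          ((1 + |y - T|) * Real.exp (-((y - T) ^ 2 / (2 * hh X ^ 2)))) := by ring
      _ ≤ 3 * K * X * Real.exp (-(Real.log X ^ 4 / 8)) *
          (2 * hh X * Real.exp (-((y - T) ^ 2 / (4 * hh X ^ 2)))) :=
          mul_le_mul_of_nonneg_left (lin_gauss hh1) (by positivity)
      _ = _ := by ring
  have hI2 : Integrable (fun y : ℝ => 6 * K * X * hh X * Real.exp (-(Real.log X ^ 4 / 8)) *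
      Real.exp (-((y - T) ^ 2 / (4 * hh X ^ 2)))) := hint.const_mul _
  calc ‖∫ y in (Ioc c d)ᶜ, f y‖ ≤ ∫ y in (Ioc c d)ᶜ, ‖f y‖ := norm_integral_le_integral_norm _
    _ ≤ ∫ y in (Ioc c d)ᶜ, 6 * K * X * hh X * Real.exp (-(Real.log X ^ 4 / 8)) *
      Real.exp (-((y - T) ^ 2 / (4 * hh X ^ 2))) :=
        setIntegral_mono_on hI.norm.integrableOn hI2.integrableOn measurableSet_Ioc.compl hb2
    _ ≤ ∫ y : ℝ, 6 * K * X * hh X * Real.exp (-(Real.log X ^ 4 / 8)) *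
      Real.exp (-((y - T) ^ 2 / (4 * hh X ^ 2))) :=
        setIntegral_le_integral hI2 (Eventually.of_forall fun y => by positivity)
    _ = 6 * K * X * hh X * Real.exp (-(Real.log X ^ 4 / 8)) * √(Real.pi * (4 * hh X ^ 2)) := by
        rw [integral_const_mul, (int_gauss (T := T) (by positivity)).2]
    _ ≤ 6 * K * X * hh X * Real.exp (-(Real.log X ^ 4 / 8)) * (4 * hh X) := by
        gcongr
        rw [Real.sqrt_le_left (by positivity)]
        nlinarith [Real.pi_lt_d2, sq_nonneg (hh X)]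
    _ = _ := by ring

/-- the local formula -/
theorem loc_main (A C : ℝ) (hA : 0 < A) (hC : 0 < C) : ∃ X0 : ℝ, 3 ≤ X0 ∧ ∀ X : ℝ, X0 ≤ X →
    ∀ T ∈ Icc X (2 * X), ∀ c d : ℝ, c ∈ Icc (T - ll X) (T - ll X / 2) →
    d ∈ Icc (T + ll X / 2) (T + ll X) → Good C c → Good C d →
    ∀ D g : ℂ → ℂ, Differentiable ℂ D → (∀ s : ℂ, 0 < s.im → D s ≠ 0) → Differentiable ℂ g →
    (∀ σ ∈ Icc (-1 / 2 : ℝ) (3 / 2), ∀ y : ℝ, 1 ≤ y →
      ‖g (⟨σ, y⟩ : ℂ) / D ⟨σ, y⟩‖ ≤ A * y * Real.exp (-((y - T) ^ 2 / hh X ^ 2))) →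
    (∀ y : ℝ, 1 ≤ y → ‖g (⟨-1 / 2, y⟩ : ℂ) / D ⟨-1 / 2, y⟩‖ ≤ A * Real.exp (-((y - T) ^ 2 / hh X ^ 2))) →
    (∀ y : ℝ, ‖g (⟨3 / 2, y⟩ : ℂ) / D ⟨3 / 2, y⟩‖ ≤ A * (1 + |y|) * Real.exp (-((y - T) ^ 2 / hh X ^ 2))) →
    Continuous (fun y : ℝ => g (⟨3 / 2, y⟩ : ℂ) / D ⟨3 / 2, y⟩) →
    (∀ ρ ∈ Zf c d, deriv riemannZeta ρ ≠ 0) →
    ‖∑ ρ ∈ Zf c d, g ρ / (D ρ * deriv riemannZeta ρ) -
      1 / (2 * Real.pi) * ∫ y : ℝ, g (⟨3 / 2, y⟩ : ℂ) / (D ⟨3 / 2, y⟩ * riemannZeta ⟨3 / 2, y⟩)‖ ≤ 1 := by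
  obtain ⟨B, hB, hleft⟩ := left_bound
  obtain ⟨B', hB', hright⟩ := right_bound
  obtain ⟨X1, hX1, h1⟩ := tiny (3 + |Real.log (24 * (A * B'))|)
  obtain ⟨X2, hX2, h2⟩ := tiny (9 * C + 1 + |Real.log (12 * A)|)
  obtain ⟨X3, hX3, h3⟩ := ll_le
  obtain ⟨X4, hX4, h4⟩ := hh_small (4 * A * B) (by positivity)
  refine ⟨max (max X1 X2) (max X3 X4), by simp [hX1], fun X hX T hT c d hc hd hGc hGd D g hD hD0 hg
    hb1 hb2 hb3 hcont hs => ?_⟩
  rw [max_le_iff, max_le_iff, max_le_iff] at hX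
  obtain ⟨⟨hXa, hXb⟩, hXc, hXd⟩ := hX
  have hX3' : 3 ≤ X := hX1.trans hXa
  have h1 := h1 X hXa
  have h2 := h2 X hXb
  have h3 := h3 X hXc
  have h4 := h4 X hXd
  have hl1 := log_ge_one hX3'
  have hh1 : 1 ≤ hh X := by unfold hh; nlinarith
  have hh0 : 0 < hh X := by linarith
  have hl0 : 0 < ll X := by unfold ll; positivity
  have hcX : X / 2 ≤ c := by linarith [hc.1, hT.1]
  have hc1 : 1 ≤ c := by linarith
  have hc0 : 0 < c := by linarith
  have hcd : c < d := by linarith [hc.2, hd.1]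
  have hd3 : d ≤ 3 * X := by linarith [hd.2, hT.2]
  have hres := res_formula D g hD hD0 hg hc0 hcd (fun σ hσ => (hGc σ hσ).1)
    (fun σ hσ => (hGd σ hσ).1) hs
  -- the horizontal edges
  have hhor : ∀ U : ℝ, U ∈ Icc c d → ll X / 2 ≤ |U - T| → Good C U →
      ‖∫ x in (-1 / 2 : ℝ)..(3 / 2), g (⟨x, U⟩ : ℂ) / (D ⟨x, U⟩ * riemannZeta ⟨x, U⟩)‖ ≤ 1 / 2 := by
    intro U hU hfar hG
    have hU1 : 1 ≤ U := hc1.trans hU.1
    have hU3 : U ≤ 3 * X := hU.2.trans hd3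
    have h5 : ∀ x ∈ Set.uIoc (-1 / 2 : ℝ) (3 / 2), ‖g (⟨x, U⟩ : ℂ) / (D ⟨x, U⟩ * riemannZeta ⟨x, U⟩)‖ ≤
        A * (3 * X) * Real.exp (-(Real.log X ^ 4 / 8)) * Real.exp (9 * C * Real.log X ^ 2) := by
      intro x hx
      rw [Set.uIoc_of_le (by norm_num)] at hx
      have hx' : x ∈ Icc (-1 / 2 : ℝ) (3 / 2) := ⟨hx.1.le, hx.2⟩
      rw [← div_div, div_eq_mul_inv (g (⟨x, U⟩ : ℂ) / D ⟨x, U⟩), norm_mul]
      have h6 := hb1 x hx' U hU1
      have h7 := (hG x hx').2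
      have h8 : Real.exp (-((U - T) ^ 2 / hh X ^ 2)) ≤ Real.exp (-(Real.log X ^ 4 / 8)) := by
        refine (gauss_far hX3' hfar).trans ?_
        have : Real.exp (-((U - T) ^ 2 / (2 * hh X ^ 2))) ≤ 1 := by
          rw [Real.exp_le_one_iff]
          have : 0 ≤ (U - T) ^ 2 / (2 * hh X ^ 2) := by positivity
          linarith
        nlinarith [Real.exp_pos (-(Real.log X ^ 4 / 8))]
      have h9 : Real.exp (C * Real.log U ^ 2) ≤ Real.exp (9 * C * Real.log X ^ 2) := by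
        apply Real.exp_le_exp.2
        have h10 : 0 ≤ Real.log U := Real.log_nonneg hU1
        have h11 : Real.log U ≤ 3 * Real.log X := by
          calc Real.log U ≤ Real.log (3 * X) := Real.log_le_log (by linarith) hU3
            _ = Real.log 3 + Real.log X := Real.log_mul (by norm_num) (by linarith)
            _ ≤ 3 * Real.log X := by
                have : Real.log 3 ≤ 2 * Real.log X := by
                  have := Real.log_le_log (by norm_num) hX3'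
                  linarith
                linarith
        calc C * Real.log U ^ 2 ≤ C * (3 * Real.log X) ^ 2 := by gcongr
          _ = 9 * C * Real.log X ^ 2 := by ring
      calc _ ≤ (A * U * Real.exp (-((U - T) ^ 2 / hh X ^ 2))) * Real.exp (C * Real.log U ^ 2) := by gcongr
        _ ≤ _ := by gcongr
    have h6 := intervalIntegral.norm_integral_le_of_norm_le_const h5
    refine h6.trans ?_
    have e1 : |(3 / 2 : ℝ) - -1 / 2| = 2 := by norm_num
    rw [e1]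
    have h7 : Real.exp ((9 * C + 1 + |Real.log (12 * A)|) * Real.log X ^ 2) =
        Real.exp (9 * C * Real.log X ^ 2) * (Real.exp (1 * Real.log X ^ 2) *
        Real.exp (|Real.log (12 * A)| * Real.log X ^ 2)) := by
      rw [← Real.exp_add, ← Real.exp_add]; congr 1; ring
    have h8 : X ≤ Real.exp (1 * Real.log X ^ 2) := by
      calc X = Real.exp (Real.log X) := (Real.exp_log (by linarith)).symm
        _ ≤ _ := Real.exp_le_exp.2 (by nlinarith)
    have h9 := le_exp_log (K := 12 * A) (by positivity) hl1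
    have h10 : (1 : ℝ) / X ≤ 1 := by rw [div_le_one (by linarith)]; linarith
    have h11 := h2.trans h10
    rw [h7] at h11
    have h12 : Real.exp (9 * C * Real.log X ^ 2) * (X * (12 * A)) * Real.exp (-(Real.log X ^ 4 / 8)) ≤ 1 := by
      refine le_trans ?_ h11
      gcongr
    calc A * (3 * X) * Real.exp (-(Real.log X ^ 4 / 8)) * Real.exp (9 * C * Real.log X ^ 2) * 2
        = 1 / 2 * (Real.exp (9 * C * Real.log X ^ 2) * (X * (12 * A)) * Real.exp (-(Real.log X ^ 4 / 8))) := by ring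
      _ ≤ 1 / 2 * 1 := by gcongr
      _ = 1 / 2 := by norm_num
  have hbot := hhor c ⟨le_rfl, hcd.le⟩ (by rw [abs_sub_comm]; exact le_trans (by linarith [hc.2]) (le_abs_self _)) hGc
  have htop := hhor d ⟨hcd.le, le_rfl⟩ (le_trans (by linarith [hd.1]) (le_abs_self _)) hGd
  -- the left edge
  have hlft : ‖∫ y in c..d, g (⟨-1 / 2, y⟩ : ℂ) / (D ⟨-1 / 2, y⟩ * riemannZeta ⟨-1 / 2, y⟩)‖ ≤ 1 := by
    have hig := int_gauss (b := hh X ^ 2) (T := T) (by positivity)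
    have h5 : ∀ y ∈ Set.Ioc c d, ‖g (⟨-1 / 2, y⟩ : ℂ) / (D ⟨-1 / 2, y⟩ * riemannZeta ⟨-1 / 2, y⟩)‖ ≤
        2 * A * B / X * Real.exp (-((y - T) ^ 2 / hh X ^ 2)) := by
      intro y hy
      have hy1 : 1 ≤ y := hc1.trans hy.1.le
      rw [← div_div, div_eq_mul_inv (g (⟨-1 / 2, y⟩ : ℂ) / D ⟨-1 / 2, y⟩), norm_mul]
      have h6 := hb2 y hy1
      have h7 := (hleft y (by linarith)).2
      have h8 : B / y ≤ 2 * B / X := by
        rw [div_le_div_iff₀ (by linarith) (by linarith)]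
        nlinarith [hy.1]
      calc _ ≤ (A * Real.exp (-((y - T) ^ 2 / hh X ^ 2))) * (2 * B / X) := by
            gcongr
            exact h7.trans h8
        _ = _ := by ring
    calc ‖∫ y in c..d, g (⟨-1 / 2, y⟩ : ℂ) / (D ⟨-1 / 2, y⟩ * riemannZeta ⟨-1 / 2, y⟩)‖
        ≤ ∫ y in c..d, 2 * A * B / X * Real.exp (-((y - T) ^ 2 / hh X ^ 2)) :=
          intervalIntegral.norm_integral_le_of_norm_le hcd.le
            (Eventually.of_forall fun y hy => h5 y hy) ((hig.1.const_mul _).intervalIntegrable)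
      _ = ∫ y in Ioc c d, 2 * A * B / X * Real.exp (-((y - T) ^ 2 / hh X ^ 2)) :=
          intervalIntegral.integral_of_le hcd.le
      _ ≤ ∫ y : ℝ, 2 * A * B / X * Real.exp (-((y - T) ^ 2 / hh X ^ 2)) :=
          setIntegral_le_integral (hig.1.const_mul _) (Eventually.of_forall fun y => by positivity)
      _ = 2 * A * B / X * √(Real.pi * hh X ^ 2) := by rw [integral_const_mul, hig.2]
      _ ≤ 2 * A * B / X * (2 * hh X) := by
          gcongr
          rw [Real.sqrt_le_left (by positivity)]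
          nlinarith [Real.pi_lt_d2, sq_nonneg (hh X)]
      _ = 4 * A * B / X * hh X := by ring
      _ ≤ 1 := h4
  -- the right edge
  have hzc : Continuous (fun y : ℝ => (riemannZeta (⟨3 / 2, y⟩ : ℂ))⁻¹) := by
    refine Continuous.inv₀ ?_ (fun y => (hright y).1)
    rw [continuous_iff_continuousAt]
    intro y
    have hne : (⟨3 / 2, y⟩ : ℂ) ≠ 1 := by
      intro h
      have := congrArg Complex.re h
      norm_num at this
    refine ContinuousAt.comp (g := riemannZeta) (f := fun y : ℝ => (⟨3 / 2, y⟩ : ℂ))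
      (differentiableAt_riemannZeta hne).continuousAt ?_
    have h5 : (fun y : ℝ => (⟨3 / 2, y⟩ : ℂ)) = fun y : ℝ => (3 / 2 : ℂ) + y * I := by
      funext y
      apply Complex.ext <;> simp
    show ContinuousAt (fun y : ℝ => (⟨3 / 2, y⟩ : ℂ)) y
    rw [h5]
    fun_prop
  have hf : ∀ y : ℝ, g (⟨3 / 2, y⟩ : ℂ) / (D ⟨3 / 2, y⟩ * riemannZeta ⟨3 / 2, y⟩) =
      g (⟨3 / 2, y⟩ : ℂ) / D ⟨3 / 2, y⟩ * (riemannZeta (⟨3 / 2, y⟩ : ℂ))⁻¹ := by
    intro y
    rw [← div_div, div_eq_mul_inv (g (⟨3 / 2, y⟩ : ℂ) / D ⟨3 / 2, y⟩)]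
  have htl := tail_bd (fun y : ℝ => g (⟨3 / 2, y⟩ : ℂ) / (D ⟨3 / 2, y⟩ * riemannZeta ⟨3 / 2, y⟩))
    (by simp only [hf]; exact hcont.mul hzc) (X := X) (T := T) (c := c) (d := d) (K := A * B') hX3'
    (by positivity) hT hc.2 hd.1 (fun y => by
      rw [hf, norm_mul]
      calc _ ≤ (A * (1 + |y|) * Real.exp (-((y - T) ^ 2 / hh X ^ 2))) * B' := by
            gcongr
            · exact hb3 y
            · exact (hright y).2
        _ = _ := by ring)
  have htail : 24 * (A * B') * (X * hh X ^ 2 * Real.exp (-(Real.log X ^ 4 / 8))) ≤ 1 := by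
    have h7 : Real.exp ((3 + |Real.log (24 * (A * B'))|) * Real.log X ^ 2) =
        Real.exp (1 * Real.log X ^ 2) * (Real.exp (2 * Real.log X ^ 2) *
        Real.exp (|Real.log (24 * (A * B'))| * Real.log X ^ 2)) := by
      rw [← Real.exp_add, ← Real.exp_add]; congr 1; ring
    have h8 : X ≤ Real.exp (1 * Real.log X ^ 2) := by
      calc X = Real.exp (Real.log X) := (Real.exp_log (by linarith)).symm
        _ ≤ _ := Real.exp_le_exp.2 (by nlinarith)
    have h8' : hh X ^ 2 ≤ Real.exp (2 * Real.log X ^ 2) := by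
      have h9 : Real.exp (2 * Real.log X ^ 2) = Real.exp (Real.log X ^ 2) ^ 2 := by
        rw [← Real.exp_nat_mul]; congr 1
      rw [h9]
      have h10 := Real.add_one_le_exp (Real.log X ^ 2)
      unfold hh
      gcongr
      linarith
    have h9 := le_exp_log (K := 24 * (A * B')) (by positivity) hl1
    have h10 : (1 : ℝ) / X ≤ 1 := by rw [div_le_one (by linarith)]; linarith
    have h11 := h1.trans h10
    rw [h7] at h11
    refine le_trans ?_ h11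
    calc 24 * (A * B') * (X * hh X ^ 2 * Real.exp (-(Real.log X ^ 4 / 8))) =
        X * (hh X ^ 2 * (24 * (A * B'))) * Real.exp (-(Real.log X ^ 4 / 8)) := by ring
      _ ≤ _ := by gcongr
  have hpi := Real.pi_pos
  have hpic : (Real.pi : ℂ) ≠ 0 := by exact_mod_cast Real.pi_ne_zero
  set S := ∑ ρ ∈ Zf c d, g ρ / (D ρ * deriv riemannZeta ρ) with hS
  set Jc := ∫ x in (-1 / 2 : ℝ)..(3 / 2), g (⟨x, c⟩ : ℂ) / (D ⟨x, c⟩ * riemannZeta ⟨x, c⟩) with hJc
  set Jd := ∫ x in (-1 / 2 : ℝ)..(3 / 2), g (⟨x, d⟩ : ℂ) / (D ⟨x, d⟩ * riemannZeta ⟨x, d⟩) with hJd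
  set JR := ∫ y in c..d, g (⟨3 / 2, y⟩ : ℂ) / (D ⟨3 / 2, y⟩ * riemannZeta ⟨3 / 2, y⟩) with hJR
  set JL := ∫ y in c..d, g (⟨-1 / 2, y⟩ : ℂ) / (D ⟨-1 / 2, y⟩ * riemannZeta ⟨-1 / 2, y⟩) with hJL
  set JJ := ∫ y : ℝ, g (⟨3 / 2, y⟩ : ℂ) / (D ⟨3 / 2, y⟩ * riemannZeta ⟨3 / 2, y⟩) with hJJ
  have e2 : S - 1 / (2 * Real.pi) * JJ = 1 / (2 * Real.pi * I) * (Jc - Jd) +
      1 / (2 * Real.pi) * (JR - JJ) - 1 / (2 * Real.pi) * JL := by
    have h5 : S = 1 / (2 * Real.pi * I) * (Jc - Jd + I * JR - I * JL) := by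
      rw [hres]
      field_simp
    rw [h5]
    field_simp
    ring
  rw [e2]
  have n1 : ‖(1 / (2 * Real.pi * I) : ℂ)‖ = 1 / (2 * Real.pi) := by
    rw [norm_div, norm_mul, norm_mul, Complex.norm_I, Complex.norm_real, norm_one, Real.norm_eq_abs,
      abs_of_pos hpi]
    norm_num
  have n2 : ‖(1 / (2 * Real.pi) : ℂ)‖ = 1 / (2 * Real.pi) := by
    rw [norm_div, norm_mul, Complex.norm_real, norm_one, Real.norm_eq_abs, abs_of_pos hpi]
    norm_num
  have h5 : ‖Jc - Jd‖ ≤ 1 := (norm_sub_le _ _).trans (by linarith)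
  have h6 : ‖JR - JJ‖ ≤ 1 := htl.2.trans htail
  calc _ ≤ ‖1 / (2 * Real.pi * I) * (Jc - Jd)‖ + ‖1 / (2 * Real.pi) * (JR - JJ)‖ +
        ‖1 / (2 * Real.pi) * JL‖ := by
        refine (norm_sub_le _ _).trans ?_
        gcongr
        exact norm_add_le _ _
    _ ≤ 1 / (2 * Real.pi) * 1 + 1 / (2 * Real.pi) * 1 + 1 / (2 * Real.pi) * 1 := by
        rw [norm_mul, norm_mul, norm_mul, n1, n2]
        gcongr
    _ ≤ 1 := by
        have : 1 / (2 * Real.pi) ≤ 1 / 6 := by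
          apply one_div_le_one_div_of_le (by norm_num)
          linarith [Real.pi_gt_three]
        linarith

end Pool.Agent.Helper44K9.AR
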