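import Pool.Agent.Helper44K9.AR.Comb
import Pool.Agent.H345R2.CT.D
import Pool.Agent.H382L.GapUnif
import Pool.Agent.H177R3.LatE

/-! From spacings to coherent windows. -/

set_option autoImplicit false

namespace Pool.Agent.Helper44K9.AR

open Complex Filter Topology Set MeasureTheory
open SG (ord NZ zmult)

/-- the normalised spacings, `γ̃ = γ log (γ / c) / 2π` -/
noncomputable def dc (c : ℝ) (n : ℕ) : ℝ :=
  (ord (n + 1) * Real.log (ord (n + 1) / c) - ord n * Real.log (ord n / c)) / (2 * Real.pi)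

/-- the spacing is not close to a positive half-integer -/
def Far (c η : ℝ) (n : ℕ) : Prop := ∀ k : ℕ, 1 ≤ k → η ≤ |dc c n - k / 2|

lemma dc_gap {c : ℝ} (hc : 0 < c) {n : ℕ} (hn : 1 ≤ n) :
    2 * Real.pi * dc c n ≤ (ord (n + 1) - ord n) * (Real.log (ord (n + 1)) - Real.log c + 1) := by
  have ha := SG.ord_pos hn
  have hb := SG.ord_pos (show 1 ≤ n + 1 by omega)
  unfold dc
  rw [Real.log_div hb.ne' hc.ne', Real.log_div ha.ne' hc.ne']
  have hpi := Real.pi_pos
  have h1 : Real.log (ord (n + 1)) - Real.log (ord n) ≤ ord (n + 1) / ord n - 1 := by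
    rw [← Real.log_div hb.ne' ha.ne']
    exact Real.log_le_sub_one_of_pos (by positivity)
  have h2 : ord n * (Real.log (ord (n + 1)) - Real.log (ord n)) ≤ ord (n + 1) - ord n := by
    calc ord n * (Real.log (ord (n + 1)) - Real.log (ord n)) ≤ ord n * (ord (n + 1) / ord n - 1) := by gcongr
      _ = _ := by field_simp
  field_simp
  nlinarith

lemma ph_step {c : ℝ} (hc : 0 < c) {n : ℕ} (hn : 1 ≤ n) {η : ℝ} {k : ℕ} (hk : |dc c n - k / 2| ≤ η) :
    ‖ph c (ord (n + 1)) - ph c (ord n)‖ ≤ 4 * Real.pi * η := by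
  have ha := SG.ord_pos hn
  have hb := SG.ord_pos (show 1 ≤ n + 1 by omega)
  have hpi := Real.pi_pos
  have hpic : (Real.pi : ℂ) ≠ 0 := by exact_mod_cast Real.pi_ne_zero
  have hn1 : ‖ph c (ord n)‖ = 1 := by
    unfold ph
    have : (2 * I * (ord n * (Real.log (ord n) - Real.log c)) : ℂ) =
        ((2 * (ord n * (Real.log (ord n) - Real.log c)) : ℝ) : ℂ) * I := by push_cast; ring
    rw [this, Complex.norm_exp_ofReal_mul_I]
  have h1 : ph c (ord (n + 1)) = ph c (ord n) * Complex.exp (((4 * Real.pi * (dc c n - k / 2) : ℝ) : ℂ) * I) := by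
    unfold ph dc
    rw [Real.log_div hb.ne' hc.ne', Real.log_div ha.ne' hc.ne', ← Complex.exp_add]
    have h2 : Complex.exp ((k : ℂ) * (2 * Real.pi * I)) = 1 := by
      exact_mod_cast Complex.exp_nat_mul_two_pi_mul_I k
    rw [← mul_one (Complex.exp (2 * I * (ord n * (Real.log (ord n) - Real.log c)) + _)), ← h2, ← Complex.exp_add]
    congr 1
    push_cast
    field_simp
    ring
  rw [h1, ← mul_sub_one, norm_mul, hn1, one_mul]
  have h3 := Real.norm_exp_I_mul_ofReal_sub_one_le (x := 4 * Real.pi * (dc c n - k / 2))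
  rw [mul_comm I] at h3
  refine h3.trans ?_
  rw [Real.norm_eq_abs, abs_mul, abs_of_pos (by positivity)]
  gcongr

/-- a window without bad spacings is coherent -/
theorem coh_of_near {c δ : ℝ} (hc : 0 < c) (hδ : 0 < δ) :
    ∃ X0 : ℝ, 3 ≤ X0 ∧ ∀ X : ℝ, X0 ≤ X → ∀ T ∈ Icc X (2 * X),
      (∀ n : ℕ, 1 ≤ n → |ord n - T| ≤ ll X → ¬ Far c (X ^ (-δ)) n) → Coh c (δ / 2) (1 / 2) X T := by
  obtain ⟨X1, hX1, h1⟩ := pow_log_small (16 * Real.pi) (δ / 2) (by positivity)
  obtain ⟨X2, hX2, h2⟩ := ll_le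
  obtain ⟨X3, hX3, h3⟩ := ev_log (3 + |Real.log c|)
  obtain ⟨X4, hX4, h4⟩ := pow_log_small 4 δ hδ
  refine ⟨max (max X1 X2) (max X3 X4), by simp [hX1], fun X hX T hT hbad => ?_⟩
  simp only [max_le_iff] at hX
  obtain ⟨⟨hXa, hXb⟩, hXc, hXd⟩ := hX
  have hX3' : 3 ≤ X := hX1.trans hXa
  have hX0 : 0 < X := by linarith
  have h1 := h1 X hXa
  have h2 := h2 X hXb
  have h3 := h3 X hXc
  have h4 := h4 X hXd
  have hl1 := log_ge_one hX3'
  set l := Real.log X with hl
  have hlp : 0 < l := by linarith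
  have hllX : ll X = l ^ 4 := rfl
  have hpi := Real.pi_pos
  have hsmall : X ^ (-δ) ≤ 1 / 4 := by
    have h5 : 1 ≤ l ^ 5 := one_le_pow₀ hl1
    have h6 : 0 < X ^ (-δ) := by positivity
    nlinarith
  -- the gaps
  have hgap : ∀ n : ℕ, 1 ≤ n → |ord n - T| ≤ ll X → |ord (n + 1) - T| ≤ ll X →
      1 / 2 / l ≤ ord (n + 1) - ord n := by
    intro n hn h5 h6
    have h7 := hbad n hn h5
    unfold Far at h7
    push Not at h7
    obtain ⟨k, hk1, hk2⟩ := h7
    have hk1' : (1 : ℝ) ≤ k := by exact_mod_cast hk1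
    have h8 : 1 / 4 ≤ dc c n := by
      have := (abs_lt.1 hk2).1
      linarith
    have h9 := dc_gap hc hn
    have hmono := SG.ord_mono hn (Nat.le_succ n)
    have hb := SG.ord_pos (show 1 ≤ n + 1 by omega)
    have h10 : Real.log (ord (n + 1)) - Real.log c + 1 ≤ 2 * l := by
      have h11 : ord (n + 1) ≤ 3 * X := by
        have := (abs_le.1 h6).2
        linarith [hT.2]
      have h12 : Real.log (ord (n + 1)) ≤ Real.log 3 + l := by
        rw [hl, ← Real.log_mul (by norm_num) hX0.ne']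
        exact Real.log_le_log hb h11
      have h13 : Real.log 3 ≤ 2 := by
        rw [Real.log_le_iff_le_exp (by norm_num)]
        have := Real.add_one_le_exp (2 : ℝ)
        linarith
      have h14 := neg_abs_le (Real.log c)
      linarith
    have h15 : (ord (n + 1) - ord n) * (Real.log (ord (n + 1)) - Real.log c + 1) ≤ (ord (n + 1) - ord n) * (2 * l) := by
      apply mul_le_mul_of_nonneg_left h10
      simpa using hmono
    rw [div_div, div_le_iff₀ (by positivity)]
    nlinarith [Real.pi_gt_three]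
  have hwin : ∀ t : ℝ, |t - T| ≤ ll X → 0 < t := by
    intro t ht
    have := (abs_le.1 ht).1
    linarith [hT.1]
  have hbetween : ∀ a t b : ℝ, |a - T| ≤ ll X → |b - T| ≤ ll X → a ≤ t → t ≤ b → |t - T| ≤ ll X := by
    intro a t b ha hb h5 h6
    rw [abs_le] at *
    constructor <;> linarith [ha.1, hb.2]
  refine ⟨?_, ?_, ?_⟩
  · -- simple zeros
    intro ρ h0 hre hw hder
    have him := hwin _ hw
    have h5 := SG.zmult_two him h0 hder
    obtain ⟨n, hn, h6, h7⟩ := SG.consecutive_of_jump him (by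
      intro t ht
      have := SG.jump_one h0 (by rw [hre]; norm_num) (by rw [hre]; norm_num) him t ht
      omega)
    have hmono := SG.ord_mono hn (Nat.le_succ n)
    have hmono' : ord n ≤ ord (n + 1) := by simpa using hmono
    have e1 : ord n = ρ.im := le_antisymm (hmono'.trans h7) h6
    have e2 : ord (n + 1) = ρ.im := le_antisymm h7 (h6.trans hmono')
    have := hgap n hn (by rw [e1]; exact hw) (by rw [e2]; exact hw)
    rw [e1, e2, sub_self] at this
    have : 0 < 1 / 2 / l := by positivity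
    linarith
  · -- separation
    have key : ∀ ρ ρ' : ℂ, riemannZeta ρ = 0 → ρ.re = 1 / 2 → |ρ.im - T| ≤ ll X → riemannZeta ρ' = 0 →
        ρ'.re = 1 / 2 → |ρ'.im - T| ≤ ll X → ρ.im < ρ'.im → 1 / 2 / l ≤ ρ'.im - ρ.im := by
      intro ρ ρ' a1 a2 a3 b1 b2 b3 hlt
      obtain ⟨n, hn, h6, h7⟩ := SG.consecutive_of_lt a1 (by rw [a2]; norm_num) (by rw [a2]; norm_num)
        (hwin _ a3) b1 (by rw [b2]; norm_num) (by rw [b2]; norm_num) hlt
      have hmono := SG.ord_mono hn (Nat.le_succ n)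
      have hmono' : ord n ≤ ord (n + 1) := by simpa using hmono
      have := hgap n hn (hbetween _ _ _ a3 b3 h6 (hmono'.trans h7)) (hbetween _ _ _ a3 b3 (h6.trans hmono') h7)
      linarith
    intro ρ ρ' a1 a2 a3 b1 b2 b3 hne
    have himne : ρ.im ≠ ρ'.im := fun h => hne (Complex.ext (by rw [a2, b2]) h)
    rcases lt_or_gt_of_ne himne with h | h
    · have := key ρ ρ' a1 a2 a3 b1 b2 b3 h
      rw [abs_sub_comm]
      exact this.trans (le_abs_self _)
    · have := key ρ' ρ b1 b2 b3 a1 a2 a3 h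
      exact this.trans (le_abs_self _)
  · -- the phases
    have hord : ∀ ρ : ℂ, riemannZeta ρ = 0 → ρ.re = 1 / 2 → |ρ.im - T| ≤ ll X →
        ∃ n : ℕ, 1 ≤ n ∧ ord n = ρ.im := by
      intro ρ a1 a2 a3
      have him := hwin _ a3
      have hρ : ρ = 1 / 2 + I * (ρ.im : ℂ) := by
        apply Complex.ext
        · simp [a2]
        · simp
      have h0 : riemannZeta (1 / 2 + I * (ρ.im : ℂ)) = 0 := by rw [← hρ]; exact a1
      have hm1 := SG.zmult_pos (s := 1 / 2 + I * (ρ.im : ℂ)) (by rw [← hρ]; exact him) h0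
      have hm2 := LG.CU.mult_le_NZ him h0
      exact ⟨NZ ρ.im, by omega, LG.CU.ord_eq_of him h0 (by omega) le_rfl (by omega)⟩
    -- chains
    have hchain : ∀ m n : ℕ, 1 ≤ n → |ord n - T| ≤ ll X → |ord (n + m) - T| ≤ ll X →
        (m : ℝ) * (1 / 2 / l) ≤ ord (n + m) - ord n ∧
        ‖ph c (ord (n + m)) - ph c (ord n)‖ ≤ 4 * Real.pi * X ^ (-δ) * m := by
      intro m
      induction m with
      | zero => intro n _ _ _; simp
      | succ m ih =>
        intro n hn h5 h6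
        have m1 := SG.ord_mono hn (show n ≤ n + m by omega)
        have m2 := SG.ord_mono (show 1 ≤ n + m by omega) (show n + m ≤ n + m + 1 by omega)
        rw [← add_assoc] at h6 ⊢
        have h7 : |ord (n + m) - T| ≤ ll X := hbetween _ _ _ h5 h6 m1 m2
        obtain ⟨h8, h9⟩ := ih n hn h5 h7
        have h10 := hgap (n + m) (by omega) h7 h6
        have h11 := hbad (n + m) (by omega) h7
        unfold Far at h11
        push Not at h11
        obtain ⟨k, hk1, hk2⟩ := h11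
        have h12 := ph_step hc (show 1 ≤ n + m by omega) hk2.le
        constructor
        · push_cast
          linarith
        · calc ‖ph c (ord (n + m + 1)) - ph c (ord n)‖ =
              ‖(ph c (ord (n + m + 1)) - ph c (ord (n + m))) + (ph c (ord (n + m)) - ph c (ord n))‖ := by
                congr 1; ring
            _ ≤ 4 * Real.pi * X ^ (-δ) + 4 * Real.pi * X ^ (-δ) * m := (norm_add_le _ _).trans (add_le_add h12 h9)
            _ = _ := by push_cast; ring
    have hfin : ∀ n m : ℕ, 1 ≤ n → n ≤ m → |ord n - T| ≤ ll X → |ord m - T| ≤ ll X →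
        ‖ph c (ord m) - ph c (ord n)‖ ≤ X ^ (-(δ / 2)) := by
      intro n m hn hnm h5 h6
      obtain ⟨j, rfl⟩ := Nat.exists_eq_add_of_le hnm
      obtain ⟨h7, h8⟩ := hchain j n hn h5 h6
      have h9 : ord (n + j) - ord n ≤ 2 * ll X := by
        have := (abs_le.1 h5).1
        have := (abs_le.1 h6).2
        linarith
      have h10 : (j : ℝ) ≤ 4 * l ^ 5 := by
        have := h7.trans h9
        rw [div_div, mul_one_div, div_le_iff₀ (by positivity), hllX] at this
        nlinarith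
      refine h8.trans ?_
      have h11 : X ^ (-δ) = X ^ (-(δ / 2)) * X ^ (-(δ / 2)) := by
        rw [← Real.rpow_add hX0]; congr 1; ring
      have h12 : 0 < X ^ (-(δ / 2)) := by positivity
      calc 4 * Real.pi * X ^ (-δ) * j ≤ 4 * Real.pi * X ^ (-δ) * (4 * l ^ 5) := by gcongr
        _ = (16 * Real.pi * l ^ 5 * X ^ (-(δ / 2))) * X ^ (-(δ / 2)) := by rw [h11]; ring
        _ ≤ 1 * X ^ (-(δ / 2)) := by gcongr
        _ = _ := one_mul _
    by_cases hex : ∃ ρ : ℂ, riemannZeta ρ = 0 ∧ ρ.re = 1 / 2 ∧ |ρ.im - T| ≤ ll X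
    · obtain ⟨ρ, a1, a2, a3⟩ := hex
      obtain ⟨n, hn, en⟩ := hord ρ a1 a2 a3
      refine ⟨ph c ρ.im, ?_, fun ρ' b1 b2 b3 => ?_⟩
      · unfold ph
        have : (2 * I * (ρ.im * (Real.log ρ.im - Real.log c)) : ℂ) =
            ((2 * (ρ.im * (Real.log ρ.im - Real.log c)) : ℝ) : ℂ) * I := by push_cast; ring
        rw [this, Complex.norm_exp_ofReal_mul_I]
      · obtain ⟨m, hm, em⟩ := hord ρ' b1 b2 b3
        rw [← en, ← em]
        rw [← en] at a3
        rw [← em] at b3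
        rcases le_total n m with h | h
        · exact hfin n m hn h a3 b3
        · rw [norm_sub_rev]
          exact hfin m n hm h b3 a3
    · push Not at hex
      exact ⟨1, by simp, fun ρ' b1 b2 b3 => absurd b3 (not_le.2 (hex ρ' b1 b2))⟩

lemma ord_fin (Y : ℝ) : {n : ℕ | 1 ≤ n ∧ ord n ≤ Y}.Finite := by
  apply (Set.finite_Icc 1 (NZ Y)).subset
  rintro n ⟨h1, h2⟩
  exact ⟨h1, (SG.ord_le_iff h1 Y).1 h2⟩

/-- almost all windows contain a bad spacing -/
theorem windows (RH : RiemannHypothesis) {c δ ε : ℝ} (hc : 0 < c) (hδ : 0 < δ) (hε : 0 < ε) :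
    ∃ X0 : ℝ, 3 ≤ X0 ∧ ∀ X : ℝ, X0 ≤ X →
      volume.real {T : ℝ | T ∈ Icc X (2 * X) ∧ ∀ n : ℕ, 1 ≤ n → |ord n - T| ≤ ll X → ¬ Far c (X ^ (-δ)) n} ≤
        ε * X := by
  wlog hδ1 : δ ≤ 1 with H
  · push Not at hδ1
    obtain ⟨X0, h3, h⟩ := H RH hc one_pos hε le_rfl
    refine ⟨X0, h3, fun X hX => le_trans ?_ (h X hX)⟩
    have hX3 := h3.trans hX
    apply measureReal_mono
    · rintro T ⟨h1, h2⟩
      refine ⟨h1, fun n hn hw hF => h2 n hn hw fun k hk => le_trans ?_ (hF k hk)⟩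
      exact Real.rpow_le_rpow_of_exponent_le (by linarith) (by linarith)
    · exact ne_top_of_le_ne_top (by simp) (measure_mono (show _ ⊆ Icc X (2 * X) from fun T hT => hT.1))
  obtain ⟨X1, hX1, h1⟩ := coh_of_near hc hδ
  obtain ⟨X2, hX2, h2⟩ := coh_rare RH (δ := δ / 2) hc (by positivity) (by linarith) (c1 := 1 / 2) (by norm_num) hε
  refine ⟨max X1 X2, hX1.trans (le_max_left _ _), fun X hX => ?_⟩
  have hXa := (le_max_left _ _).trans hX
  have hXb := (le_max_right _ _).trans hX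
  set B : Set ℕ := {n : ℕ | (1 ≤ n ∧ ord n ≤ 2 * X + ll X) ∧ Far c (X ^ (-δ)) n} with hB
  have hBf : B.Finite := (ord_fin (2 * X + ll X)).subset (fun n hn => hn.1)
  set G : Set ℝ := {T : ℝ | T ∈ Icc X (2 * X) ∧ ∀ n : ℕ, 1 ≤ n → |ord n - T| ≤ ll X → ¬ Far c (X ^ (-δ)) n} with hG
  have hGe : G = Icc X (2 * X) \ ⋃ n ∈ B, Icc (ord n - ll X) (ord n + ll X) := by
    ext T
    simp only [hG, hB, Set.mem_ofPred_eq, Set.mem_sdiff, Set.mem_iUnion, not_exists]
    constructor
    · rintro ⟨h3, h4⟩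
      refine ⟨h3, fun n hn h5 => ?_⟩
      exact h4 n hn.1.1 (abs_le.2 ⟨by linarith [h5.2], by linarith [h5.1]⟩) hn.2
    · rintro ⟨h3, h4⟩
      refine ⟨h3, fun n hn h5 h6 => ?_⟩
      have h7 := abs_le.1 h5
      exact h4 n ⟨⟨hn, by linarith [h3.2, h7.2]⟩, h6⟩ ⟨by linarith [h7.2], by linarith [h7.1]⟩
  have hGm : MeasurableSet G := by
    rw [hGe]
    exact measurableSet_Icc.diff (hBf.measurableSet_biUnion fun _ _ => measurableSet_Icc)
  exact h2 X hXb G hGm (fun T hT => hT.1) (fun T hT => h1 X hXa T hT.1 hT.2)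

/-- many bad spacings at height `X` -/
theorem count_X (RH : RiemannHypothesis) {c δ : ℝ} (hc : 0 < c) (hδ : 0 < δ) :
    ∃ X0 : ℝ, 3 ≤ X0 ∧ ∀ X : ℝ, X0 ≤ X →
      X / (4 * ll X) ≤ ({n : ℕ | 1 ≤ n ∧ ord n ≤ 3 * X ∧ Far c (X ^ (-δ)) n}.ncard : ℝ) := by
  obtain ⟨X1, hX1, h1⟩ := windows RH hc hδ (ε := 1 / 4) (by norm_num)
  obtain ⟨X2, hX2, h2⟩ := ll_le
  refine ⟨max X1 X2, hX1.trans (le_max_left _ _), fun X hX => ?_⟩
  have hXa := (le_max_left _ _).trans hX
  have hXb := (le_max_right _ _).trans hX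
  have hX3 := hX1.trans hXa
  have hX0 : 0 < X := by linarith
  have h1 := h1 X hXa
  have h2 := h2 X hXb
  have hl1 := log_ge_one hX3
  have hllp : 0 < ll X := by unfold ll; positivity
  set B : Set ℕ := {n : ℕ | 1 ≤ n ∧ ord n ≤ 3 * X ∧ Far c (X ^ (-δ)) n} with hB
  have hBf : B.Finite := (ord_fin (3 * X)).subset (fun n hn => ⟨hn.1, hn.2.1⟩)
  set G : Set ℝ := {T : ℝ | T ∈ Icc X (2 * X) ∧ ∀ n : ℕ, 1 ≤ n → |ord n - T| ≤ ll X → ¬ Far c (X ^ (-δ)) n} with hG
  have hcov : Icc X (2 * X) ⊆ G ∪ ⋃ n ∈ hBf.toFinset, Icc (ord n - ll X) (ord n + ll X) := by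
    intro T hT
    by_cases hTG : T ∈ G
    · exact Or.inl hTG
    · right
      have h3 : ∃ n : ℕ, 1 ≤ n ∧ |ord n - T| ≤ ll X ∧ Far c (X ^ (-δ)) n := by
        by_contra hcon
        push Not at hcon
        exact hTG ⟨hT, hcon⟩
      obtain ⟨n, hn, h4, h5⟩ := h3
      have h6 := abs_le.1 h4
      simp only [Set.mem_iUnion]
      refine ⟨n, ?_, by linarith [h6.2], by linarith [h6.1]⟩
      rw [Set.Finite.mem_toFinset]
      exact ⟨hn, by linarith [hT.2, h6.2], h5⟩
  have hGfin : volume G ≠ ⊤ := ne_top_of_le_ne_top (by simp) (measure_mono (show G ⊆ Icc X (2 * X) from fun T hT => hT.1))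
  have hUfin : volume (⋃ n ∈ hBf.toFinset, Icc (ord n - ll X) (ord n + ll X)) ≠ ⊤ := by
    apply ne_top_of_le_ne_top _ (measure_biUnion_finset_le _ _)
    rw [ENNReal.sum_ne_top]
    intro n _
    simp
  have h3 : X ≤ volume.real G + hBf.toFinset.card * (2 * ll X) := by
    calc X = volume.real (Icc X (2 * X)) := by
          rw [Real.volume_real_Icc_of_le (by linarith)]; ring
      _ ≤ volume.real (G ∪ ⋃ n ∈ hBf.toFinset, Icc (ord n - ll X) (ord n + ll X)) :=
          measureReal_mono hcov (measure_union_ne_top hGfin hUfin)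
      _ ≤ volume.real G + volume.real (⋃ n ∈ hBf.toFinset, Icc (ord n - ll X) (ord n + ll X)) :=
          measureReal_union_le _ _
      _ ≤ volume.real G + ∑ n ∈ hBf.toFinset, volume.real (Icc (ord n - ll X) (ord n + ll X)) := by
          gcongr
          exact measureReal_biUnion_finset_le _ _
      _ = volume.real G + hBf.toFinset.card * (2 * ll X) := by
          congr 1
          rw [← nsmul_eq_mul, ← Finset.sum_const]
          apply Finset.sum_congr rfl
          intro n _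
          rw [Real.volume_real_Icc_of_le (by linarith)]; ring
  rw [Set.ncard_eq_toFinset_card B hBf, div_le_iff₀ (by positivity)]
  nlinarith

/-- many bad spacings among the first `N` -/
theorem count_N (RH : RiemannHypothesis) {c δ : ℝ} (hc : 0 < c) (hδ : 0 < δ) :
    ∀ᶠ N : ℕ in atTop, (N : ℝ) / Real.log N ^ 6 ≤
      ({n : ℕ | 1 ≤ n ∧ n ≤ N ∧ Far c ((N : ℝ) ^ (-δ)) n}.ncard : ℝ) := by
  obtain ⟨X0, hX0, h0⟩ := count_X RH hc hδ
  obtain ⟨C, hC, hup⟩ := H177.Lat.NZ_three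
  obtain ⟨c0, T1, hc0, hT1, hlow⟩ := LG.GapAux.NZ_low
  have hcast : Tendsto (fun N : ℕ => (N : ℝ)) atTop atTop := tendsto_natCast_atTop_atTop
  have hlogN : Tendsto (fun N : ℕ => Real.log N) atTop atTop := Real.tendsto_log_atTop.comp hcast
  filter_upwards [SG.ord_tendsto.eventually_ge_atTop (4 * X0 + 100), hlogN.eventually_ge_atTop (32 * C + 1 / c0 + 1),
    hcast.eventually_ge_atTop (T1 + 1), eventually_ge_atTop 3] with N h1 h2 h3 h4
  have hN1 : 1 ≤ N := by omega
  have hNr : (3 : ℝ) ≤ N := by exact_mod_cast h4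
  have hNp : (0 : ℝ) < N := by linarith
  set X : ℝ := ord N / 4 with hX
  have hXX0 : X0 ≤ X := by rw [hX]; linarith
  have hX25 : 25 ≤ X := by rw [hX]; linarith
  have hXp : 0 < X := by linarith
  have h5 := h0 X hXX0
  have hq : 0 < 1 / c0 := by positivity
  set L := Real.log N with hL
  have hL1 : 1 ≤ L := by linarith
  -- `X ≤ N`
  have hXN : X ≤ N := by
    have h6 := hlow (2 * N) (by linarith)
    have h7 : (N : ℝ) ≤ c0 * (2 * N * Real.log (2 * N)) := by
      have h8 : L ≤ Real.log (2 * N) := Real.log_le_log hNp (by linarith)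
      have h9 : 1 ≤ c0 * L := by
        have : 1 / c0 ≤ L := by linarith
        rw [div_le_iff₀ hc0] at this
        linarith
      have h10 : 1 ≤ c0 * Real.log (2 * N) := h9.trans (by gcongr)
      nlinarith
    have h11 : (N : ℝ) ≤ NZ (2 * (2 * N)) := h7.trans h6
    have h12 : N ≤ NZ (2 * (2 * N)) := by exact_mod_cast h11
    have h13 := (SG.ord_le_iff hN1 _).2 h12
    rw [hX]
    linarith
  have hlogX : Real.log X ≤ L := Real.log_le_log hXp hXN
  have hlX1 : 1 ≤ Real.log X := log_ge_one (by linarith)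
  -- `N ≤ C' X log X`
  have hNX : (N : ℝ) ≤ 4 * C * (X * L) := by
    have h6 := hup (4 * X / 3) (by linarith)
    have h7 : N ≤ NZ (3 * (4 * X / 3)) := by
      have := SG.le_NZ_ord hN1
      have e : 3 * (4 * X / 3) = ord N := by rw [hX]; ring
      rw [e]; exact this
    have h8 : (N : ℝ) ≤ NZ (3 * (4 * X / 3)) := by exact_mod_cast h7
    have h9 : Real.log (4 * X / 3) ≤ 2 * L := by
      have h10 : Real.log (4 * X / 3) ≤ Real.log (X * X) := by
        apply Real.log_le_log (by positivity)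
        nlinarith
      rw [Real.log_mul hXp.ne' hXp.ne'] at h10
      linarith
    calc (N : ℝ) ≤ C * (4 * X / 3 * Real.log (4 * X / 3)) := h8.trans h6
      _ ≤ C * (4 * X / 3 * (2 * L)) := by gcongr
      _ ≤ 4 * C * (X * L) := by
          have : 0 ≤ C * (X * L) := by positivity
          nlinarith
  have hfin : {n : ℕ | 1 ≤ n ∧ n ≤ N ∧ Far c ((N : ℝ) ^ (-δ)) n}.Finite :=
    (Set.finite_Icc 1 N).subset (fun n hn => ⟨hn.1, hn.2.1⟩)
  have hsub : {n : ℕ | 1 ≤ n ∧ ord n ≤ 3 * X ∧ Far c (X ^ (-δ)) n} ⊆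
      {n : ℕ | 1 ≤ n ∧ n ≤ N ∧ Far c ((N : ℝ) ^ (-δ)) n} := by
    rintro n ⟨h6, h7, h8⟩
    refine ⟨h6, ?_, fun k hk => le_trans ?_ (h8 k hk)⟩
    · by_contra hcon
      push Not at hcon
      have := SG.ord_mono hN1 hcon.le
      rw [hX] at h7
      linarith
    · rw [Real.rpow_neg hNp.le, Real.rpow_neg hXp.le]
      gcongr
  have h14 : (({n : ℕ | 1 ≤ n ∧ ord n ≤ 3 * X ∧ Far c (X ^ (-δ)) n}.ncard : ℕ) : ℝ) ≤
      ({n : ℕ | 1 ≤ n ∧ n ≤ N ∧ Far c ((N : ℝ) ^ (-δ)) n}.ncard : ℝ) := by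
    exact_mod_cast Set.ncard_le_ncard hsub hfin
  refine le_trans ?_ (h5.trans h14)
  have hll : ll X ≤ L ^ 4 := by unfold ll; gcongr
  have hllp : 0 < ll X := by unfold ll; positivity
  rw [div_le_div_iff₀ (by positivity) (by positivity)]
  calc (N : ℝ) * (4 * ll X) ≤ 4 * C * (X * L) * (4 * L ^ 4) := by gcongr
    _ = X * (16 * C * L ^ 5) := by ring
    _ ≤ X * (L * L ^ 5) := by
        gcongr
        linarith
    _ = X * L ^ 6 := by ring

end Pool.Agent.Helper44K9.AR
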