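import Pool.Agent.Helper44K9.AR.Ser

/-! The integral of the twisted sum through the power series of the Moebius function. -/

set_option autoImplicit false

namespace Pool.Agent.Helper44K9.AR

open Complex Filter Topology Set MeasureTheory

/-- the point `i x e^{-u-iη}` -/
noncomputable def om (x η u : ℝ) : ℂ := I * x * Complex.exp (-(u + I * η))

/-- the power series of the Moebius function -/
noncomputable def P1 (ω : ℂ) : ℂ := ∑' n : ℕ, mu n * Complex.exp (-(n * ω))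

lemma om_re (x η u : ℝ) : (om x η u).re = x * Real.exp (-u) * Real.sin η := by
  unfold om
  have e1 : Complex.exp (-(u + I * η)) = (Real.exp (-u) : ℝ) * ((Real.cos η : ℝ) - (Real.sin η : ℝ) * I) := by
    have : (-(u + I * η) : ℂ) = ((-u : ℝ) : ℂ) + ((-η : ℝ) : ℂ) * I := by push_cast; ring
    rw [this, Complex.exp_add, Complex.exp_mul_I, ← Complex.ofReal_exp, ← Complex.ofReal_cos,
      ← Complex.ofReal_sin, Real.cos_neg, Real.sin_neg]
    push_cast
    ring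
  rw [e1]
  have e2 : I * (x : ℂ) * ((Real.exp (-u) : ℝ) * ((Real.cos η : ℝ) - (Real.sin η : ℝ) * I)) =
      ((x * Real.exp (-u) * Real.sin η : ℝ) : ℂ) + ((x * Real.exp (-u) * Real.cos η : ℝ) : ℂ) * I := by
    push_cast
    linear_combination (-(x : ℂ) * Complex.exp (-(u : ℂ)) * Complex.sin (η : ℂ)) * Complex.I_sq
  rw [e2, Complex.add_re, Complex.ofReal_re, Complex.re_ofReal_mul, Complex.I_re, mul_zero, add_zero]

lemma om_inv {x : ℝ} (hx : 0 < x) (η u : ℝ) :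
    1 / om x η u = Complex.exp ((u + I * η) - (Real.log x + I * (Real.pi / 2))) := by
  have hxc : (x : ℂ) ≠ 0 := by exact_mod_cast hx.ne'
  have h1 : om x η u = Complex.exp (Real.log x + I * (Real.pi / 2) - (u + I * η)) := by
    unfold om
    rw [sub_eq_add_neg, Complex.exp_add, Complex.exp_add, ← Complex.ofReal_exp, Real.exp_log hx,
      mul_comm I ((Real.pi : ℂ) / 2), Complex.exp_pi_div_two_mul_I]
    ring
  rw [h1, one_div, ← Complex.exp_neg]
  congr 1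
  ring

lemma om_log {x η : ℝ} (hx : 0 < x) (h0 : 0 < η) (h1 : η ≤ 1) (u : ℝ) :
    Complex.log (1 / om x η u) = (u + I * η) - (Real.log x + I * (Real.pi / 2)) := by
  rw [om_inv hx]
  have him : ((u + I * η) - (Real.log x + I * (Real.pi / 2)) : ℂ).im = η - Real.pi / 2 := by
    have : ((u + I * η) - (Real.log x + I * (Real.pi / 2)) : ℂ) =
        ((u - Real.log x : ℝ) : ℂ) + ((η - Real.pi / 2 : ℝ) : ℂ) * I := by push_cast; ring
    rw [this]
    simp
  apply Complex.log_exp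
  · rw [him]; linarith [Real.pi_pos]
  · rw [him]; linarith [Real.pi_gt_three]

lemma om_cpow {x η : ℝ} (hx : 0 < x) (h0 : 0 < η) (h1 : η ≤ 1) (u : ℝ) (s : ℂ) :
    (1 / om x η u) ^ s = G0 x s * Complex.exp ((u + I * η) * s) := by
  have hne : 1 / om x η u ≠ 0 := by rw [om_inv hx]; exact Complex.exp_ne_zero _
  rw [Complex.cpow_def_of_ne_zero hne, om_log hx h0 h1]
  unfold G0
  rw [← Complex.exp_add]
  congr 1
  ring

lemma line_c (y : ℝ) : (⟨3 / 2, y⟩ : ℂ) = ((3 / 2 : ℝ) : ℂ) + y * I := by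
  apply Complex.ext <;> simp

lemma vint' {ω : ℂ} (hω : 0 < ω.re) :
    Integrable (fun y : ℝ => (1 / ω) ^ (⟨3 / 2, y⟩ : ℂ) * Gamma (⟨3 / 2, y⟩ : ℂ)) := by
  have := Pool.Agent.H402R2.T4b.vint hω (c := 3 / 2) (by norm_num)
  simp only [← line_c] at this
  exact this

lemma cahen_n {ω : ℂ} (hω : 0 < ω.re) (n : ℕ) :
    ∫ y : ℝ, (1 / ω) ^ (⟨3 / 2, y⟩ : ℂ) * Gamma (⟨3 / 2, y⟩ : ℂ) * mt y n =
      2 * Real.pi * (mu n * Complex.exp (-(n * ω))) := by
  rcases eq_or_ne n 0 with rfl | hn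
  · simp only [mt_zero, mul_zero, integral_zero, mu_zero, zero_mul]
  have hn0 : (0 : ℝ) < n := by exact_mod_cast Nat.pos_of_ne_zero hn
  have hnc : (n : ℂ) ≠ 0 := by exact_mod_cast hn
  have hω0 : ω ≠ 0 := by rintro rfl; simp at hω
  have hre : 0 < ((n : ℂ) * ω).re := by
    rw [show (n : ℂ) = ((n : ℝ) : ℂ) by push_cast; rfl, Complex.re_ofReal_mul]
    positivity
  have h := Pool.Agent.H402R2.T4b.cahen hre (c := 3 / 2) (by norm_num)
  simp only [← line_c] at h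
  have e : ∀ y : ℝ, (1 / ω) ^ (⟨3 / 2, y⟩ : ℂ) * Gamma (⟨3 / 2, y⟩ : ℂ) * mt y n =
      mu n * ((1 / ((n : ℂ) * ω)) ^ (⟨3 / 2, y⟩ : ℂ) * Gamma (⟨3 / 2, y⟩ : ℂ)) := by
    intro y
    have h1 : 1 / ((n : ℂ) * ω) = (((n : ℝ)⁻¹ : ℝ) : ℂ) * (1 / ω) := by
      push_cast
      field_simp
    have h2 : (1 / ω) ≠ 0 := one_div_ne_zero hω0
    have h3 : 1 / ((n : ℂ) * ω) ≠ 0 := one_div_ne_zero (mul_ne_zero hnc hω0)
    rw [Complex.cpow_def_of_ne_zero h2, Complex.cpow_def_of_ne_zero h3, h1,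
      Complex.log_ofReal_mul (by positivity) h2, Real.log_inv, add_mul, Complex.exp_add]
    unfold mt
    have h4 : Complex.exp (((-Real.log n : ℝ) : ℂ) * ⟨3 / 2, y⟩) =
        Complex.exp (-((⟨3 / 2, y⟩ : ℂ) * Real.log n)) := by
      congr 1
      push_cast
      ring
    rw [h4]
    ring
  simp only [e]
  rw [integral_const_mul, h]
  ring

lemma P1_eq {ω : ℂ} (hω : 0 < ω.re) :
    ∫ y : ℝ, (1 / ω) ^ (⟨3 / 2, y⟩ : ℂ) * Gamma (⟨3 / 2, y⟩ : ℂ) * (riemannZeta (⟨3 / 2, y⟩ : ℂ))⁻¹ =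
      2 * Real.pi * P1 ω := by
  have h := (int_zeta _ (vint' hω)).tsum_eq
  rw [← h]
  simp only [cahen_n hω]
  rw [tsum_mul_left]
  rfl

/-- the kernel -/
noncomputable def kT (T X η u : ℝ) : ℂ := (hh X / (2 * √Real.pi) : ℝ) *
  Complex.exp (-(hh X ^ 2 * (u + I * η) ^ 2 / 4) - (u + I * η) * (1 / 2 + I * T))

lemma Wt_eq {X : ℝ} (hX : 3 ≤ X) (T η : ℝ) (s : ℂ) :
    Integrable (fun u : ℝ => kT T X η u * Complex.exp ((u + I * η) * s)) ∧
    ∫ u : ℝ, kT T X η u * Complex.exp ((u + I * η) * s) = Wt T X s := by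
  have hh1 := hh_pos hX
  have hh0 : 0 < hh X := by linarith
  have hhc : (hh X : ℂ) ≠ 0 := by exact_mod_cast hh0.ne'
  have e1 : ∀ u : ℝ, kT T X η u * Complex.exp ((u + I * η) * s) = (hh X / (2 * √Real.pi) : ℝ) *
      Complex.exp ((-(hh X ^ 2 / 4) : ℂ) * u ^ 2 + (s - 1 / 2 - I * T - I * hh X ^ 2 * η / 2) * u +
        (hh X ^ 2 * η ^ 2 / 4 + I * η * (s - 1 / 2 - I * T))) := by
    intro u
    unfold kT
    rw [mul_assoc, ← Complex.exp_add]
    congr 2
    ring_nf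
    rw [Complex.I_sq]
    ring
  have hb : (-(hh X ^ 2 / 4) : ℂ).re < 0 := by
    have : (-(hh X ^ 2 / 4) : ℂ) = ((-(hh X ^ 2 / 4) : ℝ) : ℂ) := by push_cast; ring
    rw [this, Complex.ofReal_re]
    have : 0 < hh X ^ 2 / 4 := by positivity
    linarith
  simp only [e1]
  constructor
  · exact (integrable_cexp_quadratic' hb _ _).const_mul _
  rw [integral_const_mul, integral_cexp_quadratic hb]
  have e2 : ((Real.pi : ℂ) / -(-((hh X : ℂ) ^ 2 / 4))) ^ (1 / 2 : ℂ) = ((2 * √Real.pi / hh X : ℝ) : ℂ) := by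
    have e3 : (Real.pi : ℂ) / -(-((hh X : ℂ) ^ 2 / 4)) = (((√Real.pi * (2 / hh X)) ^ 2 : ℝ) : ℂ) := by
      rw [mul_pow, Real.sq_sqrt Real.pi_pos.le]
      push_cast
      field_simp
      ring
    rw [e3, show (1 / 2 : ℂ) = ((1 / 2 : ℝ) : ℂ) by push_cast; ring,
      ← Complex.ofReal_cpow (by positivity), ← Real.sqrt_eq_rpow, Real.sqrt_sq (by positivity)]
    congr 1
    ring
  rw [e2, ← mul_assoc, ← Complex.ofReal_mul]
  have e4 : hh X / (2 * √Real.pi) * (2 * √Real.pi / hh X) = 1 := by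
    have : √Real.pi ≠ 0 := by positivity
    field_simp
  rw [e4, Complex.ofReal_one, one_mul]
  unfold Wt
  congr 1
  field_simp
  ring_nf
  rw [Complex.I_sq]
  ring

lemma zinv_cont : Continuous (fun y : ℝ => (riemannZeta (⟨3 / 2, y⟩ : ℂ))⁻¹) := by
  obtain ⟨B', hB', hright⟩ := right_bound
  refine Continuous.inv₀ ?_ (fun y => (hright y).1)
  rw [continuous_iff_continuousAt]
  intro y
  have hne : (⟨3 / 2, y⟩ : ℂ) ≠ 1 := by
    intro h
    have := congrArg Complex.re h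
    norm_num at this
  refine ContinuousAt.comp (g := riemannZeta) (f := fun y : ℝ => (⟨3 / 2, y⟩ : ℂ))
    (differentiableAt_riemannZeta hne).continuousAt ?_
  exact line_cont.continuousAt

theorem S_int {x η X : ℝ} (hx : 0 < x) (h0 : 0 < η) (h1 : η ≤ 1) (hX : 3 ≤ X) (T : ℝ) :
    ∫ y : ℝ, G0 x (⟨3 / 2, y⟩ : ℂ) * Gamma (⟨3 / 2, y⟩ : ℂ) *
        Wt T X (⟨3 / 2, y⟩ : ℂ) * (riemannZeta ⟨3 / 2, y⟩)⁻¹ =
      2 * Real.pi * ∫ u : ℝ, kT T X η u * P1 (om x η u) := by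
  obtain ⟨B', hB', hright⟩ := right_bound
  have hsin : 0 < Real.sin η := Real.sin_pos_of_pos_of_lt_pi h0 (by linarith [Real.pi_gt_three])
  have hre : ∀ u : ℝ, 0 < (om x η u).re := by
    intro u
    rw [om_re]
    positivity
  set F : ℝ → ℝ → ℂ := fun y u => G0 x (⟨3 / 2, y⟩ : ℂ) * Gamma (⟨3 / 2, y⟩ : ℂ) *
    (riemannZeta ⟨3 / 2, y⟩)⁻¹ * (kT T X η u * Complex.exp ((u + I * η) * ⟨3 / 2, y⟩)) with hF
  have hkc : Continuous (kT T X η) := by
    unfold kT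
    fun_prop
  have hFc : Continuous (Function.uncurry F) := by
    have e1 : Continuous (fun p : ℝ × ℝ => G0 x (⟨3 / 2, p.1⟩ : ℂ)) :=
      (G0_diff x).continuous.comp (line_cont.comp continuous_fst)
    have e2 : Continuous (fun p : ℝ × ℝ => Gamma (⟨3 / 2, p.1⟩ : ℂ)) := Gam_line_cont.comp continuous_fst
    have e3 : Continuous (fun p : ℝ × ℝ => (riemannZeta (⟨3 / 2, p.1⟩ : ℂ))⁻¹) := zinv_cont.comp continuous_fst
    have e4 : Continuous (fun p : ℝ × ℝ => kT T X η p.2) := hkc.comp continuous_snd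
    have e5 : Continuous (fun p : ℝ × ℝ => (⟨3 / 2, p.1⟩ : ℂ)) := line_cont.comp continuous_fst
    have e6 : Continuous (fun p : ℝ × ℝ => Complex.exp (((p.2 : ℝ) + I * η) * (⟨3 / 2, p.1⟩ : ℂ))) := by
      apply Complex.continuous_exp.comp
      exact ((Complex.continuous_ofReal.comp continuous_snd).add continuous_const).mul e5
    exact ((e1.mul e2).mul e3).mul (e4.mul e6)
  have hA : Integrable (fun y : ℝ => G0 x (⟨3 / 2, y⟩ : ℂ) * Complex.exp (I * η * ⟨3 / 2, y⟩) *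
      Gamma (⟨3 / 2, y⟩ : ℂ)) := by
    have := vint' (hre 0)
    refine this.congr (Eventually.of_forall fun y => ?_)
    simp only
    rw [om_cpow hx h0 h1]
    congr 3
    push_cast
    ring
  have hB := (Wt_eq hX T η (3 / 2)).1
  have hI : Integrable (Function.uncurry F) (volume.prod volume) := by
    have hP := ((hA.norm.mul_const B').mul_prod hB.norm)
    refine hP.mono' hFc.aestronglyMeasurable (Eventually.of_forall fun p => ?_)
    obtain ⟨y, u⟩ := p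
    simp only [Function.uncurry, hF]
    have e1 : Complex.exp ((u + I * η) * (⟨3 / 2, y⟩ : ℂ)) = Complex.exp ((u + I * η) * (3 / 2 : ℂ)) *
        Complex.exp (I * η * ⟨3 / 2, y⟩) * Complex.exp ((u * y : ℝ) * I) * Complex.exp (-(I * η * (3 / 2))) := by
      rw [← Complex.exp_add, ← Complex.exp_add, ← Complex.exp_add]
      congr 1
      rw [line_c]
      push_cast
      ring
    have e2 : ‖Complex.exp (-(I * η * (3 / 2)))‖ = 1 := by
      have : (-(I * η * (3 / 2)) : ℂ) = ((-(η * (3 / 2)) : ℝ) : ℂ) * I := by push_cast; ring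
      rw [this, Complex.norm_exp_ofReal_mul_I]
    rw [e1]
    simp only [norm_mul]
    rw [e2, Complex.norm_exp_ofReal_mul_I]
    calc _ = ‖G0 x ⟨3 / 2, y⟩‖ * ‖Complex.exp (I * η * ⟨3 / 2, y⟩)‖ * ‖Gamma ⟨3 / 2, y⟩‖ *
          ‖(riemannZeta ⟨3 / 2, y⟩)⁻¹‖ * (‖kT T X η u‖ * ‖Complex.exp ((u + I * η) * (3 / 2 : ℂ))‖) := by ring
      _ ≤ _ := by
          gcongr
          exact (hright y).2
  have hL : ∫ y : ℝ, G0 x (⟨3 / 2, y⟩ : ℂ) * Gamma (⟨3 / 2, y⟩ : ℂ) *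
        Wt T X (⟨3 / 2, y⟩ : ℂ) * (riemannZeta ⟨3 / 2, y⟩)⁻¹ = ∫ y : ℝ, ∫ u : ℝ, F y u := by
    apply integral_congr_ae
    refine Eventually.of_forall fun y => ?_
    simp only [hF]
    rw [integral_const_mul, (Wt_eq hX T η _).2]
    ring
  rw [hL, integral_integral_swap hI, ← integral_const_mul]
  apply integral_congr_ae
  refine Eventually.of_forall fun u => ?_
  simp only [hF]
  have h3 : ∀ y : ℝ, G0 x (⟨3 / 2, y⟩ : ℂ) * Gamma (⟨3 / 2, y⟩ : ℂ) *
      (riemannZeta ⟨3 / 2, y⟩)⁻¹ * (kT T X η u * Complex.exp ((u + I * η) * ⟨3 / 2, y⟩)) =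
      kT T X η u * ((1 / om x η u) ^ (⟨3 / 2, y⟩ : ℂ) * Gamma (⟨3 / 2, y⟩ : ℂ) *
        (riemannZeta (⟨3 / 2, y⟩ : ℂ))⁻¹) := by
    intro y
    rw [om_cpow hx h0 h1]
    ring
  simp only [h3]
  rw [integral_const_mul, P1_eq (hre u)]
  ring

end Pool.Agent.Helper44K9.AR
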