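import Pool.Agent.H401R2.Stir

/-! Bounds for the Gamma function in the strip `-1/2 ≤ Re s ≤ 3/2` and the square of `Γ(1/2 + iγ)`. -/

set_option autoImplicit false

namespace Pool.Agent.Helper44K9.AR

open Complex Filter Topology Set
open Pool.Agent.H401R2 (sA stirling)

lemma arg_low {z : ℂ} (hz : 0 < z.re) (hv : 0 < z.im) : Real.pi / 2 - z.re / z.im ≤ arg z := by
  have hn : 0 < ‖z‖ := norm_pos_iff.2 (fun h => by rw [h] at hz; simp at hz)
  rw [Complex.arg_of_re_nonneg hz.le]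
  have hc0 : 0 < z.im / ‖z‖ := div_pos hv hn
  have h1 : Real.arccos (z.im / ‖z‖) ≤ Real.tan (Real.arccos (z.im / ‖z‖)) :=
    Real.le_tan (Real.arccos_nonneg _) (Real.arccos_lt_pi_div_two.2 hc0)
  rw [Real.tan_arccos] at h1
  have h2 : √(1 - (z.im / ‖z‖) ^ 2) / (z.im / ‖z‖) = z.re / z.im := by
    have e1 : 1 - (z.im / ‖z‖) ^ 2 = (z.re / ‖z‖) ^ 2 := by
      have := Complex.sq_norm_sub_sq_im z
      field_simp
      linarith
    rw [e1, Real.sqrt_sq (by positivity)]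
    field_simp
  rw [h2] at h1
  have h3 := Real.arcsin_eq_pi_div_two_sub_arccos (z.im / ‖z‖)
  linarith

lemma norm_sA_le {z : ℂ} (hz : 0 < z.re) (hv : 1 ≤ z.im) : ‖sA z‖ ≤ 4 := by
  have h := stirling hz hv
  have hpi := Real.pi_lt_d2
  have hpi0 := Real.pi_pos
  have hs : (0 : ℝ) < √(2 * Real.pi) := by positivity
  have hs2 : √(2 * Real.pi) ≤ 2.51 := by
    rw [Real.sqrt_le_left (by norm_num)]
    nlinarith
  have h1 : ‖sA z / ((√(2 * Real.pi) : ℝ) : ℂ)‖ ≤ 1 + Real.pi / 8 := by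
    calc ‖sA z / ((√(2 * Real.pi) : ℝ) : ℂ)‖
        = ‖(sA z / ((√(2 * Real.pi) : ℝ) : ℂ) - 1) + 1‖ := by rw [sub_add_cancel]
      _ ≤ ‖sA z / ((√(2 * Real.pi) : ℝ) : ℂ) - 1‖ + ‖(1 : ℂ)‖ := norm_add_le _ _
      _ ≤ Real.pi / (8 * z.im) + 1 := by rw [norm_one]; linarith
      _ ≤ Real.pi / 8 + 1 := by
          have : Real.pi / (8 * z.im) ≤ Real.pi / 8 := by
            apply div_le_div_of_nonneg_left hpi0.le (by norm_num)
            linarith
          linarith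
      _ = _ := by ring
  rw [norm_div, Complex.norm_real, Real.norm_of_nonneg hs.le, div_le_iff₀ hs] at h1
  nlinarith

lemma Gamma_eq (z : ℂ) : Gamma z = sA z * Complex.exp ((z - 1 / 2) * log z - z) := by
  unfold sA
  rw [mul_assoc, ← Complex.exp_add]
  simp

lemma norm_Gamma_right {z : ℂ} (hz : 0 < z.re) (hv : 1 ≤ z.im) :
    ‖Gamma z‖ ≤ 4 * (‖z‖ ^ (z.re - 1 / 2) * Real.exp (-(Real.pi / 2 * z.im))) := by
  have hn : 0 < ‖z‖ := norm_pos_iff.2 (fun h => by rw [h] at hz; simp at hz)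
  rw [Gamma_eq, norm_mul, Complex.norm_exp]
  have h1 := norm_sA_le hz hv
  have h2 : ((z - 1 / 2) * log z - z).re ≤ (z.re - 1 / 2) * Real.log ‖z‖ - Real.pi / 2 * z.im := by
    have e : ((z - 1 / 2) * log z - z).re = (z.re - 1 / 2) * Real.log ‖z‖ - z.im * arg z - z.re := by
      simp only [Complex.sub_re, Complex.mul_re, Complex.sub_im, Complex.log_re, Complex.log_im]
      norm_num
    rw [e]
    have h3 := arg_low hz (by linarith : 0 < z.im)
    have h4 : z.im * (Real.pi / 2 - z.re / z.im) ≤ z.im * arg z :=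
      mul_le_mul_of_nonneg_left h3 (by linarith)
    have h5 : z.im * (Real.pi / 2 - z.re / z.im) = Real.pi / 2 * z.im - z.re := by
      field_simp
    linarith
  have h3 : Real.exp (((z - 1 / 2) * log z - z).re) ≤
      ‖z‖ ^ (z.re - 1 / 2) * Real.exp (-(Real.pi / 2 * z.im)) := by
    rw [Real.rpow_def_of_pos hn, ← Real.exp_add]
    apply Real.exp_le_exp.2
    linarith
  exact mul_le_mul h1 h3 (Real.exp_pos _).le (by norm_num)

/-- the bound in the strip -/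
theorem norm_Gamma_strip {z : ℂ} (h1 : -1 / 2 ≤ z.re) (hv : 1 ≤ z.im) :
    ‖Gamma z‖ ≤ 8 * (‖z‖ ^ (z.re - 1 / 2) * Real.exp (-(Real.pi / 2 * z.im))) := by
  have him : |z.im| ≤ ‖z‖ := Complex.abs_im_le_norm z
  have hn1 : 1 ≤ ‖z‖ := by
    rw [abs_of_nonneg (by linarith)] at him
    linarith
  have hn : 0 < ‖z‖ := by linarith
  have hpos : 0 ≤ ‖z‖ ^ (z.re - 1 / 2) * Real.exp (-(Real.pi / 2 * z.im)) := by positivity
  rcases lt_or_ge 0 z.re with h | h
  · refine (norm_Gamma_right h hv).trans ?_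
    linarith
  · have hz0 : z ≠ 0 := norm_pos_iff.1 hn
    have hre : (z + 1).re = z.re + 1 := by simp
    have himz : (z + 1).im = z.im := by simp
    have h3 := norm_Gamma_right (z := z + 1) (by rw [hre]; linarith) (by rw [himz]; exact hv)
    rw [hre, himz, Gamma_add_one z hz0, norm_mul] at h3
    have h4 : ‖z + 1‖ ≤ 2 * ‖z‖ := by
      calc ‖z + 1‖ ≤ ‖z‖ + ‖(1 : ℂ)‖ := norm_add_le _ _
        _ ≤ 2 * ‖z‖ := by rw [norm_one]; linarith
    have h5 : ‖z + 1‖ ^ (z.re + 1 - 1 / 2) ≤ 2 * ‖z‖ ^ (z.re + 1 - 1 / 2) := by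
      calc ‖z + 1‖ ^ (z.re + 1 - 1 / 2) ≤ (2 * ‖z‖) ^ (z.re + 1 - 1 / 2) :=
            Real.rpow_le_rpow (norm_nonneg _) h4 (by linarith)
        _ = 2 ^ (z.re + 1 - 1 / 2) * ‖z‖ ^ (z.re + 1 - 1 / 2) := by
            rw [Real.mul_rpow (by norm_num) hn.le]
        _ ≤ 2 * ‖z‖ ^ (z.re + 1 - 1 / 2) := by
            apply mul_le_mul_of_nonneg_right _ (by positivity)
            calc (2 : ℝ) ^ (z.re + 1 - 1 / 2) ≤ 2 ^ (1 : ℝ) :=
                  Real.rpow_le_rpow_of_exponent_le (by norm_num) (by linarith)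
              _ = 2 := Real.rpow_one 2
    have h6 : ‖z‖ ^ (z.re + 1 - 1 / 2) = ‖z‖ * ‖z‖ ^ (z.re - 1 / 2) := by
      have : z.re + 1 - 1 / 2 = 1 + (z.re - 1 / 2) := by ring
      rw [this, Real.rpow_add hn, Real.rpow_one]
    rw [h6] at h5
    have h7 : ‖z‖ * ‖Gamma z‖ ≤ ‖z‖ * (8 * (‖z‖ ^ (z.re - 1 / 2) * Real.exp (-(Real.pi / 2 * z.im)))) := by
      refine h3.trans ?_
      calc 4 * (‖z + 1‖ ^ (z.re + 1 - 1 / 2) * Real.exp (-(Real.pi / 2 * z.im)))
          ≤ 4 * ((2 * (‖z‖ * ‖z‖ ^ (z.re - 1 / 2))) * Real.exp (-(Real.pi / 2 * z.im))) := by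
            gcongr
        _ = _ := by ring
    exact le_of_mul_le_mul_left h7 hn

/-- the line `Re s = -1/2` -/
lemma norm_Gamma_left {t : ℝ} (ht : 1 ≤ t) :
    ‖Gamma (⟨-1 / 2, t⟩ : ℂ)‖ ≤ 8 / t * Real.exp (-(Real.pi / 2 * t)) := by
  have h := norm_Gamma_strip (z := ⟨-1 / 2, t⟩) le_rfl ht
  simp only at h
  have h1 : t ≤ ‖(⟨-1 / 2, t⟩ : ℂ)‖ := by
    have := Complex.abs_im_le_norm (⟨-1 / 2, t⟩ : ℂ)
    simp only at this
    rwa [abs_of_nonneg (by linarith)] at this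
  have h2 : ‖(⟨-1 / 2, t⟩ : ℂ)‖ ^ ((-1 / 2 : ℝ) - 1 / 2) ≤ t⁻¹ := by
    have : ((-1 / 2 : ℝ) - 1 / 2) = -1 := by norm_num
    rw [this, Real.rpow_neg_one]
    exact inv_anti₀ (by linarith) h1
  refine h.trans ?_
  calc 8 * (‖(⟨-1 / 2, t⟩ : ℂ)‖ ^ ((-1 / 2 : ℝ) - 1 / 2) * Real.exp (-(Real.pi / 2 * t)))
      ≤ 8 * (t⁻¹ * Real.exp (-(Real.pi / 2 * t))) := by gcongr
    _ = _ := by ring

/-- a crude bound -/
lemma norm_Gamma_crude {z : ℂ} (h1 : -1 / 2 ≤ z.re) (h2 : z.re ≤ 3 / 2) (hv : 1 ≤ z.im) :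
    ‖Gamma z‖ ≤ 32 * z.im * Real.exp (-(Real.pi / 2 * z.im)) := by
  refine (norm_Gamma_strip h1 hv).trans ?_
  have hn1 : ‖z‖ ≤ 4 * z.im := by
    calc ‖z‖ ≤ |z.re| + |z.im| := Complex.norm_le_abs_re_add_abs_im z
      _ ≤ 3 / 2 + z.im := by
          rw [abs_of_nonneg (by linarith : 0 ≤ z.im)]
          have : |z.re| ≤ 3 / 2 := abs_le.2 ⟨by linarith, h2⟩
          linarith
      _ ≤ _ := by linarith
  have him : |z.im| ≤ ‖z‖ := Complex.abs_im_le_norm z
  have hn : 1 ≤ ‖z‖ := by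
    rw [abs_of_nonneg (by linarith)] at him
    linarith
  have h3 : ‖z‖ ^ (z.re - 1 / 2) ≤ 4 * z.im := by
    calc ‖z‖ ^ (z.re - 1 / 2) ≤ ‖z‖ ^ (1 : ℝ) :=
          Real.rpow_le_rpow_of_exponent_le hn (by linarith)
      _ = ‖z‖ := Real.rpow_one _
      _ ≤ _ := hn1
  calc 8 * (‖z‖ ^ (z.re - 1 / 2) * Real.exp (-(Real.pi / 2 * z.im)))
      ≤ 8 * (4 * z.im * Real.exp (-(Real.pi / 2 * z.im))) := by gcongr
    _ = _ := by ring

/-- the square of `Γ(1/2 + iγ)` -/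
theorem gam_sq : ∃ C : ℝ, 0 < C ∧ ∀ γ : ℝ, 1 ≤ γ →
    ‖Gamma (⟨1 / 2, γ⟩ : ℂ) ^ 2 * Complex.exp (Real.pi * γ) *
      Complex.exp (-(2 * I * (γ * Real.log γ - γ))) - 2 * Real.pi‖ ≤ C / γ := by
  refine ⟨100, by norm_num, fun γ hγ => ?_⟩
  have hγ0 : 0 < γ := by linarith
  have hγc : (γ : ℂ) ≠ 0 := by exact_mod_cast hγ0.ne'
  set z : ℂ := ⟨1 / 2, γ⟩ with hz
  have hz1 : z = 1 / 2 + I * γ := by
    apply Complex.ext <;> simp [hz]
  set w : ℂ := 1 / (2 * I * γ) with hw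
  have hwn : ‖w‖ = 1 / (2 * γ) := by
    rw [hw, norm_div, norm_one, norm_mul, norm_mul, Complex.norm_I, Complex.norm_real,
      Real.norm_of_nonneg hγ0.le]
    norm_num
  have hw2 : ‖w‖ ≤ 1 / 2 := by
    rw [hwn]
    apply one_div_le_one_div_of_le (by norm_num)
    linarith
  have hlog : log z = Real.log γ + Real.pi / 2 * I + log (1 + w) := by
    have h1 : z = (I * γ) * (1 + w) := by
      rw [hz1, hw]
      have : I ≠ 0 := I_ne_zero
      field_simp
      ring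
    have harg : arg (I * γ) = Real.pi / 2 := by
      rw [mul_comm, Complex.arg_real_mul _ hγ0, Complex.arg_I]
    have h1w : (1 + w) ≠ 0 := by
      intro h
      have : ‖w‖ = 1 := by
        have h2 : w = -1 := by linear_combination h
        rw [h2]; simp
      linarith
    have hIγ : I * (γ : ℂ) ≠ 0 := mul_ne_zero I_ne_zero hγc
    have hwre : 0 < (1 + w).re := by
      have := (Complex.abs_re_le_norm w).trans hw2
      rw [abs_le] at this
      simp only [Complex.add_re, Complex.one_re]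
      linarith [this.1]
    have hargw : |arg (1 + w)| < Real.pi / 2 := Complex.abs_arg_lt_pi_div_two_iff.2 (Or.inl hwre)
    have hargneg : arg (1 + w) < 0 := by
      rw [Complex.arg_neg_iff]
      have : (1 + w).im = -(1 / (2 * γ)) := by
        have e : w = ((-(1 / (2 * γ)) : ℝ) : ℂ) * I := by
          rw [hw]
          push_cast
          have : I ≠ 0 := I_ne_zero
          field_simp
          rw [I_sq]
          ring
        rw [e]
        simp
      rw [this]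
      have : 0 < 1 / (2 * γ) := by positivity
      linarith
    rw [h1, Complex.log_mul_eq_add_log_iff hIγ h1w |>.2]
    · congr 1
      have e2 : log (I * γ) = Real.log γ + Real.pi / 2 * I := by
        apply Complex.ext
        · rw [Complex.log_re]
          simp [abs_of_pos hγ0]
        · rw [Complex.log_im, harg]
          simp
      exact e2
    · rw [harg]
      rw [abs_lt] at hargw
      constructor
      · linarith [hargw.1, Real.pi_pos]
      · linarith [Real.pi_pos]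
  set E : ℂ := 2 * I * γ * log (1 + w) - 1 with hE
  have hEn : ‖E‖ ≤ 1 / γ := by
    have h1 : E = (2 * I * γ) * (log (1 + w) - w) := by
      rw [hE, hw]
      have : I ≠ 0 := I_ne_zero
      field_simp
    rw [h1, norm_mul]
    have h2 := Complex.norm_log_one_add_sub_self_le (z := w) (by linarith)
    have h3 : ‖log (1 + w) - w‖ ≤ ‖w‖ ^ 2 := by
      refine h2.trans ?_
      have h4 : (1 - ‖w‖)⁻¹ ≤ 2 := by
        rw [inv_le_comm₀ (by linarith) (by norm_num)]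
        norm_num; linarith
      have h5 : 0 ≤ ‖w‖ ^ 2 := by positivity
      calc ‖w‖ ^ 2 * (1 - ‖w‖)⁻¹ / 2 ≤ ‖w‖ ^ 2 * 2 / 2 := by gcongr
        _ = ‖w‖ ^ 2 := by ring
    have h4 : ‖(2 * I * γ : ℂ)‖ = 2 * γ := by
      rw [norm_mul, norm_mul, Complex.norm_I, Complex.norm_real, Real.norm_of_nonneg hγ0.le]
      norm_num
    rw [h4]
    calc 2 * γ * ‖log (1 + w) - w‖ ≤ 2 * γ * ‖w‖ ^ 2 := by gcongr
      _ = 1 / (2 * γ) := by rw [hwn]; field_simp
      _ ≤ 1 / γ := by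
          apply one_div_le_one_div_of_le hγ0
          linarith
  have hmain : Gamma z ^ 2 * Complex.exp (Real.pi * γ) *
      Complex.exp (-(2 * I * (γ * Real.log γ - γ))) = sA z ^ 2 * Complex.exp E := by
    rw [Gamma_eq z, mul_pow, ← Complex.exp_nat_mul, mul_assoc, mul_assoc, ← Complex.exp_add,
      ← Complex.exp_add]
    congr 2
    rw [hlog, hE, hz1]
    push_cast
    ring_nf
    rw [I_sq]
    ring
  rw [hmain]
  -- `sA`
  set a : ℂ := sA z / ((√(2 * Real.pi) : ℝ) : ℂ) - 1 with ha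
  have han : ‖a‖ ≤ 1 / γ := by
    have h1 := stirling (z := z) (by rw [hz]; norm_num) (by rw [hz]; exact hγ)
    have h2 : z.im = γ := rfl
    rw [h2] at h1
    refine h1.trans ?_
    rw [div_le_div_iff₀ (by positivity) hγ0]
    have := Real.pi_lt_d2
    nlinarith
  have hs : ((√(2 * Real.pi) : ℝ) : ℂ) ≠ 0 := by
    have : √(2 * Real.pi) ≠ 0 := by positivity
    exact_mod_cast this
  have hsA : sA z ^ 2 = 2 * Real.pi * (1 + a) ^ 2 := by
    have h1 : sA z = ((√(2 * Real.pi) : ℝ) : ℂ) * (1 + a) := by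
      rw [ha]; field_simp; ring
    rw [h1, mul_pow, ← Complex.ofReal_pow, Real.sq_sqrt (by positivity)]
    push_cast
    ring
  rw [hsA]
  have hexp : ‖Complex.exp E - 1‖ ≤ 2 / γ := by
    have hE1 : ‖E‖ ≤ 1 := hEn.trans (by rw [div_le_one hγ0]; exact hγ)
    have h1 := Complex.norm_exp_sub_one_le hE1
    calc ‖Complex.exp E - 1‖ ≤ 2 * ‖E‖ := h1
      _ ≤ 2 * (1 / γ) := by gcongr
      _ = 2 / γ := by ring
  have ha1 : ‖a‖ ≤ 1 := han.trans (by rw [div_le_one hγ0]; exact hγ)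
  have hsq : ‖(1 + a) ^ 2 - 1‖ ≤ 3 / γ := by
    have : (1 + a) ^ 2 - 1 = a * (2 + a) := by ring
    rw [this, norm_mul]
    have h2 : ‖2 + a‖ ≤ 3 := by
      calc ‖2 + a‖ ≤ ‖(2 : ℂ)‖ + ‖a‖ := norm_add_le _ _
        _ ≤ 3 := by norm_num; linarith
    calc ‖a‖ * ‖2 + a‖ ≤ 1 / γ * 3 := by gcongr
      _ = 3 / γ := by ring
  have hfin : 2 * (Real.pi : ℂ) * (1 + a) ^ 2 * Complex.exp E - 2 * Real.pi =
      2 * Real.pi * (((1 + a) ^ 2 - 1) * Complex.exp E + (Complex.exp E - 1)) := by ring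
  rw [hfin, norm_mul]
  have hexp3 : ‖Complex.exp E‖ ≤ 3 := by
    have hE1 : ‖E‖ ≤ 1 := hEn.trans (by rw [div_le_one hγ0]; exact hγ)
    calc ‖Complex.exp E‖ ≤ Real.exp ‖E‖ := Complex.norm_exp_le_exp_norm _
      _ ≤ Real.exp 1 := Real.exp_le_exp.2 hE1
      _ ≤ 3 := by linarith [Real.exp_one_lt_d9]
  have h2pi : ‖(2 * (Real.pi : ℂ))‖ = 2 * Real.pi := by
    rw [norm_mul, Complex.norm_real, Real.norm_of_nonneg Real.pi_pos.le]; norm_num
  rw [h2pi]
  have h9 : ‖((1 + a) ^ 2 - 1) * Complex.exp E + (Complex.exp E - 1)‖ ≤ 11 / γ := by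
    calc _ ≤ ‖((1 + a) ^ 2 - 1) * Complex.exp E‖ + ‖Complex.exp E - 1‖ := norm_add_le _ _
      _ ≤ 3 / γ * 3 + 2 / γ := by
          rw [norm_mul]
          gcongr
      _ = 11 / γ := by ring
  have hpi := Real.pi_lt_d2
  calc 2 * Real.pi * ‖((1 + a) ^ 2 - 1) * Complex.exp E + (Complex.exp E - 1)‖
      ≤ 2 * Real.pi * (11 / γ) := by gcongr
    _ ≤ 100 / γ := by
        rw [mul_div_assoc', div_le_div_iff_of_pos_right hγ0]
        nlinarith

end Pool.Agent.Helper44K9.AR
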