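import Mathlib

/-! Gaussian weights: sums over the integers. -/

set_option autoImplicit false

namespace Pool.Agent.Helper44K9.AR

open Complex Finset

lemma tele (σ : ℝ) (hσ : 0 < σ) (K : ℕ) :
    ∑ k ∈ range K, 1 / (1 + ((k : ℝ) + 1) / σ) ^ 2 ≤ σ - σ ^ 2 / (σ + K) := by
  induction K with
  | zero =>
    simp only [range_zero, sum_empty, Nat.cast_zero, add_zero]
    have : σ ^ 2 / σ = σ := by field_simp
    rw [this, sub_self]
  | succ K ih =>
    rw [sum_range_succ]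
    have h0 : 0 < σ + K := by positivity
    have h1 : (1 : ℝ) / (1 + ((K : ℝ) + 1) / σ) ^ 2 ≤ σ ^ 2 / (σ + K) - σ ^ 2 / (σ + K + 1) := by
      have e1 : (1 : ℝ) / (1 + ((K : ℝ) + 1) / σ) ^ 2 = σ ^ 2 / (σ + K + 1) ^ 2 := by
        field_simp
        ring
      have e2 : σ ^ 2 / (σ + K) - σ ^ 2 / (σ + K + 1) = σ ^ 2 / ((σ + K) * (σ + K + 1)) := by
        field_simp
        ring
      rw [e1, e2]
      apply div_le_div_of_nonneg_left (by positivity) (by positivity)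
      nlinarith
    push_cast
    rw [← add_assoc]
    linarith

/-- the weight -/
noncomputable def ww (σ k : ℝ) : ℝ := 2 / (1 + |k| / σ) ^ 2

lemma ww_nonneg (σ k : ℝ) : 0 ≤ ww σ k := by unfold ww; positivity

lemma ww_zero (σ : ℝ) : ww σ 0 = 2 := by unfold ww; simp

lemma sum_ww_one (σ : ℝ) (hσ : 0 < σ) (K : ℕ) : ∑ k ∈ range K, ww σ ((k : ℝ) + 1) ≤ 2 * σ := by
  have h := tele σ hσ K
  have e : ∀ k ∈ range K, ww σ ((k : ℝ) + 1) = 2 * (1 / (1 + ((k : ℝ) + 1) / σ) ^ 2) := by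
    intro k _
    unfold ww
    rw [abs_of_nonneg (by positivity)]
    ring
  rw [sum_congr rfl e, ← mul_sum]
  have : 0 ≤ σ ^ 2 / (σ + K) := by positivity
  linarith

lemma sum_ww (σ : ℝ) (hσ : 0 < σ) (n N : ℕ) : ∑ m ∈ Icc 1 N, ww σ ((n : ℝ) - m) ≤ 2 + 4 * σ := by
  have h1 : ∑ m ∈ Icc 1 N, ww σ ((n : ℝ) - m) ≤ ∑ m ∈ range (n + 1 + N), ww σ ((n : ℝ) - m) := by
    apply sum_le_sum_of_subset_of_nonneg
    · intro m hm
      rw [mem_Icc] at hm
      rw [mem_range]; omega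
    · intro m _ _
      exact ww_nonneg _ _
  refine h1.trans ?_
  rw [sum_range_add]
  have h2 : ∑ m ∈ range (n + 1), ww σ ((n : ℝ) - m) ≤ 2 + 2 * σ := by
    rw [← sum_range_reflect, sum_range_succ']
    have e : ∀ k ∈ range n, ww σ ((n : ℝ) - ((n + 1 - 1 - (k + 1) : ℕ) : ℝ)) = ww σ ((k : ℝ) + 1) := by
      intro k hk
      rw [mem_range] at hk
      congr 1
      rw [Nat.cast_sub (by omega)]
      push_cast
      simp
    rw [sum_congr rfl e]
    have e0 : ww σ ((n : ℝ) - ((n + 1 - 1 - 0 : ℕ) : ℝ)) = 2 := by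
      simp only [Nat.add_sub_cancel, Nat.sub_zero, sub_self, ww_zero]
    rw [e0]
    linarith [sum_ww_one σ hσ n]
  have h3 : ∑ k ∈ range N, ww σ ((n : ℝ) - ((n + 1 + k : ℕ) : ℝ)) ≤ 2 * σ := by
    refine le_trans (le_of_eq (sum_congr rfl fun k _ => ?_)) (sum_ww_one σ hσ N)
    unfold ww
    congr 3
    rw [← abs_neg]
    congr 1
    congr 1
    push_cast
    ring
  linarith

lemma gauss_ww (t : ℝ) : Real.exp (-t ^ 2) ≤ 2 / (1 + |t|) ^ 2 ∧ |t| * Real.exp (-t ^ 2) ≤ 2 / (1 + |t|) ^ 2 := by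
  have ht := abs_nonneg t
  have hs := sq_abs t
  have hq := Real.quadratic_le_exp_of_nonneg (x := t ^ 2) (by positivity)
  have hE : Real.exp (-t ^ 2) * Real.exp (t ^ 2) = 1 := by rw [← Real.exp_add]; simp
  have hE0 := Real.exp_pos (-t ^ 2)
  constructor
  · rw [le_div_iff₀ (by positivity)]
    have h1 : (1 + |t|) ^ 2 ≤ 2 * Real.exp (t ^ 2) := by nlinarith [sq_nonneg (1 - |t|), sq_nonneg (t ^ 2)]
    calc Real.exp (-t ^ 2) * (1 + |t|) ^ 2 ≤ Real.exp (-t ^ 2) * (2 * Real.exp (t ^ 2)) := by gcongr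
      _ = 2 := by rw [mul_left_comm, hE]; norm_num
  · rw [le_div_iff₀ (by positivity)]
    have h1 : |t| * (1 + |t|) ^ 2 ≤ 2 * Real.exp (t ^ 2) := by
      have h2 : (1 + |t|) ^ 2 ≤ 2 * (1 + t ^ 2) := by nlinarith [sq_nonneg (1 - |t|)]
      have h3 : 2 * |t| ≤ 1 + t ^ 2 := by nlinarith [sq_nonneg (1 - |t|)]
      have h4 : |t| * (1 + |t|) ^ 2 ≤ (1 + t ^ 2) ^ 2 := by nlinarith
      nlinarith
    calc |t| * Real.exp (-t ^ 2) * (1 + |t|) ^ 2 = Real.exp (-t ^ 2) * (|t| * (1 + |t|) ^ 2) := by ring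
      _ ≤ Real.exp (-t ^ 2) * (2 * Real.exp (t ^ 2)) := by gcongr
      _ = 2 := by rw [mul_left_comm, hE]; norm_num

lemma exp_diff {z w : ℂ} {M : ℝ} (hz : z.re ≤ M) (hw : w.re ≤ M) :
    ‖Complex.exp z - Complex.exp w‖ ≤ Real.exp M * ‖z - w‖ := by
  have hconv : Convex ℝ {v : ℂ | v.re ≤ M} := convex_halfSpace_re_le M
  refine hconv.norm_image_sub_le_of_norm_hasDerivWithin_le (f := Complex.exp) (f' := Complex.exp)
    (fun v _ => (Complex.hasDerivAt_exp v).hasDerivWithinAt) (fun v hv => ?_) hw hz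
  rw [Complex.norm_exp]
  exact Real.exp_le_exp.2 hv

/-- the quadratic form in the exponent -/
noncomputable def BB (a b n m : ℝ) : ℂ := ((n + m) * a : ℝ) + ((n - m) * b : ℝ) * I

noncomputable def EE (a b κ n m : ℝ) : ℂ := Complex.exp (-((n + m) * a : ℝ) + BB a b n m ^ 2 / (4 * κ ^ 2 : ℝ))

lemma EE_re (a b κ n m : ℝ) : (-((n + m) * a : ℝ) + BB a b n m ^ 2 / (4 * κ ^ 2 : ℝ) : ℂ).re =
    -((n + m) * a) + (((n + m) * a) ^ 2 - ((n - m) * b) ^ 2) / (4 * κ ^ 2) := by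
  unfold BB
  have e : (-((n + m) * a : ℝ) + (((n + m) * a : ℝ) + ((n - m) * b : ℝ) * I) ^ 2 / (4 * κ ^ 2 : ℝ) : ℂ) =
      ((-((n + m) * a) + (((n + m) * a) ^ 2 - ((n - m) * b) ^ 2) / (4 * κ ^ 2) : ℝ) : ℂ) +
      ((2 * ((n + m) * a) * ((n - m) * b) / (4 * κ ^ 2) : ℝ) : ℂ) * I := by
    have h : (((n + m) * a : ℝ) + ((n - m) * b : ℝ) * I : ℂ) ^ 2 =
        ((((n + m) * a) ^ 2 - ((n - m) * b) ^ 2 : ℝ) : ℂ) + ((2 * ((n + m) * a) * ((n - m) * b) : ℝ) : ℂ) * I := by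
      push_cast
      linear_combination (((n : ℂ) - m) * b) ^ 2 * Complex.I_sq
    rw [h, add_div]
    push_cast
    ring
  rw [e, Complex.add_re, Complex.ofReal_re, Complex.re_ofReal_mul, Complex.I_re, mul_zero, add_zero]

lemma EE_re_le {a b κ n m : ℝ} (hκ : 0 < κ) (h0 : 0 ≤ (n + m) * a) (h1 : (n + m) * a ≤ 2 * κ ^ 2) :
    (-((n + m) * a : ℝ) + BB a b n m ^ 2 / (4 * κ ^ 2 : ℝ) : ℂ).re ≤
    -((n + m) * a / 2) - (((n - m) * b) / (2 * κ)) ^ 2 := by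
  rw [EE_re]
  have h2 : (((n + m) * a) ^ 2 - ((n - m) * b) ^ 2) / (4 * κ ^ 2) =
      (n + m) * a * ((n + m) * a / (4 * κ ^ 2)) - (((n - m) * b) / (2 * κ)) ^ 2 := by
    field_simp
    ring
  have h3 : (n + m) * a / (4 * κ ^ 2) ≤ 1 / 2 := by
    rw [div_le_div_iff₀ (by positivity) (by norm_num)]
    linarith
  rw [h2]
  nlinarith

lemma ww_eq {b κ : ℝ} (hb : 0 < b) (hκ : 0 < κ) (k : ℝ) :
    2 / (1 + |k * b / (2 * κ)|) ^ 2 = ww (2 * κ / b) k := by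
  unfold ww
  rw [abs_div, abs_mul, abs_of_pos hb, abs_of_pos (show 0 < 2 * κ by positivity)]
  congr 3
  field_simp

lemma norm_EE_le {a b κ n m : ℝ} (hb : 0 < b) (hκ : 0 < κ) (h0 : 0 ≤ (n + m) * a)
    (h1 : (n + m) * a ≤ 2 * κ ^ 2) :
    ‖EE a b κ n m‖ ≤ Real.exp (-((n + m) * a / 2)) * ww (2 * κ / b) (n - m) := by
  unfold EE
  rw [Complex.norm_exp]
  calc _ ≤ Real.exp (-((n + m) * a / 2) - (((n - m) * b) / (2 * κ)) ^ 2) :=
        Real.exp_le_exp.2 (EE_re_le hκ h0 h1)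
    _ = Real.exp (-((n + m) * a / 2)) * Real.exp (-(((n - m) * b) / (2 * κ)) ^ 2) := by
        rw [← Real.exp_add]; congr 1
    _ ≤ _ := by
        gcongr
        rw [← ww_eq hb hκ]
        exact (gauss_ww _).1

lemma norm_BB_le {a b n m : ℝ} (hb : 0 < b) (h0 : 0 ≤ (n + m) * a) :
    ‖BB a b n m‖ ≤ (n + m) * a + |n - m| * b := by
  unfold BB
  refine (norm_add_le _ _).trans ?_
  rw [norm_mul, Complex.norm_I, Complex.norm_real, Complex.norm_real, Real.norm_of_nonneg h0, mul_one,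
    Real.norm_eq_abs, abs_mul, abs_of_pos hb]

lemma t_exp (t : ℝ) : t * Real.exp (-(t / 2)) ≤ 1 := by
  have h := Real.add_one_le_exp (t / 2)
  have h2 : t ≤ Real.exp (t / 2) := by
    have h3 : Real.exp (t / 2) = Real.exp (t / 4) ^ 2 := by rw [← Real.exp_nat_mul]; congr 1; push_cast; ring
    rcases le_or_gt 0 t with h4 | h4
    · have h5 := Real.add_one_le_exp (t / 4)
      rw [h3]
      nlinarith [sq_nonneg (t / 4 - 1)]
    · linarith [Real.exp_pos (t / 2)]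
  rw [Real.exp_neg, ← div_eq_mul_inv, div_le_one (Real.exp_pos _)]
  exact h2

/-- adjacent values of `EE` -/
lemma EE_diff {a b κ n m : ℝ} (ha : 0 < a) (hb : 0 < b) (hκ : 0 < κ) (hn : 0 ≤ n) (hm : 0 ≤ m)
    (h1 : (n + 1 + m) * a ≤ 2 * κ ^ 2) :
    ‖EE a b κ (n + 1) m - EE a b κ n m‖ ≤
      (a + (a + b) * (a + 2 * b + 2) / (4 * κ ^ 2) + (a + b) / κ) *
        (ww (2 * κ / b) (n - m) + ww (2 * κ / b) (n + 1 - m)) := by
  have h0 : 0 ≤ (n + m) * a := by positivity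
  have h0' : 0 ≤ (n + 1 + m) * a := by positivity
  have h1' : (n + m) * a ≤ 2 * κ ^ 2 := by nlinarith
  obtain ⟨q, hq, hq1, hq2⟩ : ∃ q : ℝ, (q = n - m ∨ q = n + 1 - m) ∧ |q| ≤ |n - m| ∧ |q| ≤ |n + 1 - m| := by
    rcases le_total |n - m| |n + 1 - m| with h | h
    · exact ⟨_, Or.inl rfl, le_rfl, h⟩
    · exact ⟨_, Or.inr rfl, h, le_rfl⟩
  have hqa : |n - m| ≤ |q| + 1 := by
    rcases hq with h | h
    · rw [h]; linarith
    · rw [h]
      have := abs_sub_abs_le_abs_sub (n - m) (n + 1 - m)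
      rw [show n - m - (n + 1 - m) = -1 by ring, abs_neg, abs_one] at this
      linarith
  have hqb : |n + 1 - m| ≤ |q| + 1 := by
    rcases hq with h | h
    · rw [h]
      have := abs_sub_abs_le_abs_sub (n + 1 - m) (n - m)
      rw [show n + 1 - m - (n - m) = 1 by ring, abs_one] at this
      linarith
    · rw [h]; linarith
  set M : ℝ := -((n + m) * a / 2) - (q * b / (2 * κ)) ^ 2 with hM
  have hsq : ∀ k : ℝ, |q| ≤ |k| → (q * b / (2 * κ)) ^ 2 ≤ (k * b / (2 * κ)) ^ 2 := by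
    intro k hk
    rw [← sq_abs (q * b / (2 * κ)), ← sq_abs (k * b / (2 * κ)), abs_div, abs_div, abs_mul, abs_mul k]
    gcongr
  have hz : (-((n + 1 + m) * a : ℝ) + BB a b (n + 1) m ^ 2 / (4 * κ ^ 2 : ℝ) : ℂ).re ≤ M := by
    refine (EE_re_le hκ h0' h1).trans ?_
    have := hsq (n + 1 - m) hq2
    rw [hM]
    nlinarith
  have hw : (-((n + m) * a : ℝ) + BB a b n m ^ 2 / (4 * κ ^ 2 : ℝ) : ℂ).re ≤ M := by
    refine (EE_re_le hκ h0 h1').trans ?_
    have := hsq (n - m) hq1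
    rw [hM]
    linarith
  have hd := exp_diff hz hw
  unfold EE
  refine hd.trans ?_
  have hzw : ‖(-((n + 1 + m) * a : ℝ) + BB a b (n + 1) m ^ 2 / (4 * κ ^ 2 : ℝ) : ℂ) -
      (-((n + m) * a : ℝ) + BB a b n m ^ 2 / (4 * κ ^ 2 : ℝ))‖ ≤
      a + (a + b) * (a + 2 * b + 2 * ((n + m) * a) + 2 * (|q| * b)) / (4 * κ ^ 2) := by
    have e : (-((n + 1 + m) * a : ℝ) + BB a b (n + 1) m ^ 2 / (4 * κ ^ 2 : ℝ) : ℂ) -
      (-((n + m) * a : ℝ) + BB a b n m ^ 2 / (4 * κ ^ 2 : ℝ)) =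
      -(a : ℂ) + (a + b * I) * (BB a b (n + 1) m + BB a b n m) / (4 * κ ^ 2 : ℝ) := by
      unfold BB
      have hκc : (κ : ℂ) ≠ 0 := by exact_mod_cast hκ.ne'
      push_cast
      field_simp
      ring
    rw [e]
    refine (norm_add_le _ _).trans ?_
    rw [norm_neg, norm_div, norm_mul, Complex.norm_real, Complex.norm_real,
      Real.norm_of_nonneg ha.le, Real.norm_of_nonneg (by positivity : (0:ℝ) ≤ 4 * κ ^ 2)]
    have n1 : ‖(a + b * I : ℂ)‖ ≤ a + b := by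
      refine (norm_add_le _ _).trans ?_
      rw [norm_mul, Complex.norm_I, Complex.norm_real, Complex.norm_real, Real.norm_of_nonneg ha.le,
        Real.norm_of_nonneg hb.le, mul_one]
    have n2 : ‖BB a b (n + 1) m + BB a b n m‖ ≤ a + 2 * b + 2 * ((n + m) * a) + 2 * (|q| * b) := by
      refine (norm_add_le _ _).trans ?_
      have e1 := norm_BB_le (a := a) (b := b) (n := n + 1) (m := m) hb h0'
      have e2 := norm_BB_le (a := a) (b := b) (n := n) (m := m) hb h0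
      have e3 : |n + 1 - m| * b ≤ (|q| + 1) * b := by gcongr
      have e4 : |n - m| * b ≤ (|q| + 1) * b := by gcongr
      linarith
    gcongr
  have hE1 : Real.exp M = Real.exp (-((n + m) * a / 2)) * Real.exp (-(q * b / (2 * κ)) ^ 2) := by
    rw [hM, ← Real.exp_add]; congr 1
  have hEa := t_exp ((n + m) * a)
  have hEle : Real.exp (-((n + m) * a / 2)) ≤ 1 := by
    rw [Real.exp_le_one_iff]; linarith
  have hg := gauss_ww (q * b / (2 * κ))
  rw [ww_eq hb hκ] at hg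
  have hww : ww (2 * κ / b) q ≤ ww (2 * κ / b) (n - m) + ww (2 * κ / b) (n + 1 - m) := by
    rcases hq with h | h
    · rw [h]; linarith [ww_nonneg (2 * κ / b) (n + 1 - m)]
    · rw [h]; linarith [ww_nonneg (2 * κ / b) (n - m)]
  have hww0 := ww_nonneg (2 * κ / b) q
  set E1 := Real.exp (-((n + m) * a / 2)) with hE1d
  set E2 := Real.exp (-(q * b / (2 * κ)) ^ 2) with hE2d
  have hE10 : 0 < E1 := Real.exp_pos _
  have hE20 : 0 < E2 := Real.exp_pos _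
  have hq3 : |q| * b * E2 ≤ 2 * κ * ww (2 * κ / b) q := by
    have := hg.2
    rw [abs_div, abs_mul, abs_of_pos hb, abs_of_pos (show 0 < 2 * κ by positivity), div_mul_eq_mul_div,
      div_le_iff₀ (by positivity)] at this
    linarith
  calc Real.exp M * ‖(-((n + 1 + m) * a : ℝ) + BB a b (n + 1) m ^ 2 / (4 * κ ^ 2 : ℝ) : ℂ) -
      (-((n + m) * a : ℝ) + BB a b n m ^ 2 / (4 * κ ^ 2 : ℝ))‖
      ≤ E1 * E2 * (a + (a + b) * (a + 2 * b + 2 * ((n + m) * a) + 2 * (|q| * b)) / (4 * κ ^ 2)) := by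
        rw [hE1]
        gcongr
    _ = a * (E1 * E2) + (a + b) * (a + 2 * b) / (4 * κ ^ 2) * (E1 * E2) +
        (a + b) * 2 / (4 * κ ^ 2) * ((n + m) * a * E1 * E2) +
        (a + b) * 2 / (4 * κ ^ 2) * (E1 * (|q| * b * E2)) := by ring
    _ ≤ a * (1 * ww (2 * κ / b) q) + (a + b) * (a + 2 * b) / (4 * κ ^ 2) * (1 * ww (2 * κ / b) q) +
        (a + b) * 2 / (4 * κ ^ 2) * (1 * ww (2 * κ / b) q) +
        (a + b) * 2 / (4 * κ ^ 2) * (1 * (2 * κ * ww (2 * κ / b) q)) := by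
        have i1 : E1 * E2 ≤ 1 * ww (2 * κ / b) q := mul_le_mul hEle hg.1 hE20.le (by norm_num)
        have i2 : (n + m) * a * E1 * E2 ≤ 1 * ww (2 * κ / b) q := mul_le_mul hEa hg.1 hE20.le (by norm_num)
        have i3 : E1 * (|q| * b * E2) ≤ 1 * (2 * κ * ww (2 * κ / b) q) :=
          mul_le_mul hEle hq3 (by positivity) (by norm_num)
        gcongr
    _ = (a + (a + b) * (a + 2 * b + 2) / (4 * κ ^ 2) + (a + b) / κ) * ww (2 * κ / b) q := by
        field_simp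
        ring
    _ ≤ _ := by gcongr

end Pool.Agent.Helper44K9.AR
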