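import Pool.Agent.Helper44K9.AR.Cah
import Pool.Agent.Helper76.HPlanch

/-! Plancherel for the twisted sum. -/

set_option autoImplicit false

namespace Pool.Agent.Helper44K9.AR

open Complex Filter Topology Set MeasureTheory FourierTransform

lemma planch (f : ℝ → ℂ) (h1 : Integrable f) (h2 : MemLp f 2) :
    Integrable (fun ξ => ‖𝓕 f ξ‖ ^ 2) ∧ ∫ ξ, ‖𝓕 f ξ‖ ^ 2 = ∫ t, ‖f t‖ ^ 2 := by
  have h := Pool.Agent.Helper76.NormalHP.plancherel_lintegral f h1 h2
  have hc : Continuous (𝓕 f) := VectorFourier.fourierIntegral_continuous Real.continuous_fourierChar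
    (innerSL ℝ).continuous₂ h1
  have e : ∀ (g : ℝ → ℂ) (t : ℝ), ‖g t‖ₑ ^ 2 = ENNReal.ofReal (‖g t‖ ^ 2) := by
    intro g t
    rw [ENNReal.ofReal_pow (norm_nonneg _), ofReal_norm]
  simp only [e] at h
  have h3 : Integrable (fun t => ‖f t‖ ^ 2) := (memLp_two_iff_integrable_sq_norm h1.aestronglyMeasurable).1 h2
  have h4 : ∫⁻ t, ENNReal.ofReal (‖f t‖ ^ 2) = ENNReal.ofReal (∫ t, ‖f t‖ ^ 2) :=
    (ofReal_integral_eq_lintegral_ofReal h3 (Eventually.of_forall fun t => by positivity)).symm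
  have h5 : Integrable (fun ξ => ‖𝓕 f ξ‖ ^ 2) := by
    refine ⟨(hc.norm.pow 2).aestronglyMeasurable, ?_⟩
    rw [hasFiniteIntegral_iff_ofReal (Eventually.of_forall fun ξ => by positivity), h, h4]
    exact ENNReal.ofReal_lt_top
  refine ⟨h5, ?_⟩
  rw [← ofReal_integral_eq_lintegral_ofReal h5 (Eventually.of_forall fun t => by positivity), h4] at h
  exact (ENNReal.ofReal_eq_ofReal_iff (integral_nonneg fun _ => by positivity)
    (integral_nonneg fun _ => by positivity)).1 h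

lemma norm_P1_le {ω : ℂ} (hω : 0 < ω.re) : ‖P1 ω‖ ≤ 1 / ω.re ∧
    HasSum (fun n : ℕ => mu n * Complex.exp (-(n * ω))) (P1 ω) := by
  have hr1 : Real.exp (-ω.re) < 1 := by rw [Real.exp_lt_one_iff]; linarith
  have hr0 : 0 < Real.exp (-ω.re) := Real.exp_pos _
  set r := Real.exp (-ω.re) with hr
  have hb : ∀ n : ℕ, ‖mu n * Complex.exp (-(n * ω))‖ ≤ r ^ n - (if n = 0 then 1 else 0) := by
    intro n
    split_ifs with h
    · rw [h, mu_zero, zero_mul, norm_zero, pow_zero, sub_self]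
    · rw [norm_mul, Complex.norm_exp, Complex.neg_re,
        show (n : ℂ) = ((n : ℝ) : ℂ) by push_cast; rfl, Complex.re_ofReal_mul, hr, ← Real.exp_nat_mul]
      calc _ ≤ 1 * Real.exp (-(n * ω.re)) := by
            gcongr
            exact norm_mu n
        _ = _ := by rw [one_mul, sub_zero]; congr 1; ring
  have hs : HasSum (fun n : ℕ => r ^ n - (if n = 0 then 1 else 0)) ((1 - r)⁻¹ - 1) :=
    (hasSum_geometric_of_lt_one hr0.le hr1).sub (hasSum_ite_eq 0 1)
  constructor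
  · refine (tsum_of_norm_bounded hs hb).trans ?_
    have h1 : r * (1 + ω.re) ≤ 1 := by
      have h2 := Real.add_one_le_exp ω.re
      calc r * (1 + ω.re) ≤ r * Real.exp ω.re := by gcongr; linarith
        _ = 1 := by rw [hr, ← Real.exp_add]; simp
    have h3 : 0 < 1 - r := by linarith
    rw [le_div_iff₀ hω]
    have h4 : (1 - r)⁻¹ - 1 = r / (1 - r) := by field_simp; ring
    rw [h4, div_mul_eq_mul_div, div_le_one h3]
    linarith
  · exact (Summable.of_norm_bounded hs.summable hb).hasSum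

/-- the Gaussian part of the kernel -/
noncomputable def Kf (X η u : ℝ) : ℂ := (hh X / (2 * √Real.pi) : ℝ) *
  Complex.exp (-(hh X ^ 2 * (u + I * η) ^ 2 / 4) - (u + I * η) / 2)

lemma kT_eq (T X η u : ℝ) : kT T X η u = Real.exp (η * T) * (Complex.exp (-(T * u) * I) * Kf X η u) := by
  unfold kT Kf
  rw [Complex.ofReal_exp, mul_left_comm (Complex.exp (-(T * u) * I)), mul_left_comm (Complex.exp ((η * T : ℝ) : ℂ)),
    ← Complex.exp_add, ← Complex.exp_add]
  congr 2
  push_cast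
  linear_combination (-(η : ℂ) * T) * Complex.I_sq

lemma norm_Kf (X η u : ℝ) (hX : 3 ≤ X) : ‖Kf X η u‖ = hh X / (2 * √Real.pi) *
    Real.exp (-(hh X ^ 2 * (u ^ 2 - η ^ 2) / 4) - u / 2) := by
  have hh1 := hh_pos hX
  unfold Kf
  rw [norm_mul, Complex.norm_real, Real.norm_of_nonneg (by positivity), Complex.norm_exp]
  congr 2
  have : (-(hh X ^ 2 * (u + I * η) ^ 2 / 4) - (u + I * η) / 2 : ℂ) =
      ((-(hh X ^ 2 * (u ^ 2 - η ^ 2) / 4) - u / 2 : ℝ) : ℂ) +
      ((-(hh X ^ 2 * (2 * u * η) / 4) - η / 2 : ℝ) : ℂ) * I := by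
    push_cast
    linear_combination (-(hh X : ℂ) ^ 2 * η ^ 2 / 4) * Complex.I_sq
  rw [this, Complex.add_re, Complex.ofReal_re, Complex.re_ofReal_mul, Complex.I_re, mul_zero, add_zero]

/-- the sum through the power series -/
noncomputable def Sg (x X T : ℝ) : ℂ := ∫ u : ℝ, kT T X (1 / X) u * P1 (om x (1 / X) u)

noncomputable def ff (x X u : ℝ) : ℂ := Kf X (1 / X) u * P1 (om x (1 / X) u)

lemma Sg_eq (x X T : ℝ) : Sg x X T = Real.exp (1 / X * T) * 𝓕 (ff x X) (T / (2 * Real.pi)) := by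
  unfold Sg ff
  rw [Real.fourier_real_eq_integral_exp_smul, ← integral_const_mul]
  apply integral_congr_ae
  refine Eventually.of_forall fun u => ?_
  simp only
  rw [kT_eq, smul_eq_mul, mul_assoc, mul_assoc]
  congr 3
  push_cast
  have hpi : (Real.pi : ℂ) ≠ 0 := by exact_mod_cast Real.pi_ne_zero
  field_simp

lemma ff_meas {x X : ℝ} (hx : 0 < x) (hX : 3 ≤ X) : AEStronglyMeasurable (ff x X) := by
  have hη : 0 < 1 / X := by positivity
  have hη1 : 1 / X ≤ 1 := by rw [div_le_one (by linarith)]; linarith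
  have hsin : 0 < Real.sin (1 / X) := Real.sin_pos_of_pos_of_lt_pi hη (by linarith [Real.pi_gt_three])
  unfold ff
  apply AEStronglyMeasurable.mul
  · apply Continuous.aestronglyMeasurable
    unfold Kf
    fun_prop
  · have hoc : Continuous (om x (1 / X)) := by unfold om; fun_prop
    refine aestronglyMeasurable_of_tendsto_ae atTop
      (f := fun (N : ℕ) (u : ℝ) => ∑ n ∈ Finset.range N, mu n * Complex.exp (-(n * om x (1 / X) u)))
      (fun N => ?_) (Eventually.of_forall fun u => ?_)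
    · apply Continuous.aestronglyMeasurable
      fun_prop
    · have hre : 0 < (om x (1 / X) u).re := by rw [om_re]; positivity
      exact (norm_P1_le hre).2.tendsto_sum_nat

lemma sin_low {X : ℝ} (hX : 3 ≤ X) : 1 / (2 * X) ≤ Real.sin (1 / X) := by
  have hη : 0 < 1 / X := by positivity
  have hη1 : 1 / X ≤ 1 := by rw [div_le_one (by linarith)]; linarith
  have h := Real.mul_le_sin hη.le (by linarith [Real.pi_gt_three])
  refine le_trans ?_ h
  have : (1 : ℝ) / 2 ≤ 2 / Real.pi := by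
    rw [div_le_div_iff₀ (by norm_num) Real.pi_pos]
    linarith [Real.pi_le_four]
  calc 1 / (2 * X) = 1 / 2 * (1 / X) := by field_simp
    _ ≤ _ := by gcongr

lemma P1_om_le {x X : ℝ} (hx : 0 < x) (hX : 3 ≤ X) (u : ℝ) :
    ‖P1 (om x (1 / X) u)‖ ≤ 2 * X / x * Real.exp u := by
  have hs := sin_low hX
  have hs0 : 0 < 1 / (2 * X) := by positivity
  have hs1 : 0 < Real.sin (1 / X) := by linarith
  have hre : 0 < (om x (1 / X) u).re := by rw [om_re]; positivity
  refine (norm_P1_le hre).1.trans ?_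
  rw [om_re]
  calc 1 / (x * Real.exp (-u) * Real.sin (1 / X)) ≤ 1 / (x * Real.exp (-u) * (1 / (2 * X))) := by gcongr
    _ = 2 * X / x * Real.exp u := by
        rw [Real.exp_neg]
        field_simp

lemma gauss_lin_int {b : ℝ} (hb : 0 < b) (c d : ℝ) :
    Integrable (fun u : ℝ => Real.exp (-(b * u ^ 2) + c * u + d)) := by
  have h := (integrable_cexp_quadratic (b := (b : ℂ)) (by simpa using hb) c d).norm
  refine h.congr (Eventually.of_forall fun u => ?_)
  simp only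
  rw [Complex.norm_exp]
  congr 1
  have : (-(b : ℂ) * u ^ 2 + c * u + d) = ((-(b * u ^ 2) + c * u + d : ℝ) : ℂ) := by push_cast; ring
  rw [this, Complex.ofReal_re]

lemma ff_bd {x X : ℝ} (hx : 0 < x) (hX : 3 ≤ X) (u : ℝ) :
    ‖ff x X u‖ ≤ hh X / (2 * √Real.pi) * (2 * X / x) *
      Real.exp (-(hh X ^ 2 / 4 * u ^ 2) + 1 / 2 * u + hh X ^ 2 * (1 / X) ^ 2 / 4) := by
  have hh1 := hh_pos hX
  unfold ff
  rw [norm_mul, norm_Kf _ _ _ hX]
  calc _ ≤ hh X / (2 * √Real.pi) * Real.exp (-(hh X ^ 2 * (u ^ 2 - (1 / X) ^ 2) / 4) - u / 2) *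
        (2 * X / x * Real.exp u) := by
        gcongr
        exact P1_om_le hx hX u
    _ = hh X / (2 * √Real.pi) * (2 * X / x) *
        (Real.exp (-(hh X ^ 2 * (u ^ 2 - (1 / X) ^ 2) / 4) - u / 2) * Real.exp u) := by ring
    _ = _ := by
        rw [← Real.exp_add]
        congr 2
        ring

lemma ff_int {x X : ℝ} (hx : 0 < x) (hX : 3 ≤ X) : Integrable (ff x X) ∧ MemLp (ff x X) 2 := by
  have hh1 := hh_pos hX
  have h1 : Integrable (ff x X) :=
    ((gauss_lin_int (b := hh X ^ 2 / 4) (by positivity) (1 / 2) (hh X ^ 2 * (1 / X) ^ 2 / 4)).const_mul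
      (hh X / (2 * √Real.pi) * (2 * X / x))).mono' (ff_meas hx hX) (Eventually.of_forall (ff_bd hx hX))
  refine ⟨h1, ?_⟩
  rw [memLp_two_iff_integrable_sq_norm (ff_meas hx hX)]
  refine ((gauss_lin_int (b := hh X ^ 2 / 2) (by positivity) 1 (hh X ^ 2 * (1 / X) ^ 2 / 2)).const_mul
      ((hh X / (2 * √Real.pi) * (2 * X / x)) ^ 2)).mono' ((ff_meas hx hX).norm.pow 2)
      (Eventually.of_forall fun u => ?_)
  rw [Real.norm_of_nonneg (by positivity)]
  calc ‖ff x X u‖ ^ 2 ≤ (hh X / (2 * √Real.pi) * (2 * X / x) *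
      Real.exp (-(hh X ^ 2 / 4 * u ^ 2) + 1 / 2 * u + hh X ^ 2 * (1 / X) ^ 2 / 4)) ^ 2 := by
        gcongr
        exact ff_bd hx hX u
    _ = _ := by
        rw [mul_pow, ← Real.exp_nat_mul]
        congr 2
        push_cast
        ring

theorem S_l2 {x X : ℝ} (hx : 0 < x) (hX : 3 ≤ X) (hhX : hh X ≤ X) :
    IntegrableOn (fun T => ‖Sg x X T‖ ^ 2) (Icc X (2 * X)) ∧
    ∫ T in Icc X (2 * X), ‖Sg x X T‖ ^ 2 ≤ 100 * hh X ^ 2 *
      ∫ u : ℝ, Real.exp (-(hh X ^ 2 * u ^ 2 / 2) - u) * ‖P1 (om x (1 / X) u)‖ ^ 2 := by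
  have hh1 := hh_pos hX
  obtain ⟨h1, h2⟩ := ff_int hx hX
  obtain ⟨h3, h4⟩ := planch _ h1 h2
  have hpi := Real.pi_pos
  have h5 : Integrable (fun T : ℝ => ‖𝓕 (ff x X) (T / (2 * Real.pi))‖ ^ 2) :=
    h3.comp_div (by positivity)
  have h6 : ∫ T : ℝ, ‖𝓕 (ff x X) (T / (2 * Real.pi))‖ ^ 2 = 2 * Real.pi * ∫ t, ‖ff x X t‖ ^ 2 := by
    rw [Measure.integral_comp_div (fun ξ => ‖𝓕 (ff x X) ξ‖ ^ 2), h4, abs_of_pos (by positivity), smul_eq_mul]
  have hc : Continuous (𝓕 (ff x X)) := VectorFourier.fourierIntegral_continuous Real.continuous_fourierChar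
    (innerSL ℝ).continuous₂ h1
  have hSc : Continuous (Sg x X) := by
    have : Sg x X = fun T : ℝ => (Real.exp (1 / X * T) : ℂ) * 𝓕 (ff x X) (T / (2 * Real.pi)) := by
      funext T; exact Sg_eq x X T
    rw [this]
    refine Continuous.mul (Complex.continuous_ofReal.comp (by fun_prop)) (hc.comp (by fun_prop))
  have h7 : ∀ T ∈ Icc X (2 * X), ‖Sg x X T‖ ^ 2 ≤ Real.exp 4 * ‖𝓕 (ff x X) (T / (2 * Real.pi))‖ ^ 2 := by
    intro T hT
    rw [Sg_eq, norm_mul, mul_pow, Complex.norm_real, Real.norm_of_nonneg (Real.exp_pos _).le,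
      ← Real.exp_nat_mul]
    gcongr
    push_cast
    have : 1 / X * T ≤ 2 := by
      rw [one_div, inv_mul_le_iff₀ (by linarith)]
      linarith [hT.2]
    linarith
  refine ⟨(hSc.norm.pow 2).continuousOn.integrableOn_compact isCompact_Icc, ?_⟩
  have h8 : ∀ u : ℝ, ‖ff x X u‖ ^ 2 ≤ hh X ^ 2 / (4 * Real.pi) * 2 *
      (Real.exp (-(hh X ^ 2 * u ^ 2 / 2) - u) * ‖P1 (om x (1 / X) u)‖ ^ 2) := by
    intro u
    unfold ff
    rw [norm_mul, norm_Kf _ _ _ hX, mul_pow, mul_pow, ← Real.exp_nat_mul]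
    have e1 : (hh X / (2 * √Real.pi)) ^ 2 = hh X ^ 2 / (4 * Real.pi) := by
      rw [div_pow, mul_pow, Real.sq_sqrt hpi.le]; norm_num
    rw [e1]
    have e2 : Real.exp (((2 : ℕ) : ℝ) * (-(hh X ^ 2 * (u ^ 2 - (1 / X) ^ 2) / 4) - u / 2)) ≤
        2 * Real.exp (-(hh X ^ 2 * u ^ 2 / 2) - u) := by
      have e3 : ((2 : ℕ) : ℝ) * (-(hh X ^ 2 * (u ^ 2 - (1 / X) ^ 2) / 4) - u / 2) =
          hh X ^ 2 * (1 / X) ^ 2 / 2 + (-(hh X ^ 2 * u ^ 2 / 2) - u) := by push_cast; ring
      rw [e3, Real.exp_add]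
      gcongr
      have e4 : hh X ^ 2 * (1 / X) ^ 2 / 2 ≤ 1 / 2 := by
        have : hh X ^ 2 * (1 / X) ^ 2 ≤ 1 := by
          rw [← mul_pow, mul_one_div]
          apply pow_le_one₀ (by positivity)
          rw [div_le_one (by linarith)]; exact hhX
        linarith
      calc Real.exp (hh X ^ 2 * (1 / X) ^ 2 / 2) ≤ Real.exp (1 / 2) := Real.exp_le_exp.2 e4
        _ ≤ 2 := by
            have h9 : Real.exp (1 / 2) ^ 2 = Real.exp 1 := by rw [← Real.exp_nat_mul]; norm_num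
            have h10 := Real.exp_one_lt_d9
            nlinarith [Real.exp_pos (1 / 2)]
    calc _ ≤ hh X ^ 2 / (4 * Real.pi) * (2 * Real.exp (-(hh X ^ 2 * u ^ 2 / 2) - u)) *
          ‖P1 (om x (1 / X) u)‖ ^ 2 := by gcongr
      _ = _ := by ring
  have hI8 : Integrable (fun u : ℝ => Real.exp (-(hh X ^ 2 * u ^ 2 / 2) - u) * ‖P1 (om x (1 / X) u)‖ ^ 2) := by
    have hm : AEStronglyMeasurable (fun u : ℝ => P1 (om x (1 / X) u)) := by
      have hη : 0 < 1 / X := by positivity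
      have hη1 : 1 / X ≤ 1 := by rw [div_le_one (by linarith)]; linarith
      have hsin : 0 < Real.sin (1 / X) := Real.sin_pos_of_pos_of_lt_pi hη (by linarith [Real.pi_gt_three])
      have hoc : Continuous (om x (1 / X)) := by unfold om; fun_prop
      refine aestronglyMeasurable_of_tendsto_ae atTop
        (f := fun (N : ℕ) (u : ℝ) => ∑ n ∈ Finset.range N, mu n * Complex.exp (-(n * om x (1 / X) u)))
        (fun N => ?_) (Eventually.of_forall fun u => ?_)
      · apply Continuous.aestronglyMeasurable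
        fun_prop
      · have hre : 0 < (om x (1 / X) u).re := by rw [om_re]; positivity
        exact (norm_P1_le hre).2.tendsto_sum_nat
    refine ((gauss_lin_int (b := hh X ^ 2 / 2) (by positivity) 1 0).const_mul ((2 * X / x) ^ 2)).mono'
      (AEStronglyMeasurable.mul (by fun_prop) (hm.norm.pow 2)) (Eventually.of_forall fun u => ?_)
    rw [Real.norm_of_nonneg (by positivity)]
    calc _ ≤ Real.exp (-(hh X ^ 2 * u ^ 2 / 2) - u) * (2 * X / x * Real.exp u) ^ 2 := by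
          gcongr
          exact P1_om_le hx hX u
      _ = (2 * X / x) ^ 2 * (Real.exp (-(hh X ^ 2 * u ^ 2 / 2) - u) * Real.exp u ^ 2) := by ring
      _ = _ := by
          rw [← Real.exp_nat_mul, ← Real.exp_add]
          congr 2
          push_cast
          ring
  calc ∫ T in Icc X (2 * X), ‖Sg x X T‖ ^ 2 ≤ ∫ T in Icc X (2 * X), Real.exp 4 * ‖𝓕 (ff x X) (T / (2 * Real.pi))‖ ^ 2 :=
        setIntegral_mono_on ((hSc.norm.pow 2).continuousOn.integrableOn_compact isCompact_Icc)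
          (h5.const_mul _).integrableOn measurableSet_Icc h7
    _ ≤ ∫ T : ℝ, Real.exp 4 * ‖𝓕 (ff x X) (T / (2 * Real.pi))‖ ^ 2 :=
        setIntegral_le_integral (h5.const_mul _) (Eventually.of_forall fun T => by positivity)
    _ = Real.exp 4 * (2 * Real.pi * ∫ t, ‖ff x X t‖ ^ 2) := by rw [integral_const_mul, h6]
    _ ≤ Real.exp 4 * (2 * Real.pi * ∫ u : ℝ, hh X ^ 2 / (4 * Real.pi) * 2 *
      (Real.exp (-(hh X ^ 2 * u ^ 2 / 2) - u) * ‖P1 (om x (1 / X) u)‖ ^ 2)) := by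
        refine mul_le_mul_of_nonneg_left (mul_le_mul_of_nonneg_left ?_ (by positivity)) (Real.exp_pos _).le
        exact integral_mono ((memLp_two_iff_integrable_sq_norm h1.aestronglyMeasurable).1 h2)
          (hI8.const_mul _) h8
    _ = Real.exp 4 * hh X ^ 2 * ∫ u : ℝ, Real.exp (-(hh X ^ 2 * u ^ 2 / 2) - u) * ‖P1 (om x (1 / X) u)‖ ^ 2 := by
        rw [integral_const_mul]
        field_simp
        ring
    _ ≤ _ := by
        have h10 : Real.exp 4 ≤ 100 := by
          have h9 : Real.exp 4 = Real.exp 1 ^ 4 := by rw [← Real.exp_nat_mul]; norm_num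
          rw [h9]
          calc Real.exp 1 ^ 4 ≤ 2.72 ^ 4 := by
                have := Real.exp_one_lt_d9
                gcongr
                linarith
            _ ≤ 100 := by norm_num
        have h11 : 0 ≤ ∫ u : ℝ, Real.exp (-(hh X ^ 2 * u ^ 2 / 2) - u) * ‖P1 (om x (1 / X) u)‖ ^ 2 :=
          integral_nonneg fun _ => by positivity
        gcongr

end Pool.Agent.Helper44K9.AR
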