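import Pool.Agent.Helper44K9.AR.Ms1
import Pool.Agent.Helper44K9.AR.Plan
import Pool.Agent.TH823.MRS.Fun

/-! The mean square of the power series of the Moebius function on short arcs. -/

set_option autoImplicit false

namespace Pool.Agent.Helper44K9.AR

open Complex Finset MeasureTheory
open Pool.Agent.H807R2.Dav (ee norm_ee)
open Pool.Agent.TH823.MRS (mob expo_mob)

/-- the dual weights -/
noncomputable def Tn (a b κ : ℝ) (N n : ℕ) : ℂ :=
  ∑ m ∈ Icc 1 N, mu m * Complex.exp ((m * b : ℝ) * I) * EE a b κ n m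

lemma Tn_norm {a b κ : ℝ} {N n : ℕ} (ha : 0 < a) (hb : 0 < b) (hκ : 0 < κ) (hn : n ≤ N)
    (hN : (2 * N + 1) * a ≤ 2 * κ ^ 2) :
    ‖Tn a b κ N n‖ ≤ Real.exp (-(n * a / 2)) * (2 + 4 * (2 * κ / b)) := by
  have hnN : (n : ℝ) ≤ N := by exact_mod_cast hn
  unfold Tn
  calc _ ≤ ∑ m ∈ Icc 1 N, ‖mu m * Complex.exp ((m * b : ℝ) * I) * EE a b κ n m‖ := norm_sum_le _ _
    _ ≤ ∑ m ∈ Icc 1 N, Real.exp (-(n * a / 2)) * ww (2 * κ / b) ((n : ℝ) - m) := by
        refine sum_le_sum fun m hm => ?_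
        rw [mem_Icc] at hm
        have hmN : (m : ℝ) ≤ N := by exact_mod_cast hm.2
        have h0 : 0 ≤ ((n : ℝ) + m) * a := by positivity
        have h1 : ((n : ℝ) + m) * a ≤ 2 * κ ^ 2 :=
          le_trans (mul_le_mul_of_nonneg_right (by linarith) ha.le) hN
        rw [norm_mul, norm_mul, Complex.norm_exp_ofReal_mul_I, mul_one]
        have h2 := norm_EE_le hb hκ h0 h1
        have h3 : Real.exp (-(((n : ℝ) + m) * a / 2)) ≤ Real.exp (-(n * a / 2)) := by
          apply Real.exp_le_exp.2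
          have : 0 ≤ (m : ℝ) * a := by positivity
          linarith
        calc ‖mu m‖ * ‖EE a b κ n m‖ ≤ 1 * (Real.exp (-(((n : ℝ) + m) * a / 2)) * ww (2 * κ / b) ((n : ℝ) - m)) := by
              gcongr
              exact norm_mu m
          _ ≤ _ := by
              rw [one_mul]
              have := ww_nonneg (2 * κ / b) ((n : ℝ) - m)
              gcongr
    _ = Real.exp (-(n * a / 2)) * ∑ m ∈ Icc 1 N, ww (2 * κ / b) ((n : ℝ) - m) := by rw [mul_sum]
    _ ≤ _ := by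
        gcongr
        exact sum_ww _ (by positivity) n N

lemma Tn_diff {a b κ : ℝ} {N n : ℕ} (ha : 0 < a) (hb : 0 < b) (hκ : 0 < κ) (hn : n ≤ N)
    (hN : (2 * N + 1) * a ≤ 2 * κ ^ 2) :
    ‖Tn a b κ N (n + 1) - Tn a b κ N n‖ ≤
      (a + (a + b) * (a + 2 * b + 2) / (4 * κ ^ 2) + (a + b) / κ) * (2 * (2 + 4 * (2 * κ / b))) := by
  have hnN : (n : ℝ) ≤ N := by exact_mod_cast hn
  unfold Tn
  rw [← sum_sub_distrib]
  set K := (a + (a + b) * (a + 2 * b + 2) / (4 * κ ^ 2) + (a + b) / κ) with hK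
  have hK0 : 0 ≤ K := by positivity
  calc _ ≤ ∑ m ∈ Icc 1 N, ‖mu m * Complex.exp ((m * b : ℝ) * I) * EE a b κ ((n + 1 : ℕ) : ℝ) m -
        mu m * Complex.exp ((m * b : ℝ) * I) * EE a b κ n m‖ := norm_sum_le _ _
    _ ≤ ∑ m ∈ Icc 1 N, K * (ww (2 * κ / b) ((n : ℝ) - m) + ww (2 * κ / b) (((n + 1 : ℕ) : ℝ) - m)) := by
        refine sum_le_sum fun m hm => ?_
        rw [mem_Icc] at hm
        have hmN : (m : ℝ) ≤ N := by exact_mod_cast hm.2
        have h1 : ((n : ℝ) + 1 + m) * a ≤ 2 * κ ^ 2 :=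
          le_trans (mul_le_mul_of_nonneg_right (by linarith) ha.le) hN
        rw [← mul_sub, norm_mul, norm_mul, Complex.norm_exp_ofReal_mul_I, mul_one]
        have h2 := EE_diff ha hb hκ (Nat.cast_nonneg n) (Nat.cast_nonneg m) h1
        calc ‖mu m‖ * ‖EE a b κ ((n + 1 : ℕ) : ℝ) m - EE a b κ n m‖ ≤ 1 * (K *
              (ww (2 * κ / b) ((n : ℝ) - m) + ww (2 * κ / b) ((n : ℝ) + 1 - m))) := by
              gcongr
              · exact norm_mu m
              · push_cast; exact h2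
          _ = _ := by push_cast; ring
    _ = K * (∑ m ∈ Icc 1 N, ww (2 * κ / b) ((n : ℝ) - m) +
          ∑ m ∈ Icc 1 N, ww (2 * κ / b) (((n + 1 : ℕ) : ℝ) - m)) := by rw [← mul_sum, ← sum_add_distrib]
    _ ≤ _ := by
        have e1 := sum_ww (2 * κ / b) (by positivity) n N
        have e2 := sum_ww (2 * κ / b) (by positivity) (n + 1) N
        gcongr
        linarith

/-- the cutoff -/
noncomputable def chi (M n : ℕ) : ℝ := max 0 (min 1 ((3 * (M : ℝ) - n) / M))

lemma chi_nonneg (M n : ℕ) : 0 ≤ chi M n := le_max_left _ _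
lemma chi_le_one (M n : ℕ) : chi M n ≤ 1 := max_le (by norm_num) (min_le_left _ _)
lemma chi_zero {M n : ℕ} (h : 3 * M ≤ n) : chi M n = 0 := by
  unfold chi
  apply max_eq_left
  apply (min_le_right _ _).trans
  apply div_nonpos_of_nonpos_of_nonneg _ (Nat.cast_nonneg M)
  have : (3 : ℝ) * M ≤ n := by exact_mod_cast h
  linarith
lemma chi_one {M n : ℕ} (hM : 1 ≤ M) (h : n ≤ 2 * M) : chi M n = 1 := by
  unfold chi
  have hM0 : (0 : ℝ) < M := by exact_mod_cast hM
  have : (n : ℝ) ≤ 2 * M := by exact_mod_cast h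
  rw [min_eq_left, max_eq_right (by norm_num)]
  rw [le_div_iff₀ hM0]
  linarith
lemma chi_diff {M : ℕ} (hM : 1 ≤ M) (n : ℕ) : |chi M (n + 1) - chi M n| ≤ 1 / M := by
  unfold chi
  have hM0 : (0 : ℝ) < M := by exact_mod_cast hM
  refine (abs_max_sub_max_le_max _ _ _ _).trans ?_
  rw [sub_self, abs_zero]
  apply max_le (by positivity)
  refine (abs_min_sub_min_le_max _ _ _ _).trans ?_
  rw [sub_self, abs_zero]
  apply max_le (by positivity)
  rw [← sub_div]
  push_cast
  rw [show (3 * (M : ℝ) - (n + 1) - (3 * M - n)) = -1 by ring, abs_div, abs_neg, abs_one, abs_of_pos hM0]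

lemma lip_of_adj (T : ℕ → ℂ) (A : ℝ) (h : ∀ n, ‖T (n + 1) - T n‖ ≤ A) (n m : ℕ) :
    ‖T n - T m‖ ≤ A * |(n : ℝ) - m| := by
  have h1 : ∀ k n : ℕ, ‖T (n + k) - T n‖ ≤ A * k := by
    intro k
    induction k with
    | zero => intro n; simp
    | succ k ih =>
      intro n
      calc ‖T (n + (k + 1)) - T n‖ = ‖(T (n + k + 1) - T (n + k)) + (T (n + k) - T n)‖ := by
            rw [← add_assoc]; congr 1; ring
        _ ≤ A + A * k := (norm_add_le _ _).trans (add_le_add (h _) (ih n))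
        _ = A * ((k + 1 : ℕ) : ℝ) := by push_cast; ring
  rcases le_total m n with hmn | hmn
  · obtain ⟨k, rfl⟩ := Nat.exists_eq_add_of_le hmn
    have := h1 k m
    push_cast
    rwa [add_sub_cancel_left, Nat.abs_cast]
  · obtain ⟨k, rfl⟩ := Nat.exists_eq_add_of_le hmn
    have := h1 k n
    rw [norm_sub_rev]
    push_cast
    rwa [sub_add_cancel_left, abs_neg, Nat.abs_cast]

lemma geo_fin {t : ℝ} (ht : 0 < t) (N : ℕ) : ∑ n ∈ Icc 1 N, Real.exp (-(n * t)) ≤ 1 / t := by
  set r := Real.exp (-t) with hr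
  have hr0 : 0 < r := Real.exp_pos _
  have hr1 : r < 1 := by rw [hr, Real.exp_lt_one_iff]; linarith
  have e : ∀ n : ℕ, Real.exp (-(n * t)) = r ^ n := by
    intro n
    rw [hr, ← Real.exp_nat_mul]; congr 1; ring
  simp only [e]
  have h1 : ∑ n ∈ Icc 1 N, r ^ n = r * ∑ n ∈ range N, r ^ n := by
    clear hr
    induction N with
    | zero => simp
    | succ N ih => rw [sum_Icc_succ_top (by omega), sum_range_succ, ih]; ring
  have h2 : ∑ n ∈ range N, r ^ n ≤ (1 - r)⁻¹ := by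
    have := (hasSum_geometric_of_lt_one hr0.le hr1)
    exact sum_le_hasSum _ (fun n _ => by positivity) this
  have h3 : 0 < 1 - r := by linarith
  have h4 : r * (1 + t) ≤ 1 := by
    have h2 := Real.add_one_le_exp t
    calc r * (1 + t) ≤ r * Real.exp t := by gcongr; linarith
      _ = 1 := by rw [hr, ← Real.exp_add]; simp
  rw [h1]
  calc r * ∑ n ∈ range N, r ^ n ≤ r * (1 - r)⁻¹ := by gcongr
    _ ≤ 1 / t := by
        rw [← div_eq_mul_inv, div_le_div_iff₀ h3 ht]
        linarith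

lemma mob_eq (n : ℕ) : ((mob n : ℤ) : ℂ) = mu n := rfl

/-- the bilinear form is small -/
theorem bil_small (x : ℝ) (hx : 0 < x) (ε : ℝ) (hε : 0 < ε) : ∃ κ0 X0 C3 : ℝ, 1 ≤ κ0 ∧ 1 ≤ X0 ∧ 0 < C3 ∧
    ∀ X κ a b : ℝ, X0 ≤ X → κ0 ≤ κ → κ ≤ X → x / (2 * X) ≤ a → a ≤ x / X → x / 2 ≤ b → b ≤ x →
    ∀ N : ℕ, C3 * X ≤ N → (2 * N + 1) * a ≤ 2 * κ ^ 2 →
    ‖∑ n ∈ Icc 1 N, mu n * Complex.exp (-(n * b : ℝ) * I) * Tn a b κ N n‖ ≤ ε * κ * X := by
  set K2 : ℝ := 2 + 16 / x with hK2
  have hK2p : 2 ≤ K2 := by rw [hK2]; have : 0 < 16 / x := by positivity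
                           linarith
  have hK20 : 0 < K2 := by linarith
  -- the length of the sum
  obtain ⟨C2, hC2a, hC2b⟩ : ∃ C2 : ℝ, K2 ≤ C2 ∧ K2 * (8 / x) * Real.exp (-(C2 * x / 4)) ≤ ε / 2 := by
    refine ⟨max K2 (4 / x * (K2 * (8 / x) / (ε / 2))), le_max_left _ _, ?_⟩
    set C2 := max K2 (4 / x * (K2 * (8 / x) / (ε / 2))) with hC2
    have h1 : K2 * (8 / x) / (ε / 2) ≤ C2 * x / 4 := by
      have : 4 / x * (K2 * (8 / x) / (ε / 2)) ≤ C2 := le_max_right _ _
      calc K2 * (8 / x) / (ε / 2) = 4 / x * (K2 * (8 / x) / (ε / 2)) * x / 4 := by field_simp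
        _ ≤ C2 * x / 4 := by gcongr
    have h2 := Real.add_one_le_exp (C2 * x / 4)
    have h3 : K2 * (8 / x) / (ε / 2) ≤ Real.exp (C2 * x / 4) := by linarith
    rw [Real.exp_neg, ← div_eq_mul_inv, div_le_iff₀ (Real.exp_pos _)]
    rw [div_le_iff₀ (by positivity)] at h3
    linarith
  have hC20 : 0 < C2 := by linarith
  set A : ℝ := 2 * K2 * (x + x * (3 * x + 2) / 2 + 2 * x) + 1 with hA
  set ε1 : ℝ := ε / 2 / (K2 * (C2 + 1)) with hε1
  have hε10 : 0 < ε1 := by positivity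
  obtain ⟨H0, M0, hexp⟩ := expo_mob ε1 hε10 A (by positivity)
  refine ⟨max 1 H0, max 1 M0, 3 * (C2 + 1), le_max_left _ _, le_max_left _ _, by positivity,
    fun X κ a b hX hκ0 hκX ha1 ha2 hb1 hb2 N hN hNa => ?_⟩
  have hX1 : 1 ≤ X := (le_max_left _ _).trans hX
  have hX0 : 0 < X := by linarith
  have hκ1 : 1 ≤ κ := (le_max_left _ _).trans hκ0
  have hκ : 0 < κ := by linarith
  have ha : 0 < a := lt_of_lt_of_le (by positivity) ha1
  have hb : 0 < b := lt_of_lt_of_le (by positivity) hb1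
  have hσ : 2 + 4 * (2 * κ / b) ≤ K2 * κ := by
    have h1 : 2 * κ / b ≤ 2 * κ / (x / 2) := by gcongr
    have h2 : 4 * (2 * κ / (x / 2)) = 16 / x * κ := by field_simp; ring
    rw [hK2]
    nlinarith
  set M : ℕ := ⌈C2 * X⌉₊ with hM
  have hM1 : C2 * X ≤ M := Nat.le_ceil _
  have hM2 : (M : ℝ) ≤ (C2 + 1) * X := by
    have := Nat.ceil_lt_add_one (show 0 ≤ C2 * X by positivity)
    nlinarith
  have hXM : X ≤ M := by nlinarith
  have hM10 : 1 ≤ M := by
    have : (1 : ℝ) ≤ M := hX1.trans hXM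
    exact_mod_cast this
  have hM0r : (0 : ℝ) < M := by linarith
  have hM0 : M0 ≤ M := by
    have : (M0 : ℝ) ≤ M := ((le_max_right _ _).trans hX).trans hXM
    exact_mod_cast this
  have h3M : 3 * M ≤ N := by
    have : (3 : ℝ) * M ≤ N := by
      refine le_trans ?_ hN
      nlinarith
    exact_mod_cast this
  have hKM : K2 * κ ≤ M := by
    calc K2 * κ ≤ C2 * X := by gcongr
      _ ≤ M := hM1
  have hTn : ∀ n : ℕ, n ≤ N → ‖Tn a b κ N n‖ ≤ Real.exp (-(n * a / 2)) * (K2 * κ) := by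
    intro n hn
    refine (Tn_norm ha hb hκ hn hNa).trans ?_
    gcongr
  have hTn1 : ∀ n : ℕ, n ≤ N → ‖Tn a b κ N n‖ ≤ K2 * κ := by
    intro n hn
    refine (hTn n hn).trans ?_
    have : Real.exp (-(n * a / 2)) ≤ 1 := by
      rw [Real.exp_le_one_iff]
      have : 0 ≤ (n : ℝ) * a := by positivity
      linarith
    have h0 : 0 < K2 * κ := by positivity
    nlinarith
  have hdiff : ∀ n : ℕ, n ≤ N → ‖Tn a b κ N (n + 1) - Tn a b κ N n‖ ≤ A - 1 := by
    intro n hn
    refine (Tn_diff ha hb hκ hn hNa).trans ?_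
    have e1 : a * κ ≤ x := by
      calc a * κ ≤ x / X * X := by gcongr
        _ = x := by field_simp
    have hax : a ≤ x := by nlinarith
    have e2 : (a + b) * (a + 2 * b + 2) / (4 * κ ^ 2) * κ ≤ x * (3 * x + 2) / 2 := by
      have h1 : (a + b) * (a + 2 * b + 2) ≤ (x + x) * (x + 2 * x + 2) := by gcongr
      calc (a + b) * (a + 2 * b + 2) / (4 * κ ^ 2) * κ = (a + b) * (a + 2 * b + 2) / (4 * κ) := by
            field_simp
        _ ≤ (x + x) * (x + 2 * x + 2) / (4 * 1) := by gcongr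
        _ = _ := by ring
    have e3 : (a + b) / κ * κ ≤ 2 * x := by
      rw [div_mul_cancel₀ _ hκ.ne']
      linarith
    calc (a + (a + b) * (a + 2 * b + 2) / (4 * κ ^ 2) + (a + b) / κ) * (2 * (2 + 4 * (2 * κ / b))) ≤
        (a + (a + b) * (a + 2 * b + 2) / (4 * κ ^ 2) + (a + b) / κ) * (2 * (K2 * κ)) := by gcongr
      _ = 2 * K2 * (a * κ + (a + b) * (a + 2 * b + 2) / (4 * κ ^ 2) * κ + (a + b) / κ * κ) := by ring
      _ ≤ 2 * K2 * (x + x * (3 * x + 2) / 2 + 2 * x) := by gcongr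
      _ = A - 1 := by rw [hA]; ring
  -- the smoothed weights
  set T' : ℕ → ℂ := fun n => (chi M n : ℂ) * Tn a b κ N n with hT'
  have hT'0 : ∀ n : ℕ, 3 * M ≤ n → T' n = 0 := by
    intro n hn
    simp only [hT']
    rw [chi_zero hn]; simp
  have hT'n : ∀ n, ‖T' n‖ ≤ K2 * κ := by
    intro n
    rcases le_or_gt (3 * M) n with h | h
    · rw [hT'0 n h, norm_zero]; positivity
    · simp only [hT']
      rw [norm_mul, Complex.norm_real, Real.norm_of_nonneg (chi_nonneg M n)]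
      calc chi M n * ‖Tn a b κ N n‖ ≤ 1 * (K2 * κ) := by
            gcongr
            · exact chi_le_one M n
            · exact hTn1 n (by omega)
        _ = _ := one_mul _
  have hadj : ∀ n, ‖T' (n + 1) - T' n‖ ≤ A := by
    intro n
    rcases le_or_gt (3 * M) n with h | h
    · rw [hT'0 n h, hT'0 (n + 1) (by omega), sub_zero, norm_zero]; positivity
    · simp only [hT']
      have e : (chi M (n + 1) : ℂ) * Tn a b κ N (n + 1) - (chi M n : ℂ) * Tn a b κ N n =
          (chi M (n + 1) : ℂ) * (Tn a b κ N (n + 1) - Tn a b κ N n) +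
          ((chi M (n + 1) - chi M n : ℝ) : ℂ) * Tn a b κ N n := by push_cast; ring
      rw [e]
      refine (norm_add_le _ _).trans ?_
      rw [norm_mul, norm_mul, Complex.norm_real, Complex.norm_real, Real.norm_of_nonneg (chi_nonneg _ _),
        Real.norm_eq_abs]
      have i1 : chi M (n + 1) * ‖Tn a b κ N (n + 1) - Tn a b κ N n‖ ≤ 1 * (A - 1) := by
        gcongr
        · exact chi_le_one _ _
        · exact hdiff n (by omega)
      have i2 : |chi M (n + 1) - chi M n| * ‖Tn a b κ N n‖ ≤ 1 / M * M := by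
        gcongr
        · exact chi_diff hM10 n
        · exact (hTn1 n (by omega)).trans hKM
      have i3 : (1 : ℝ) / M * M = 1 := by field_simp
      linarith
  have hmain := hexp M hM0 (K2 * κ) (((le_max_right _ _).trans hκ0).trans (by nlinarith)) hKM T' hT'n
    (lip_of_adj T' A hadj) (fun n hn => hT'0 n hn.le) (-b / (2 * Real.pi))
  have hph : ∀ n : ℕ, ee ((n : ℝ) * (-b / (2 * Real.pi))) = Complex.exp (-(n * b : ℝ) * I) := by
    intro n
    unfold ee
    congr 1
    push_cast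
    have hpi : (Real.pi : ℂ) ≠ 0 := by exact_mod_cast Real.pi_ne_zero
    field_simp
  simp only [hph, mob_eq] at hmain
  -- the decomposition
  have hdec : ∑ n ∈ Icc 1 N, mu n * Complex.exp (-(n * b : ℝ) * I) * Tn a b κ N n =
      ∑ n ∈ Icc 1 (3 * M), mu n * Complex.exp (-(n * b : ℝ) * I) * T' n +
      ∑ n ∈ Icc 1 N, mu n * Complex.exp (-(n * b : ℝ) * I) * ((1 - chi M n : ℝ) * Tn a b κ N n) := by
    have e1 : ∑ n ∈ Icc 1 (3 * M), mu n * Complex.exp (-(n * b : ℝ) * I) * T' n =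
        ∑ n ∈ Icc 1 N, mu n * Complex.exp (-(n * b : ℝ) * I) * T' n := by
      apply sum_subset (Icc_subset_Icc_right h3M)
      intro n hn hn2
      rw [mem_Icc] at hn hn2
      rw [hT'0 n (by omega), mul_zero]
    rw [e1, ← sum_add_distrib]
    apply sum_congr rfl
    intro n _
    simp only [hT']
    push_cast
    ring
  have htail : ‖∑ n ∈ Icc 1 N, mu n * Complex.exp (-(n * b : ℝ) * I) * ((1 - chi M n : ℝ) * Tn a b κ N n)‖ ≤
      ε / 2 * κ * X := by
    calc _ ≤ ∑ n ∈ Icc 1 N, ‖mu n * Complex.exp (-(n * b : ℝ) * I) * ((1 - chi M n : ℝ) * Tn a b κ N n)‖ :=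
          norm_sum_le _ _
      _ ≤ ∑ n ∈ Icc 1 N, Real.exp (-(C2 * x / 4)) * (K2 * κ) * Real.exp (-(n * (a / 4))) := by
          refine sum_le_sum fun n hn => ?_
          rw [mem_Icc] at hn
          rcases le_or_gt n (2 * M) with h | h
          · rw [chi_one hM10 h, sub_self, Complex.ofReal_zero, zero_mul, mul_zero, norm_zero]
            positivity
          · have hphn : ‖Complex.exp (-(n * b : ℝ) * I)‖ = 1 := by
              have : (-((n * b : ℝ) : ℂ)) = ((-(n * b) : ℝ) : ℂ) := by push_cast; ring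
              rw [this, Complex.norm_exp_ofReal_mul_I]
            rw [norm_mul, norm_mul, norm_mul, hphn, mul_one, Complex.norm_real,
              Real.norm_of_nonneg (by linarith [chi_le_one M n])]
            have h5 : (2 : ℝ) * M < n := by exact_mod_cast h
            have h6 : Real.exp (-(n * a / 2)) ≤ Real.exp (-(C2 * x / 4)) * Real.exp (-(n * (a / 4))) := by
              rw [← Real.exp_add]
              apply Real.exp_le_exp.2
              have h7 : C2 * x ≤ n * a := by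
                calc C2 * x = 2 * (C2 * X) * (x / (2 * X)) := by field_simp
                  _ ≤ 2 * M * a := by gcongr
                  _ ≤ n * a := by gcongr
              linarith
            have hc1 : 0 ≤ 1 - chi M n := by linarith [chi_le_one M n]
            have hc2 : 1 - chi M n ≤ 1 := by linarith [chi_nonneg M n]
            calc ‖mu n‖ * ((1 - chi M n) * ‖Tn a b κ N n‖) ≤ 1 * (1 * (Real.exp (-(n * a / 2)) * (K2 * κ))) :=
                  mul_le_mul (norm_mu n) (mul_le_mul hc2 (hTn n hn.2) (norm_nonneg _) (by norm_num))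
                    (mul_nonneg hc1 (norm_nonneg _)) (by norm_num)
              _ = Real.exp (-(n * a / 2)) * (K2 * κ) := by ring
              _ ≤ (Real.exp (-(C2 * x / 4)) * Real.exp (-(n * (a / 4)))) * (K2 * κ) := by gcongr
              _ = _ := by ring
      _ = Real.exp (-(C2 * x / 4)) * (K2 * κ) * ∑ n ∈ Icc 1 N, Real.exp (-(n * (a / 4))) := by rw [mul_sum]
      _ ≤ Real.exp (-(C2 * x / 4)) * (K2 * κ) * (1 / (a / 4)) := by
          gcongr
          exact geo_fin (by positivity) N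
      _ ≤ Real.exp (-(C2 * x / 4)) * (K2 * κ) * (8 / x * X) := by
          gcongr
          rw [one_div_div, div_le_iff₀ ha]
          calc (4 : ℝ) = 8 / x * X * (x / (2 * X)) := by field_simp; norm_num
            _ ≤ _ := by gcongr
      _ = K2 * (8 / x) * Real.exp (-(C2 * x / 4)) * κ * X := by ring
      _ ≤ ε / 2 * κ * X := by gcongr
  rw [hdec]
  refine (norm_add_le _ _).trans ?_
  have hfin : ε1 * (K2 * κ) * M ≤ ε / 2 * κ * X := by
    calc ε1 * (K2 * κ) * M ≤ ε1 * (K2 * κ) * ((C2 + 1) * X) := by gcongr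
      _ = ε / 2 * κ * X := by rw [hε1]; field_simp
  calc _ ≤ ε1 * (K2 * κ) * M + ε / 2 * κ * X := add_le_add hmain htail
    _ ≤ ε / 2 * κ * X + ε / 2 * κ * X := by gcongr
    _ = _ := by ring

end Pool.Agent.Helper44K9.AR
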