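import Pool.Agent.Helper44K9.AR.Ms2

/-! The mean square of the power series of the Moebius function on short arcs, II. -/

set_option autoImplicit false

namespace Pool.Agent.Helper44K9.AR

open Complex Finset MeasureTheory

noncomputable def PN (a b : ℝ) (N : ℕ) (y : ℝ) : ℂ := ∑ n ∈ Icc 1 N, mu n * Complex.exp (-(n * (y * (a + b * I))))

lemma conj_mu (n : ℕ) : (starRingEnd ℂ) (mu n) = mu n := by
  unfold mu
  exact map_intCast _ _

lemma gauss_term {κ : ℝ} (hκ : 0 < κ) (a b n m : ℝ) :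
    Integrable (fun y : ℝ => Complex.exp ((-(κ : ℂ) ^ 2) * y ^ 2 + (2 * κ ^ 2 - BB a b n m) * y + (-(κ : ℂ) ^ 2))) ∧
    ∫ y : ℝ, Complex.exp ((-(κ : ℂ) ^ 2) * y ^ 2 + (2 * κ ^ 2 - BB a b n m) * y + (-(κ : ℂ) ^ 2)) =
      (√Real.pi / κ : ℝ) * (Complex.exp (-(n * b : ℝ) * I) * Complex.exp ((m * b : ℝ) * I) * EE a b κ n m) := by
  have hκc : (κ : ℂ) ≠ 0 := by exact_mod_cast hκ.ne'
  have hb : (-(κ : ℂ) ^ 2).re < 0 := by
    have : (-(κ : ℂ) ^ 2) = ((-κ ^ 2 : ℝ) : ℂ) := by push_cast; ring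
    rw [this, Complex.ofReal_re]
    have : 0 < κ ^ 2 := by positivity
    linarith
  constructor
  · exact integrable_cexp_quadratic' hb _ _
  rw [integral_cexp_quadratic hb]
  have e2 : ((Real.pi : ℂ) / -(-(κ : ℂ) ^ 2)) ^ (1 / 2 : ℂ) = ((√Real.pi / κ : ℝ) : ℂ) := by
    have e3 : (Real.pi : ℂ) / -(-(κ : ℂ) ^ 2) = (((√Real.pi / κ) ^ 2 : ℝ) : ℂ) := by
      rw [div_pow, Real.sq_sqrt Real.pi_pos.le]
      push_cast
      rw [neg_neg]
    rw [e3, show (1 / 2 : ℂ) = ((1 / 2 : ℝ) : ℂ) by push_cast; ring,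
      ← Complex.ofReal_cpow (by positivity), ← Real.sqrt_eq_rpow, Real.sqrt_sq (by positivity)]
  rw [e2]
  congr 1
  unfold EE
  rw [← Complex.exp_add, ← Complex.exp_add]
  congr 1
  have e4 : (-(κ : ℂ) ^ 2) - (2 * κ ^ 2 - BB a b n m) ^ 2 / (4 * -(κ : ℂ) ^ 2) =
      -BB a b n m + BB a b n m ^ 2 / (4 * κ ^ 2) := by
    field_simp
    ring
  rw [e4]
  have e5 : -BB a b n m = -(n * b : ℝ) * I + (m * b : ℝ) * I + -((n + m) * a : ℝ) := by
    unfold BB
    push_cast
    ring
  rw [e5]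
  push_cast
  ring

lemma Q_gauss {κ : ℝ} (hκ : 0 < κ) (a b : ℝ) (N : ℕ) :
    Integrable (fun y : ℝ => Real.exp (-(κ ^ 2 * (y - 1) ^ 2)) * ‖PN a b N y‖ ^ 2) ∧
    ((∫ y : ℝ, Real.exp (-(κ ^ 2 * (y - 1) ^ 2)) * ‖PN a b N y‖ ^ 2 : ℝ) : ℂ) =
      (√Real.pi / κ : ℝ) * ∑ n ∈ Icc 1 N, mu n * Complex.exp (-(n * b : ℝ) * I) * Tn a b κ N n := by
  have hpt : ∀ y : ℝ, ((Real.exp (-(κ ^ 2 * (y - 1) ^ 2)) * ‖PN a b N y‖ ^ 2 : ℝ) : ℂ) =
      ∑ n ∈ Icc 1 N, ∑ m ∈ Icc 1 N, mu n * mu m * Complex.exp ((-(κ : ℂ) ^ 2) * y ^ 2 +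
        (2 * κ ^ 2 - BB a b n m) * y + (-(κ : ℂ) ^ 2)) := by
    intro y
    rw [Complex.ofReal_mul, Complex.ofReal_pow, ← Complex.mul_conj', Complex.ofReal_exp]
    have hc : (starRingEnd ℂ) (PN a b N y) = ∑ m ∈ Icc 1 N, mu m * Complex.exp (-(m * (y * (a - b * I)))) := by
      unfold PN
      rw [map_sum]
      apply sum_congr rfl
      intro m _
      rw [map_mul, conj_mu, ← Complex.exp_conj]
      congr 2
      simp only [map_neg, map_mul, map_add, Complex.conj_I, Complex.conj_ofReal, Complex.conj_natCast]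
      ring
    rw [hc]
    unfold PN
    rw [sum_mul_sum, mul_sum]
    apply sum_congr rfl
    intro n _
    rw [mul_sum]
    apply sum_congr rfl
    intro m _
    rw [mul_mul_mul_comm, ← Complex.exp_add, mul_left_comm, ← Complex.exp_add]
    congr 2
    unfold BB
    push_cast
    ring
  have hint : ∀ n ∈ Icc 1 N, ∀ m ∈ Icc 1 N, Integrable (fun y : ℝ => mu n * mu m *
      Complex.exp ((-(κ : ℂ) ^ 2) * y ^ 2 + (2 * κ ^ 2 - BB a b n m) * y + (-(κ : ℂ) ^ 2))) :=
    fun n _ m _ => (gauss_term hκ a b n m).1.const_mul _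
  have hI : Integrable (fun y : ℝ => ((Real.exp (-(κ ^ 2 * (y - 1) ^ 2)) * ‖PN a b N y‖ ^ 2 : ℝ) : ℂ)) := by
    simp only [hpt]
    exact integrable_finsetSum _ fun n hn => integrable_finsetSum _ fun m hm => hint n hn m hm
  constructor
  · have := hI.re
    refine this.congr (Filter.Eventually.of_forall fun y => ?_)
    simp only [RCLike.re_to_complex, Complex.ofReal_re]
  · rw [← integral_complex_ofReal]
    simp only [hpt]
    rw [integral_finsetSum _ (fun n hn => integrable_finsetSum _ fun m hm => hint n hn m hm)]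
    rw [mul_sum]
    apply sum_congr rfl
    intro n hn
    rw [integral_finsetSum _ (fun m hm => hint n hn m hm)]
    unfold Tn
    rw [mul_sum, mul_sum]
    apply sum_congr rfl
    intro m hm
    rw [integral_const_mul, (gauss_term hκ a b n m).2]
    ring

lemma om_PN (x η u : ℝ) : om x η u = (Real.exp (-u) : ℝ) * ((x * Real.sin η : ℝ) + (x * Real.cos η : ℝ) * I) := by
  unfold om
  have e1 : Complex.exp (-(u + I * η)) = (Real.exp (-u) : ℝ) * ((Real.cos η : ℝ) - (Real.sin η : ℝ) * I) := by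
    have : (-(u + I * η) : ℂ) = ((-u : ℝ) : ℂ) + ((-η : ℝ) : ℂ) * I := by push_cast; ring
    rw [this, Complex.exp_add, Complex.exp_mul_I, ← Complex.ofReal_exp, ← Complex.ofReal_cos,
      ← Complex.ofReal_sin, Real.cos_neg, Real.sin_neg]
    push_cast
    ring
  rw [e1]
  push_cast
  linear_combination (-(x : ℂ) * Complex.exp (-(u : ℂ)) * Complex.sin (η : ℂ)) * Complex.I_sq

/-- truncation -/
lemma P1_tail {ω : ℂ} (hω : 0 < ω.re) (N : ℕ) :
    ‖P1 ω - ∑ n ∈ Icc 1 N, mu n * Complex.exp (-(n * ω))‖ ≤ Real.exp (-(N * ω.re)) * (1 / ω.re) := by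
  have hs := (norm_P1_le hω).2
  have hr1 : Real.exp (-ω.re) < 1 := by rw [Real.exp_lt_one_iff]; linarith
  have hr0 : 0 < Real.exp (-ω.re) := Real.exp_pos _
  set r := Real.exp (-ω.re) with hr
  have e0 : ∑ n ∈ Icc 1 N, mu n * Complex.exp (-(n * ω)) = ∑ n ∈ range (N + 1), mu n * Complex.exp (-(n * ω)) := by
    apply sum_subset
    · intro n hn
      rw [mem_Icc] at hn
      rw [mem_range]; omega
    · intro n hn hn2
      rw [mem_range] at hn
      rw [mem_Icc] at hn2
      have : n = 0 := by omega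
      rw [this, mu_zero, zero_mul]
  have hs2 := (hasSum_nat_add_iff' (N + 1)).2 hs
  rw [e0, ← hs2.tsum_eq]
  have hb : ∀ k : ℕ, ‖mu (k + (N + 1)) * Complex.exp (-(((k + (N + 1) : ℕ) : ℂ) * ω))‖ ≤ r ^ (N + 1) * r ^ k := by
    intro k
    rw [norm_mul, Complex.norm_exp, Complex.neg_re,
      show (((k + (N + 1) : ℕ) : ℂ)) = (((k + (N + 1) : ℕ) : ℝ) : ℂ) by push_cast; rfl, Complex.re_ofReal_mul,
      ← pow_add, hr, ← Real.exp_nat_mul]
    calc _ ≤ 1 * Real.exp (-(((k + (N + 1) : ℕ) : ℝ) * ω.re)) := by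
          gcongr
          exact norm_mu _
      _ = _ := by rw [one_mul]; congr 1; push_cast; ring
  refine (tsum_of_norm_bounded ((hasSum_geometric_of_lt_one hr0.le hr1).mul_left _) hb).trans ?_
  have h1 : r * (1 + ω.re) ≤ 1 := by
    have h2 := Real.add_one_le_exp ω.re
    calc r * (1 + ω.re) ≤ r * Real.exp ω.re := by gcongr; linarith
      _ = 1 := by rw [hr, ← Real.exp_add]; simp
  have h3 : 0 < 1 - r := by linarith
  have h4 : Real.exp (-(N * ω.re)) = r ^ N := by rw [hr, ← Real.exp_nat_mul]; congr 1; ring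
  rw [h4, pow_succ, mul_assoc]
  gcongr
  rw [← div_eq_mul_inv, div_le_div_iff₀ h3 hω]
  linarith

lemma log_low {y : ℝ} (h1 : Real.exp (-1) ≤ y) (h2 : y ≤ Real.exp 1) : (y - 1) ^ 2 / 9 ≤ Real.log y ^ 2 := by
  have hy : 0 < y := lt_of_lt_of_le (Real.exp_pos _) h1
  have hy3 : y ≤ 3 := by linarith [Real.exp_one_lt_d9]
  rcases le_total 1 y with h | h
  · have h3 := Real.one_sub_inv_le_log_of_pos hy
    have h4 : (y - 1) / 3 ≤ 1 - y⁻¹ := by
      have e : 1 - y⁻¹ = (y - 1) / y := by field_simp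
      rw [e]
      apply div_le_div_of_nonneg_left (by linarith) hy hy3
    have h5 : 0 ≤ (y - 1) / 3 := by linarith
    nlinarith
  · have h3 := Real.log_le_sub_one_of_pos hy
    nlinarith

/-- the inner part: change of variables -/
lemma inner_bd {κ h : ℝ} (hκ : 0 < κ) (hκh : 18 * κ ^ 2 ≤ h ^ 2) (a b : ℝ) (N : ℕ) :
    ∫ u in (-1 : ℝ)..1, Real.exp (-(h ^ 2 * u ^ 2 / 2) - u) * ‖PN a b N (Real.exp (-u))‖ ^ 2 ≤
      ∫ y : ℝ, Real.exp (-(κ ^ 2 * (y - 1) ^ 2)) * ‖PN a b N y‖ ^ 2 := by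
  have hPc : Continuous (PN a b N) := by unfold PN; fun_prop
  set g : ℝ → ℝ := fun y => Real.exp (-(h ^ 2 * Real.log y ^ 2 / 2)) * ‖PN a b N y‖ ^ 2 with hg
  have hle : Real.exp (-1) ≤ Real.exp 1 := Real.exp_le_exp.2 (by norm_num)
  have hgc : ContinuousOn g (Set.Icc (Real.exp (-1)) (Real.exp 1)) := by
    apply ContinuousOn.mul
    · apply ContinuousOn.rexp
      apply ContinuousOn.neg
      apply ContinuousOn.div_const
      apply ContinuousOn.mul continuousOn_const
      apply ContinuousOn.pow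
      apply Real.continuousOn_log.mono
      intro y hy
      have := lt_of_lt_of_le (Real.exp_pos (-1)) hy.1
      simpa using this.ne'
    · exact (hPc.norm.pow 2).continuousOn
  have hsub : ∫ u in (-1 : ℝ)..1, Real.exp (-(h ^ 2 * u ^ 2 / 2) - u) * ‖PN a b N (Real.exp (-u))‖ ^ 2 =
      ∫ y in (Real.exp (-1))..(Real.exp 1), g y := by
    have h1 : ∀ u ∈ Set.uIcc (-1 : ℝ) 1, HasDerivAt (fun u : ℝ => Real.exp (-u)) (-Real.exp (-u)) u := by
      intro u _
      have := (hasDerivAt_neg u).exp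
      simpa using this
    have himg : (fun u : ℝ => Real.exp (-u)) '' (Set.uIcc (-1 : ℝ) 1) ⊆ Set.Icc (Real.exp (-1)) (Real.exp 1) := by
      rintro _ ⟨u, hu, rfl⟩
      rw [Set.uIcc_of_le (by norm_num)] at hu
      exact ⟨Real.exp_le_exp.2 (by linarith [hu.2]), Real.exp_le_exp.2 (by linarith [hu.1])⟩
    have h2 := intervalIntegral.integral_comp_mul_deriv' (f := fun u : ℝ => Real.exp (-u))
      (f' := fun u => -Real.exp (-u)) (g := g) (a := (-1 : ℝ)) (b := 1) h1 (by fun_prop) (hgc.mono himg)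
    simp only [neg_neg] at h2
    rw [intervalIntegral.integral_symm (Real.exp (-1)) (Real.exp 1)] at h2
    have h3 : ∫ y in (Real.exp (-1))..(Real.exp 1), g y = - ∫ u in (-1 : ℝ)..1, (g ∘ fun u : ℝ => Real.exp (-u)) u * -Real.exp (-u) := by
      rw [h2, neg_neg]
    rw [h3, ← intervalIntegral.integral_neg]
    apply intervalIntegral.integral_congr
    intro u _
    simp only [hg, Function.comp_apply, Real.log_exp]
    rw [sub_eq_add_neg, Real.exp_add]
    ring_nf
  rw [hsub, intervalIntegral.integral_of_le hle]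
  have hQ := (Q_gauss hκ a b N).1
  refine le_trans ?_ (setIntegral_le_integral (s := Set.Ioc (Real.exp (-1)) (Real.exp 1)) hQ
    (Filter.Eventually.of_forall fun y => by positivity))
  apply setIntegral_mono_on _ hQ.integrableOn measurableSet_Ioc
  · intro y hy
    simp only [hg]
    have h4 := log_low hy.1.le hy.2
    have h5 : κ ^ 2 * (y - 1) ^ 2 ≤ h ^ 2 * Real.log y ^ 2 / 2 := by
      calc κ ^ 2 * (y - 1) ^ 2 = 18 * κ ^ 2 * ((y - 1) ^ 2 / 9) / 2 := by ring
        _ ≤ h ^ 2 * Real.log y ^ 2 / 2 := by gcongr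
    have h6 := Real.exp_le_exp.2 (neg_le_neg h5)
    gcongr
  · exact (hgc.integrableOn_compact isCompact_Icc).mono_set Set.Ioc_subset_Icc_self

theorem ms_P1 (x : ℝ) (hx : 0 < x) (ε : ℝ) (hε : 0 < ε) : ∃ X0 : ℝ, 3 ≤ X0 ∧ ∀ X : ℝ, X0 ≤ X →
    ∫ u : ℝ, Real.exp (-(hh X ^ 2 * u ^ 2 / 2) - u) * ‖P1 (om x (1 / X) u)‖ ^ 2 ≤ ε * X := by
  obtain ⟨κ0, Y0, C3, hκ01, hY01, hC3, hbil⟩ := bil_small x hx (ε / 16) (by positivity)
  set K3 : ℝ := ∫ u : ℝ, Real.exp (-(1 / 4 * u ^ 2) + 1 * u + 0) with hK3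
  have hK30 : 0 ≤ K3 := integral_nonneg fun _ => (Real.exp_pos _).le
  obtain ⟨X1, hX1, h1⟩ := tiny (2 + |Real.log ((2 / x) ^ 2 * (K3 + 1))|)
  obtain ⟨X2, hX2, h2⟩ := ev_log (5 * κ0 + C3 + 63 * x + 6 / x * (1 + |Real.log (6 / x)|) + 1)
  obtain ⟨X3, hX3, h3⟩ := hh_small 1 one_pos
  refine ⟨max (max X1 X2) (max (max X3 Y0) (26 / ε)), by simp [hX1], fun X hX => ?_⟩
  rw [max_le_iff, max_le_iff, max_le_iff, max_le_iff] at hX
  obtain ⟨⟨hXa, hXb⟩, ⟨hXc, hXd⟩, hXe⟩ := hX
  have hX3' : 3 ≤ X := hX1.trans hXa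
  have hX0 : 0 < X := by linarith
  have h1 := h1 X hXa
  have h2 := h2 X hXb
  have h3 := h3 X hXc
  have hhX : hh X ≤ X := by
    rw [div_mul_eq_mul_div, one_mul, div_le_one hX0] at h3; exact h3
  have hl1 := log_ge_one hX3'
  set l := Real.log X with hl
  have hh1 := hh_pos hX3'
  have hhl : hh X = l ^ 2 := rfl
  have hhl2 : l ≤ hh X := by rw [hhl]; nlinarith
  have hp1 : 0 < 6 / x * (1 + |Real.log (6 / x)|) := by positivity
  have hp2 : 0 < 63 * x := by positivity
  set a : ℝ := x * Real.sin (1 / X) with ha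
  set b : ℝ := x * Real.cos (1 / X) with hb
  have hη : 0 < 1 / X := by positivity
  have hη1 : 1 / X ≤ 1 / 3 := one_div_le_one_div_of_le (by norm_num) hX3'
  have hs := sin_low hX3'
  have ha1 : x / (2 * X) ≤ a := by
    rw [ha]
    calc x / (2 * X) = x * (1 / (2 * X)) := by ring
      _ ≤ _ := by gcongr
  have ha2 : a ≤ x / X := by
    rw [ha]
    calc x * Real.sin (1 / X) ≤ x * (1 / X) := by
          gcongr
          exact Real.sin_le hη.le
      _ = _ := by ring
  have hb1 : x / 2 ≤ b := by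
    rw [hb]
    have := Real.one_sub_sq_div_two_le_cos (x := 1 / X)
    have h5 : (1 / X) ^ 2 ≤ (1 / 3) ^ 2 := by gcongr
    have h6 : (1 : ℝ) / 2 ≤ Real.cos (1 / X) := by linarith
    calc x / 2 = x * (1 / 2) := by ring
      _ ≤ _ := by gcongr
  have hb2 : b ≤ x := by
    rw [hb]
    calc x * Real.cos (1 / X) ≤ x * 1 := by
          gcongr
          exact Real.cos_le_one _
      _ = x := mul_one x
  have ha0 : 0 < a := lt_of_lt_of_le (by positivity) ha1
  set κ : ℝ := hh X / 5 with hκ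
  have hκ0 : κ0 ≤ κ := by rw [hκ]; nlinarith
  have hκp : 0 < κ := by linarith
  have hκX : κ ≤ X := by rw [hκ]; linarith
  set N : ℕ := ⌈X * hh X⌉₊ with hN
  have hN1 : X * hh X ≤ N := Nat.le_ceil _
  have hN2 : (N : ℝ) ≤ X * hh X + 1 := (Nat.ceil_lt_add_one (by positivity)).le
  have hNC : C3 * X ≤ N := by
    refine le_trans ?_ hN1
    rw [mul_comm X]
    gcongr
    nlinarith
  have hNa : (2 * N + 1) * a ≤ 2 * κ ^ 2 := by
    have h5 : (2 * N + 1) * a ≤ (2 * (X * hh X + 1) + 1) * (x / X) := by gcongr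
    have h6 : (2 * (X * hh X + 1) + 1) * (x / X) = 2 * hh X * x + 3 * (x / X) := by
      field_simp
      ring
    have h7 : x / X ≤ x := by
      rw [div_le_iff₀ hX0]
      nlinarith
    have h8 : 63 * x ≤ hh X := by nlinarith
    rw [hκ]
    nlinarith
  have hbil := hbil X κ a b hXd hκ0 hκX ha1 ha2 hb1 hb2 N hNC hNa
  -- the Gaussian integral
  have hQ : ∫ y : ℝ, Real.exp (-(κ ^ 2 * (y - 1) ^ 2)) * ‖PN a b N y‖ ^ 2 ≤ ε / 8 * X := by
    have h5 := (Q_gauss hκp a b N).2
    have h6 : 0 ≤ ∫ y : ℝ, Real.exp (-(κ ^ 2 * (y - 1) ^ 2)) * ‖PN a b N y‖ ^ 2 :=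
      integral_nonneg fun _ => by positivity
    have h7 := congrArg norm h5
    rw [Complex.norm_real, Real.norm_of_nonneg h6, norm_mul, Complex.norm_real,
      Real.norm_of_nonneg (by positivity)] at h7
    rw [h7]
    have h8 : √Real.pi ≤ 2 := by
      rw [Real.sqrt_le_left (by norm_num)]
      linarith [Real.pi_lt_d2]
    calc √Real.pi / κ * _ ≤ 2 / κ * (ε / 16 * κ * X) := by gcongr
      _ = ε / 8 * X := by field_simp; norm_num
  have hin := inner_bd (κ := κ) (h := hh X) hκp (by rw [hκ]; nlinarith) a b N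
  -- pointwise on `[-1, 1]`
  have hom : ∀ u : ℝ, om x (1 / X) u = (Real.exp (-u) : ℝ) * (a + b * I) := by
    intro u
    rw [om_PN, ha, hb]
  have hpt : ∀ u ∈ Set.Icc (-1 : ℝ) 1, ‖P1 (om x (1 / X) u)‖ ^ 2 ≤ 2 * ‖PN a b N (Real.exp (-u))‖ ^ 2 + 2 := by
    intro u hu
    have hre0 : x / (6 * X) ≤ (om x (1 / X) u).re := by
      rw [om_re]
      have h5 : (1 : ℝ) / 3 ≤ Real.exp (-u) := by
        calc (1 : ℝ) / 3 ≤ Real.exp (-1) := by
              rw [Real.exp_neg, ← one_div]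
              apply one_div_le_one_div_of_le (Real.exp_pos 1)
              linarith [Real.exp_one_lt_d9]
          _ ≤ _ := Real.exp_le_exp.2 (by linarith [hu.2])
      calc x / (6 * X) = x * (1 / 3) * (1 / (2 * X)) := by field_simp; norm_num
        _ ≤ _ := by gcongr
    have hre : 0 < (om x (1 / X) u).re := lt_of_lt_of_le (by positivity) hre0
    have ht := P1_tail hre N
    have hPN : ∑ n ∈ Icc 1 N, mu n * Complex.exp (-(n * om x (1 / X) u)) = PN a b N (Real.exp (-u)) := by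
      unfold PN
      rw [hom]
    rw [hPN] at ht
    have ht2 : Real.exp (-(N * (om x (1 / X) u).re)) * (1 / (om x (1 / X) u).re) ≤ 1 := by
      have h5 : Real.exp (-(N * (om x (1 / X) u).re)) ≤ Real.exp (-(hh X * x / 6)) := by
        apply Real.exp_le_exp.2
        apply neg_le_neg
        calc hh X * x / 6 = X * hh X * (x / (6 * X)) := by field_simp
          _ ≤ _ := by gcongr
      have h6 : 1 / (om x (1 / X) u).re ≤ 6 / x * X := by
        calc 1 / (om x (1 / X) u).re ≤ 1 / (x / (6 * X)) := by gcongr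
          _ = _ := by field_simp
      have h7 : 6 / x * X ≤ Real.exp (hh X * x / 6) := by
        have h8 : 6 / x * X = Real.exp (Real.log (6 / x) + l) := by
          rw [Real.exp_add, Real.exp_log (by positivity), Real.exp_log hX0]
        rw [h8]
        apply Real.exp_le_exp.2
        have h9 := le_abs_self (Real.log (6 / x))
        have h10 : 6 / x * (1 + |Real.log (6 / x)|) ≤ l := by nlinarith
        have h11 : 1 + |Real.log (6 / x)| ≤ l * x / 6 := by
          calc 1 + |Real.log (6 / x)| = 6 / x * (1 + |Real.log (6 / x)|) * x / 6 := by field_simp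
            _ ≤ _ := by gcongr
        have h12 := abs_nonneg (Real.log (6 / x))
        rw [hhl]
        nlinarith
      calc _ ≤ Real.exp (-(hh X * x / 6)) * (6 / x * X) := by gcongr
        _ ≤ Real.exp (-(hh X * x / 6)) * Real.exp (hh X * x / 6) := by gcongr
        _ = 1 := by rw [← Real.exp_add]; simp
    have h5 : ‖P1 (om x (1 / X) u)‖ ≤ ‖PN a b N (Real.exp (-u))‖ + 1 := by
      have := norm_sub_norm_le (P1 (om x (1 / X) u)) (PN a b N (Real.exp (-u)))
      linarith
    calc ‖P1 (om x (1 / X) u)‖ ^ 2 ≤ (‖PN a b N (Real.exp (-u))‖ + 1) ^ 2 := by gcongr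
      _ ≤ _ := by nlinarith [sq_nonneg (‖PN a b N (Real.exp (-u))‖ - 1)]
  set w : ℝ → ℝ := fun u => Real.exp (-(hh X ^ 2 * u ^ 2 / 2) - u) with hw
  have hm : AEStronglyMeasurable (fun u : ℝ => P1 (om x (1 / X) u)) := by
    have hsin : 0 < Real.sin (1 / X) := by
      have : 0 < 1 / (2 * X) := by positivity
      linarith
    have hoc : Continuous (om x (1 / X)) := by unfold om; fun_prop
    refine aestronglyMeasurable_of_tendsto_ae Filter.atTop
      (f := fun (N : ℕ) (u : ℝ) => ∑ n ∈ Finset.range N, mu n * Complex.exp (-(n * om x (1 / X) u)))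
      (fun N => ?_) (Filter.Eventually.of_forall fun u => ?_)
    · apply Continuous.aestronglyMeasurable
      fun_prop
    · have hre : 0 < (om x (1 / X) u).re := by rw [om_re]; positivity
      exact (norm_P1_le hre).2.tendsto_sum_nat
  have hout : ∀ u : ℝ, w u * ‖P1 (om x (1 / X) u)‖ ^ 2 ≤ (2 * X / x) ^ 2 *
      Real.exp (-(hh X ^ 2 / 2 * u ^ 2) + 1 * u + 0) := by
    intro u
    calc _ ≤ w u * (2 * X / x * Real.exp u) ^ 2 := by
          simp only [hw]
          gcongr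
          exact P1_om_le hx hX3' u
      _ = (2 * X / x) ^ 2 * (w u * Real.exp u ^ 2) := by ring
      _ = _ := by
          simp only [hw]
          rw [← Real.exp_nat_mul, ← Real.exp_add]
          congr 2
          push_cast
          ring
  have hI8 : Integrable (fun u : ℝ => w u * ‖P1 (om x (1 / X) u)‖ ^ 2) := by
    refine ((gauss_lin_int (b := hh X ^ 2 / 2) (by positivity) 1 0).const_mul ((2 * X / x) ^ 2)).mono'
      (AEStronglyMeasurable.mul (by simp only [hw]; fun_prop) (hm.norm.pow 2)) (Filter.Eventually.of_forall fun u => ?_)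
    rw [Real.norm_of_nonneg (by positivity)]
    exact hout u
  have hsplit := integral_add_compl (s := Set.Ioc (-1 : ℝ) 1) measurableSet_Ioc hI8
  rw [← hsplit]
  -- the outer part
  have hO : ∫ u in (Set.Ioc (-1 : ℝ) 1)ᶜ, w u * ‖P1 (om x (1 / X) u)‖ ^ 2 ≤ 1 := by
    have hgi := (gauss_lin_int (b := 1 / 4) (by norm_num) 1 0)
    calc _ ≤ ∫ u in (Set.Ioc (-1 : ℝ) 1)ᶜ, (2 * X / x) ^ 2 * Real.exp (-(l ^ 4 / 8)) *
          Real.exp (-(1 / 4 * u ^ 2) + 1 * u + 0) := by
          apply setIntegral_mono_on hI8.integrableOn (hgi.const_mul _).integrableOn measurableSet_Ioc.compl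
          intro u hu
          have hu1 : 1 ≤ u ^ 2 := by
            rw [Set.mem_compl_iff, Set.mem_Ioc, not_and_or, not_lt, not_le] at hu
            rcases hu with h | h <;> nlinarith
          refine (hout u).trans ?_
          rw [mul_assoc ((2 * X / x) ^ 2)]
          gcongr
          rw [← Real.exp_add]
          apply Real.exp_le_exp.2
          have h5 : hh X ^ 2 = l ^ 4 := by rw [hhl]; ring
          have h6 : 1 ≤ hh X ^ 2 := by nlinarith
          rw [← h5]
          nlinarith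
      _ ≤ ∫ u : ℝ, (2 * X / x) ^ 2 * Real.exp (-(l ^ 4 / 8)) * Real.exp (-(1 / 4 * u ^ 2) + 1 * u + 0) :=
          setIntegral_le_integral (hgi.const_mul _) (Filter.Eventually.of_forall fun u => by positivity)
      _ = (2 * X / x) ^ 2 * Real.exp (-(l ^ 4 / 8)) * K3 := by rw [integral_const_mul]
      _ ≤ 1 := by
          have h7 : Real.exp ((2 + |Real.log ((2 / x) ^ 2 * (K3 + 1))|) * l ^ 2) =
              Real.exp (1 * l ^ 2) ^ 2 * Real.exp (|Real.log ((2 / x) ^ 2 * (K3 + 1))| * l ^ 2) := by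
            rw [← Real.exp_nat_mul, ← Real.exp_add]; congr 1; push_cast; ring
          have h8 : X ≤ Real.exp (1 * l ^ 2) := by
            calc X = Real.exp (Real.log X) := (Real.exp_log (by linarith)).symm
              _ ≤ _ := Real.exp_le_exp.2 (by nlinarith)
          have h9 := le_exp_log (K := (2 / x) ^ 2 * (K3 + 1)) (by positivity) hl1
          have h10 : (1 : ℝ) / X ≤ 1 := by rw [div_le_one (by linarith)]; linarith
          have h11 := h1.trans h10
          rw [h7] at h11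
          refine le_trans ?_ h11
          calc (2 * X / x) ^ 2 * Real.exp (-(l ^ 4 / 8)) * K3 ≤ (2 * X / x) ^ 2 * Real.exp (-(l ^ 4 / 8)) * (K3 + 1) := by
                gcongr
                linarith
            _ = X ^ 2 * ((2 / x) ^ 2 * (K3 + 1)) * Real.exp (-(l ^ 4 / 8)) := by ring
            _ ≤ _ := by gcongr
  -- the inner part
  have hPc : Continuous (fun u : ℝ => w u * ‖PN a b N (Real.exp (-u))‖ ^ 2) := by
    simp only [hw]
    unfold PN
    fun_prop
  have hwc : Continuous w := by simp only [hw]; fun_prop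
  have hInn : ∫ u in Set.Ioc (-1 : ℝ) 1, w u * ‖P1 (om x (1 / X) u)‖ ^ 2 ≤ ε / 4 * X + 12 := by
    have hi1 : IntegrableOn (fun u : ℝ => w u * ‖PN a b N (Real.exp (-u))‖ ^ 2) (Set.Ioc (-1) 1) :=
      (hPc.continuousOn.integrableOn_compact isCompact_Icc).mono_set Set.Ioc_subset_Icc_self
    calc _ ≤ ∫ u in Set.Ioc (-1 : ℝ) 1, (2 * (w u * ‖PN a b N (Real.exp (-u))‖ ^ 2) + 6) := by
          apply setIntegral_mono_on hI8.integrableOn _ measurableSet_Ioc
          · intro u hu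
            have h5 := hpt u ⟨hu.1.le, hu.2⟩
            have h6 : w u ≤ 3 := by
              simp only [hw]
              calc _ ≤ Real.exp 1 := by
                    apply Real.exp_le_exp.2
                    have : 0 ≤ hh X ^ 2 * u ^ 2 / 2 := by positivity
                    linarith [hu.1]
                _ ≤ 3 := by linarith [Real.exp_one_lt_d9]
            have h7 : 0 ≤ w u := (Real.exp_pos _).le
            calc w u * ‖P1 (om x (1 / X) u)‖ ^ 2 ≤ w u * (2 * ‖PN a b N (Real.exp (-u))‖ ^ 2 + 2) := by gcongr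
              _ = 2 * (w u * ‖PN a b N (Real.exp (-u))‖ ^ 2) + 2 * w u := by ring
              _ ≤ _ := by linarith
          · exact (hi1.const_mul 2).add (by simp)
      _ = 2 * (∫ u in Set.Ioc (-1 : ℝ) 1, w u * ‖PN a b N (Real.exp (-u))‖ ^ 2) + 12 := by
          rw [integral_add (hi1.const_mul 2) (by simp), integral_const_mul]
          simp
          norm_num
      _ ≤ 2 * (ε / 8 * X) + 12 := by
          rw [← intervalIntegral.integral_of_le (by norm_num : (-1 : ℝ) ≤ 1)]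
          have := hin.trans hQ
          gcongr
      _ = _ := by ring
  have hε26 : 26 ≤ ε * X := by
    rw [div_le_iff₀ hε] at hXe
    linarith
  calc _ ≤ (ε / 4 * X + 12) + 1 := add_le_add hInn hO
    _ ≤ ε * X := by nlinarith

end Pool.Agent.Helper44K9.AR
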