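import Pool.Agent.W565.WM.Res
import Pool.Agent.W280.WM.EF
import Pool.Agent.W915.WM.Hor
import Pool.Agent.W191.WM.Left

/-! Residue formulas for `1/ζ` on rectangles in the upper half plane. -/

set_option autoImplicit false

namespace Pool.Agent.Helper44K9.AR

open Complex Filter Topology Set MeasureTheory
open Pool.Agent.W120.WM (NT T_HOR T_LEFT)
open Pool.Agent.W280.WM (fin_NT z1_eq zeta_ne)

/-- the nontrivial zeros with ordinate in `(c, d]` -/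
noncomputable def Zf (c d : ℝ) : Finset ℂ :=
  (fin_NT d).toFinset.filter (fun s => c < s.im)

lemma mem_Zf {c d : ℝ} (hc : 0 ≤ c) {s : ℂ} : s ∈ Zf c d ↔ s ∈ NT ∧ c < s.im ∧ s.im ≤ d := by
  unfold Zf
  rw [Finset.mem_filter, Set.Finite.mem_toFinset, Set.mem_ofPred_eq]
  constructor
  · rintro ⟨⟨h1, h2⟩, h3⟩
    exact ⟨h1, h3, (le_abs_self _).trans h2⟩
  · rintro ⟨h1, h2, h3⟩
    exact ⟨⟨h1, by rw [abs_of_pos (by linarith)]; exact h3⟩, h2⟩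

lemma zeta_zero_NT {s : ℂ} (h1 : -1 / 2 ≤ s.re) (h0 : riemannZeta s = 0) : s ∈ NT := by
  refine ⟨h0, ?_, ?_⟩
  · by_contra h
    exact zeta_ne s h1 (not_lt.1 h) h0
  · by_contra h
    exact riemannZeta_ne_zero_of_one_le_re (not_lt.1 h) h0

/-- the residue formula -/
theorem res_formula (D g : ℂ → ℂ) (hD : Differentiable ℂ D) (hD0 : ∀ s : ℂ, 0 < s.im → D s ≠ 0)
    (hg : Differentiable ℂ g) {c d : ℝ} (hc : 0 < c) (hcd : c < d)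
    (h1 : ∀ σ ∈ Icc (-1 / 2 : ℝ) (3 / 2), riemannZeta (⟨σ, c⟩ : ℂ) ≠ 0)
    (h2 : ∀ σ ∈ Icc (-1 / 2 : ℝ) (3 / 2), riemannZeta (⟨σ, d⟩ : ℂ) ≠ 0)
    (hs : ∀ ρ ∈ Zf c d, deriv riemannZeta ρ ≠ 0) :
    (∫ x in (-1 / 2 : ℝ)..(3 / 2), g (⟨x, c⟩ : ℂ) / (D ⟨x, c⟩ * riemannZeta ⟨x, c⟩)) -
      (∫ x in (-1 / 2 : ℝ)..(3 / 2), g (⟨x, d⟩ : ℂ) / (D ⟨x, d⟩ * riemannZeta ⟨x, d⟩)) +
      I * (∫ y in c..d, g (⟨3 / 2, y⟩ : ℂ) / (D ⟨3 / 2, y⟩ * riemannZeta ⟨3 / 2, y⟩)) -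
      I * (∫ y in c..d, g (⟨-1 / 2, y⟩ : ℂ) / (D ⟨-1 / 2, y⟩ * riemannZeta ⟨-1 / 2, y⟩)) =
    2 * Real.pi * I * ∑ ρ ∈ Zf c d, g ρ / (D ρ * deriv riemannZeta ρ) := by
  have hne1 : ∀ s : ℂ, 0 < s.im → s ≠ 1 := by
    intro s hs h
    rw [h] at hs
    simp at hs
  have key := Pool.Agent.W565.WM.t_res (fun s => riemannZeta₁ s * D s) (fun s => (s - 1) * g s)
    (Zf c d) (-1 / 2) (3 / 2) c d (by norm_num) hcd (differentiable_riemannZeta₁.mul hD)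
    ((differentiable_id.sub_const 1).mul hg) ?_ ?_
  · have hq : ∀ s : ℂ, 0 < s.im →
        (s - 1) * g s / (riemannZeta₁ s * D s) = g s / (D s * riemannZeta s) := by
      intro s hs
      have h3 : s - 1 ≠ 0 := sub_ne_zero.2 (hne1 s hs)
      rw [z1_eq s (hne1 s hs), mul_assoc (s - 1), mul_div_mul_left _ _ h3, mul_comm (riemannZeta s)]
    have i1 : ∀ y : ℝ, 0 < y → ∀ x : ℝ, ((⟨x, y⟩ : ℂ) - 1) * g ⟨x, y⟩ /
        (riemannZeta₁ ⟨x, y⟩ * D ⟨x, y⟩) = g (⟨x, y⟩ : ℂ) / (D ⟨x, y⟩ * riemannZeta ⟨x, y⟩) :=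
      fun y hy x => hq ⟨x, y⟩ hy
    have e1 : (∫ x in (-1 / 2 : ℝ)..(3 / 2), ((⟨x, c⟩ : ℂ) - 1) * g ⟨x, c⟩ /
        (riemannZeta₁ ⟨x, c⟩ * D ⟨x, c⟩)) =
        ∫ x in (-1 / 2 : ℝ)..(3 / 2), g (⟨x, c⟩ : ℂ) / (D ⟨x, c⟩ * riemannZeta ⟨x, c⟩) :=
      intervalIntegral.integral_congr fun x _ => i1 c hc x
    have e2 : (∫ x in (-1 / 2 : ℝ)..(3 / 2), ((⟨x, d⟩ : ℂ) - 1) * g ⟨x, d⟩ /
        (riemannZeta₁ ⟨x, d⟩ * D ⟨x, d⟩)) =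
        ∫ x in (-1 / 2 : ℝ)..(3 / 2), g (⟨x, d⟩ : ℂ) / (D ⟨x, d⟩ * riemannZeta ⟨x, d⟩) :=
      intervalIntegral.integral_congr fun x _ => i1 d (hc.trans hcd) x
    have e3 : ∀ b : ℝ, (∫ y in c..d, ((⟨b, y⟩ : ℂ) - 1) * g ⟨b, y⟩ /
        (riemannZeta₁ ⟨b, y⟩ * D ⟨b, y⟩)) =
        ∫ y in c..d, g (⟨b, y⟩ : ℂ) / (D ⟨b, y⟩ * riemannZeta ⟨b, y⟩) := by
      intro b
      refine intervalIntegral.integral_congr fun y hy => ?_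
      rw [uIcc_of_le hcd.le] at hy
      exact i1 y (hc.trans_le hy.1) b
    rw [e1, e2, e3, e3] at key
    rw [key]
    congr 1
    refine Finset.sum_congr rfl fun ρ hρ => ?_
    obtain ⟨hρ1, hρ2, hρ3⟩ := (mem_Zf hc.le).1 hρ
    have hρim : 0 < ρ.im := hc.trans hρ2
    have hρ1' : ρ ≠ 1 := hne1 ρ hρim
    have hder : deriv (fun s => riemannZeta₁ s * D s) ρ = (ρ - 1) * (D ρ * deriv riemannZeta ρ) := by
      have h3 : riemannZeta₁ =ᶠ[𝓝 ρ] fun s : ℂ => (s - 1) * riemannZeta s := by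
        filter_upwards [isOpen_ne.mem_nhds hρ1'] with s hs'
        exact z1_eq s hs'
      have h4 : HasDerivAt (fun s : ℂ => (s - 1) * riemannZeta s)
          (1 * riemannZeta ρ + (ρ - 1) * deriv riemannZeta ρ) ρ :=
        ((hasDerivAt_id ρ).sub_const 1).mul (differentiableAt_riemannZeta hρ1').hasDerivAt
      have h5 : deriv riemannZeta₁ ρ = (ρ - 1) * deriv riemannZeta ρ := by
        rw [h3.deriv_eq, h4.deriv, hρ1.1]; ring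
      have h6 : HasDerivAt (fun s => riemannZeta₁ s * D s)
          (deriv riemannZeta₁ ρ * D ρ + riemannZeta₁ ρ * deriv D ρ) ρ :=
        (differentiable_riemannZeta₁ ρ).hasDerivAt.mul (hD ρ).hasDerivAt
      rw [h6.deriv, h5, z1_eq ρ hρ1', hρ1.1]
      ring
    rw [hder, mul_div_mul_left _ _ (sub_ne_zero.2 hρ1')]
  · intro s hs
    rw [Complex.mem_reProdIm] at hs
    have him : 0 < s.im := hc.trans_le hs.2.1
    have hs1 := hne1 s him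
    rw [z1_eq s hs1, mem_Zf hc.le]
    constructor
    · intro h
      rcases mul_eq_zero.1 h with h | h
      · rcases mul_eq_zero.1 h with h | h
        · exact absurd (sub_eq_zero.1 h) hs1
        · have hNT := zeta_zero_NT (by have := hs.1.1; linarith) h
          have he : (⟨s.re, s.im⟩ : ℂ) = s := by simp
          refine ⟨hNT, ?_, hs.2.2⟩
          rcases lt_or_eq_of_le hs.2.1 with h3 | h3
          · exact h3
          · exfalso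
            apply h1 s.re hs.1
            rw [h3, he]; exact h
      · exact absurd h (hD0 s him)
    · rintro ⟨h3, -, -⟩
      rw [h3.1]; ring
  · intro ρ hρ
    obtain ⟨hρ1, hρ2, hρ3⟩ := (mem_Zf hc.le).1 hρ
    have hρim : 0 < ρ.im := hc.trans hρ2
    have hρ1' : ρ ≠ 1 := hne1 ρ hρim
    refine ⟨?_, ?_⟩
    · rw [Complex.mem_reProdIm]
      refine ⟨⟨by linarith [hρ1.2.1], by linarith [hρ1.2.2]⟩, hρ2, ?_⟩
      rcases lt_or_eq_of_le hρ3 with h3 | h3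
      · exact h3
      · exfalso
        apply h2 ρ.re ⟨by linarith [hρ1.2.1], by linarith [hρ1.2.2]⟩
        have he : (⟨ρ.re, ρ.im⟩ : ℂ) = ρ := by simp
        rw [← h3, he]; exact hρ1.1
    · have h3 : riemannZeta₁ =ᶠ[𝓝 ρ] fun s : ℂ => (s - 1) * riemannZeta s := by
        filter_upwards [isOpen_ne.mem_nhds hρ1'] with s hs'
        exact z1_eq s hs'
      have h4 : HasDerivAt (fun s : ℂ => (s - 1) * riemannZeta s)
          (1 * riemannZeta ρ + (ρ - 1) * deriv riemannZeta ρ) ρ :=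
        ((hasDerivAt_id ρ).sub_const 1).mul (differentiableAt_riemannZeta hρ1').hasDerivAt
      have h5 : deriv riemannZeta₁ ρ = (ρ - 1) * deriv riemannZeta ρ := by
        rw [h3.deriv_eq, h4.deriv, hρ1.1]; ring
      have h6 : HasDerivAt (fun s => riemannZeta₁ s * D s)
          (deriv riemannZeta₁ ρ * D ρ + riemannZeta₁ ρ * deriv D ρ) ρ :=
        (differentiable_riemannZeta₁ ρ).hasDerivAt.mul (hD ρ).hasDerivAt
      rw [h6.deriv, h5, z1_eq ρ hρ1', hρ1.1, mul_zero, zero_mul, add_zero]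
      exact mul_ne_zero (mul_ne_zero (sub_ne_zero.2 hρ1') (hs ρ hρ)) (hD0 ρ hρim)

/-- good heights -/
def Good (C U : ℝ) : Prop := ∀ σ ∈ Icc (-1 / 2 : ℝ) (3 / 2), riemannZeta (⟨σ, U⟩ : ℂ) ≠ 0 ∧
  ‖(riemannZeta (⟨σ, U⟩ : ℂ))⁻¹‖ ≤ Real.exp (C * Real.log U ^ 2)

theorem exists_good : ∃ C : ℝ, 0 < C ∧ ∀ T : ℝ, 3 ≤ T → ∃ U : ℝ, T ≤ U ∧ U ≤ T + 1 ∧ Good C U := by
  obtain ⟨C, hC, h⟩ := Pool.Agent.W915.WM.hor
  refine ⟨C, hC, fun T hT => ?_⟩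
  obtain ⟨U, hU, h2⟩ := h T hT
  refine ⟨U, hU.1, hU.2, fun σ hσ => ?_⟩
  obtain ⟨h3, h4⟩ := h2 σ hσ U (abs_of_pos (by linarith [hU.1]))
  refine ⟨h3, h4.trans (Real.exp_le_exp.2 ?_)⟩
  have h5 : 0 ≤ Real.log T := Real.log_nonneg (by linarith)
  have h6 : Real.log T ≤ Real.log U := Real.log_le_log (by linarith) hU.1
  gcongr

/-- the left line -/
theorem left_bound : ∃ B : ℝ, 0 < B ∧ ∀ t : ℝ, 0 < t → riemannZeta (⟨-1 / 2, t⟩ : ℂ) ≠ 0 ∧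
    ‖(riemannZeta (⟨-1 / 2, t⟩ : ℂ))⁻¹‖ ≤ B / t := by
  obtain ⟨B, hB, h⟩ := Pool.Agent.W191.WM.left
  refine ⟨B, hB, fun t ht => ?_⟩
  obtain ⟨h1, h2⟩ := h t
  refine ⟨h1, ?_⟩
  rw [mul_inv, norm_mul, norm_inv (⟨-1 / 2, t⟩ : ℂ)] at h2
  have hsq : ‖(⟨-1 / 2, t⟩ : ℂ)‖ ^ 2 = 1 / 4 + t ^ 2 := Pool.Agent.W191.WM.normsq_left t
  have hn : 0 < ‖(⟨-1 / 2, t⟩ : ℂ)‖ := by
    by_contra hcon
    have h0 : ‖(⟨-1 / 2, t⟩ : ℂ)‖ = 0 := le_antisymm (not_lt.1 hcon) (norm_nonneg _)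
    rw [h0] at hsq
    nlinarith
  have hn2 : t ≤ ‖(⟨-1 / 2, t⟩ : ℂ)‖ := by
    apply le_of_sq_le_sq _ hn.le
    rw [hsq]; linarith
  rw [← hsq, inv_mul_le_iff₀ hn] at h2
  refine h2.trans ?_
  rw [mul_div_assoc', div_le_div_iff₀ (by positivity) ht]
  calc ‖(⟨-1 / 2, t⟩ : ℂ)‖ * B * t ≤ ‖(⟨-1 / 2, t⟩ : ℂ)‖ * B * ‖(⟨-1 / 2, t⟩ : ℂ)‖ := by gcongr
    _ = B * ‖(⟨-1 / 2, t⟩ : ℂ)‖ ^ 2 := by ring

/-- the right line -/
theorem right_bound : ∃ B : ℝ, 1 ≤ B ∧ ∀ t : ℝ, riemannZeta (⟨3 / 2, t⟩ : ℂ) ≠ 0 ∧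
    ‖(riemannZeta (⟨3 / 2, t⟩ : ℂ))⁻¹‖ ≤ B := by
  obtain ⟨B, hB, h⟩ := Pool.Agent.W915.WM.zeta_inv_right
  exact ⟨B, hB, fun t => h ⟨3 / 2, t⟩ le_rfl⟩

end Pool.Agent.Helper44K9.AR
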