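import Pool.Agent.Helper44K9.AR.Wt

/-! The Dirichlet series of `1/ζ` on the line `Re s = 3/2`. -/

set_option autoImplicit false

namespace Pool.Agent.Helper44K9.AR

open Complex Filter Topology Set MeasureTheory

/-- the Moebius function -/
noncomputable def mu (n : ℕ) : ℂ := ((ArithmeticFunction.moebius n : ℤ) : ℂ)

lemma norm_mu (n : ℕ) : ‖mu n‖ ≤ 1 := by
  unfold mu
  rw [Complex.norm_intCast]
  exact_mod_cast ArithmeticFunction.abs_moebius_le_one

lemma mu_zero : mu 0 = 0 := by simp [mu]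
lemma mu_one : mu 1 = 1 := by simp [mu]

/-- the `n`-th term of `1/ζ` on the line -/
noncomputable def mt (y : ℝ) (n : ℕ) : ℂ := mu n * Complex.exp (-((⟨3 / 2, y⟩ : ℂ) * Real.log n))

lemma mt_zero (y : ℝ) : mt y 0 = 0 := by unfold mt; rw [mu_zero, zero_mul]

lemma mt_eq (y : ℝ) (n : ℕ) : mt y n = LSeries.term (fun n => mu n) ⟨3 / 2, y⟩ n := by
  rcases eq_or_ne n 0 with rfl | hn
  · rw [mt_zero, LSeries.term_zero]
  · rw [LSeries.term_of_ne_zero hn]
    unfold mt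
    have hn' : (n : ℂ) ≠ 0 := by exact_mod_cast hn
    rw [Complex.cpow_def_of_ne_zero hn', div_eq_mul_inv (mu n), ← Complex.exp_neg,
      Complex.ofReal_log (Nat.cast_nonneg n), Complex.ofReal_natCast]
    congr 2
    ring

lemma norm_mt (y : ℝ) (n : ℕ) : ‖mt y n‖ ≤ 1 / (n : ℝ) ^ (3 / 2 : ℝ) := by
  rw [mt_eq, LSeries.norm_term_eq]
  split_ifs with h
  · rw [h]; simp
  · have := norm_mu n
    gcongr

lemma mt_summable (y : ℝ) : Summable (mt y) := by
  apply Summable.of_norm_bounded (g := fun n : ℕ => 1 / (n : ℝ) ^ (3 / 2 : ℝ))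
  · exact Real.summable_one_div_nat_rpow.2 (by norm_num)
  · exact norm_mt y

lemma inv_zeta_eq (y : ℝ) : (riemannZeta (⟨3 / 2, y⟩ : ℂ))⁻¹ = ∑' n, mt y n := by
  have h1 : 1 < (⟨3 / 2, y⟩ : ℂ).re := by norm_num
  have h2 := ArithmeticFunction.LSeries_zeta_mul_Lseries_moebius h1
  rw [ArithmeticFunction.LSeries_zeta_eq_riemannZeta h1] at h2
  rw [eq_comm, ← one_div, eq_div_iff (by intro h0; rw [h0, zero_mul] at h2; exact zero_ne_one h2), mul_comm]
  rw [← h2]
  congr 1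
  unfold LSeries
  exact tsum_congr fun n => mt_eq y n

lemma mt_cont (n : ℕ) : Continuous (fun y : ℝ => mt y n) := by
  unfold mt
  have := line_cont
  fun_prop

/-- term by term integration -/
theorem int_zeta (f : ℝ → ℂ) (hf : Integrable f) :
    HasSum (fun n => ∫ y, f y * mt y n) (∫ y : ℝ, f y * (riemannZeta (⟨3 / 2, y⟩ : ℂ))⁻¹) := by
  have h1 : ∀ n, Integrable (fun y => f y * mt y n) := by
    intro n
    refine (hf.norm.mul_const (1 / (n : ℝ) ^ (3 / 2 : ℝ))).mono'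
      (hf.aestronglyMeasurable.mul (mt_cont n).aestronglyMeasurable) (Eventually.of_forall fun y => ?_)
    rw [norm_mul]
    gcongr
    exact norm_mt y n
  have h2 : Summable fun n => ∫ y, ‖f y * mt y n‖ := by
    have h3 : Summable (fun n : ℕ => (∫ y, ‖f y‖) * (1 / (n : ℝ) ^ (3 / 2 : ℝ))) :=
      (Real.summable_one_div_nat_rpow.2 (by norm_num)).mul_left _
    refine Summable.of_nonneg_of_le (fun n => integral_nonneg fun y => norm_nonneg _) (fun n => ?_) h3
    rw [← integral_mul_const]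
    refine integral_mono (h1 n).norm (hf.norm.mul_const _) (fun y => ?_)
    simp only
    rw [norm_mul]
    gcongr
    exact norm_mt y n
  have h3 := hasSum_integral_of_summable_integral_norm h1 h2
  have e : (∫ y : ℝ, f y * (riemannZeta (⟨3 / 2, y⟩ : ℂ))⁻¹) = ∫ y : ℝ, ∑' n, f y * mt y n := by
    apply integral_congr_ae
    refine Eventually.of_forall fun y => ?_
    simp only
    rw [inv_zeta_eq, tsum_mul_left]
  rw [e]
  exact h3

/-- the Gaussian integral -/
lemma int_Wt (T : ℝ) {X : ℝ} (hX : 3 ≤ X) (n : ℕ) :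
    ∫ y : ℝ, Wt T X (⟨3 / 2, y⟩ : ℂ) * mt y n =
      mu n * (√Real.pi * hh X * Complex.exp (-((1 / 2 + I * T) * Real.log n) - hh X ^ 2 * Real.log n ^ 2 / 4)) := by
  have hh1 := hh_pos hX
  have hh0 : 0 < hh X := by linarith
  have hhc : (hh X : ℂ) ≠ 0 := by exact_mod_cast hh0.ne'
  have e1 : ∀ y : ℝ, Wt T X (⟨3 / 2, y⟩ : ℂ) * mt y n = mu n * Complex.exp
      ((-1 / hh X ^ 2 : ℂ) * y ^ 2 + (I * (2 * (1 - I * T) / hh X ^ 2 - Real.log n)) * y +
        ((1 - I * T) ^ 2 / hh X ^ 2 - 3 / 2 * Real.log n)) := by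
    intro y
    unfold Wt mt
    rw [mul_left_comm, ← Complex.exp_add]
    congr 2
    have e : (⟨3 / 2, y⟩ : ℂ) = 3 / 2 + y * I := by apply Complex.ext <;> simp
    rw [e]
    field_simp
    ring_nf
    rw [Complex.I_sq]
    ring
  simp only [e1]
  rw [integral_const_mul]
  congr 1
  have hb : ((-1 / hh X ^ 2 : ℂ)).re < 0 := by
    have : (-1 / hh X ^ 2 : ℂ) = ((-1 / hh X ^ 2 : ℝ) : ℂ) := by push_cast; ring
    rw [this, Complex.ofReal_re]
    apply div_neg_of_neg_of_pos (by norm_num) (by positivity)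
  rw [integral_cexp_quadratic hb]
  have e2 : ((Real.pi : ℂ) / -(-1 / (hh X : ℂ) ^ 2)) ^ (1 / 2 : ℂ) = √Real.pi * hh X := by
    have e3 : (Real.pi : ℂ) / -(-1 / (hh X : ℂ) ^ 2) = ((Real.pi * hh X ^ 2 : ℝ) : ℂ) := by
      push_cast
      field_simp
    rw [e3, show (1 / 2 : ℂ) = ((1 / 2 : ℝ) : ℂ) by push_cast; ring,
      ← Complex.ofReal_cpow (by positivity), ← Real.sqrt_eq_rpow,
      Real.sqrt_mul Real.pi_pos.le, Real.sqrt_sq hh0.le]
    push_cast
    ring
  rw [e2]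
  congr 2
  have hI3 : (I : ℂ) ^ 3 = -I := by rw [pow_succ, Complex.I_sq]; ring
  have hI4 : (I : ℂ) ^ 4 = 1 := by rw [show (4 : ℕ) = 2 * 2 by norm_num, pow_mul, Complex.I_sq]; ring
  field_simp
  ring_nf
  rw [Complex.I_sq, hI3, hI4]
  ring

lemma Wt_int (T : ℝ) {X : ℝ} (hX : 3 ≤ X) : Integrable (fun y : ℝ => Wt T X (⟨3 / 2, y⟩ : ℂ)) := by
  have hh1 := hh_pos hX
  refine ((int_gauss (b := hh X ^ 2) (T := T) (by positivity)).1.const_mul 3).mono'
    ((Wt_diff T X).continuous.comp line_cont).aestronglyMeasurable (Eventually.of_forall fun y => ?_)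
  exact norm_Wt hX ⟨by norm_num, le_rfl⟩

/-- the sum with `W` is large -/
theorem U_low : ∃ X0 : ℝ, 3 ≤ X0 ∧ ∀ X : ℝ, X0 ≤ X → ∀ T : ℝ,
    hh X / 5 ≤ ‖(1 / (2 * Real.pi) : ℂ) * ∫ y : ℝ, Wt T X (⟨3 / 2, y⟩ : ℂ) * (riemannZeta ⟨3 / 2, y⟩)⁻¹‖ := by
  obtain ⟨X0, hX0, h0⟩ := ev_log 10
  refine ⟨X0, hX0, fun X hX T => ?_⟩
  have hX3 := hX0.trans hX
  have hl := h0 X hX
  have hh1 : 100 ≤ hh X := by unfold hh; nlinarith
  have hh0 : 0 < hh X := by linarith
  have hsum := int_zeta _ (Wt_int T hX3)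
  set V := ∫ y : ℝ, Wt T X (⟨3 / 2, y⟩ : ℂ) * (riemannZeta ⟨3 / 2, y⟩)⁻¹ with hV
  set v : ℕ → ℂ := fun n => ∫ y : ℝ, Wt T X (⟨3 / 2, y⟩ : ℂ) * mt y n with hv
  have hve : ∀ n, v n = mu n * (√Real.pi * hh X *
      Complex.exp (-((1 / 2 + I * T) * Real.log n) - hh X ^ 2 * Real.log n ^ 2 / 4)) :=
    fun n => int_Wt T hX3 n
  have hv1 : v 1 = √Real.pi * hh X := by
    rw [hve, mu_one]
    simp
  have hs := hsum.summable
  have hbd : ∀ n, n ≠ 1 → ‖v n‖ ≤ √Real.pi * hh X / 32 * (1 / (n : ℝ) ^ 2) := by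
    intro n hn
    rcases eq_or_ne n 0 with rfl | hn0
    · rw [hve, mu_zero]; simp
    have hn2 : (2 : ℝ) ≤ n := by exact_mod_cast (by omega : 2 ≤ n)
    have hln : 0.69 ≤ Real.log n := by
      have := Real.log_le_log (by norm_num) hn2
      linarith [Real.log_two_gt_d9]
    rw [hve, norm_mul, norm_mul, norm_mul, Complex.norm_exp, Complex.norm_real, Complex.norm_real,
      Real.norm_of_nonneg (Real.sqrt_nonneg _), Real.norm_of_nonneg hh0.le]
    have e1 : (-((1 / 2 + I * T) * Real.log n) - hh X ^ 2 * Real.log n ^ 2 / 4 : ℂ).re =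
        -(1 / 2 * Real.log n) - hh X ^ 2 * Real.log n ^ 2 / 4 := by
      have : (-((1 / 2 + I * T) * Real.log n) - hh X ^ 2 * Real.log n ^ 2 / 4 : ℂ) =
          ((-(1 / 2 * Real.log n) - hh X ^ 2 * Real.log n ^ 2 / 4 : ℝ) : ℂ) + ((-(T * Real.log n) : ℝ) : ℂ) * I := by
        push_cast
        ring
      rw [this, Complex.add_re, Complex.ofReal_re, Complex.re_ofReal_mul, Complex.I_re, mul_zero, add_zero]
    rw [e1]
    have h5 : Real.exp (-(1 / 2 * Real.log n) - hh X ^ 2 * Real.log n ^ 2 / 4) ≤ 1 / 32 * (1 / (n : ℝ) ^ 2) := by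
      have h6 : -(1 / 2 * Real.log n) - hh X ^ 2 * Real.log n ^ 2 / 4 ≤ -(7 * Real.log n) := by
        have : (100 : ℝ) ^ 2 ≤ hh X ^ 2 := by gcongr
        nlinarith
      calc _ ≤ Real.exp (-(7 * Real.log n)) := Real.exp_le_exp.2 h6
        _ = ((n : ℝ) ^ 7)⁻¹ := by
            rw [Real.exp_neg, show (7 : ℝ) = ((7 : ℕ) : ℝ) by norm_num, Real.exp_nat_mul,
              Real.exp_log (by linarith)]
        _ ≤ 1 / 32 * (1 / (n : ℝ) ^ 2) := by
            rw [← one_div, one_div_mul_one_div]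
            apply one_div_le_one_div_of_le (by positivity)
            calc (32 : ℝ) * (n : ℝ) ^ 2 = 2 ^ 5 * (n : ℝ) ^ 2 := by norm_num
              _ ≤ (n : ℝ) ^ 5 * (n : ℝ) ^ 2 := by gcongr
              _ = (n : ℝ) ^ 7 := by ring
    calc ‖mu n‖ * (√Real.pi * hh X * Real.exp (-(1 / 2 * Real.log n) - hh X ^ 2 * Real.log n ^ 2 / 4))
        ≤ 1 * (√Real.pi * hh X * (1 / 32 * (1 / (n : ℝ) ^ 2))) := by
          gcongr
          exact norm_mu n
      _ = _ := by ring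
  have hdec : V = v 1 + ∑' n, (if n = 1 then 0 else v n) := by
    rw [← hsum.tsum_eq]
    exact hs.tsum_eq_add_tsum_ite 1
  have htail : ‖∑' n, (if n = 1 then 0 else v n)‖ ≤ √Real.pi * hh X / 32 * 2 := by
    have h6 : Summable (fun n : ℕ => √Real.pi * hh X / 32 * (1 / (n : ℝ) ^ 2)) :=
      (Real.summable_one_div_nat_pow.2 (by norm_num)).mul_left _
    refine (tsum_of_norm_bounded h6.hasSum (fun n => ?_)).trans ?_
    · split_ifs with h
      · rw [norm_zero]; positivity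
      · exact hbd n h
    · rw [tsum_mul_left]
      gcongr
      rw [hasSum_zeta_two.tsum_eq]
      nlinarith [Real.pi_lt_d2, Real.pi_pos]
  have hsp : (1.7 : ℝ) ≤ √Real.pi := by
    apply Real.le_sqrt_of_sq_le
    linarith [Real.pi_gt_d2]
  have hsp0 : 0 < √Real.pi := by positivity
  have hV1 : √Real.pi * hh X * (15 / 16) ≤ ‖V‖ := by
    rw [hdec, hv1]
    have h7 : ‖(√Real.pi * hh X : ℂ)‖ = √Real.pi * hh X := by
      rw [norm_mul, Complex.norm_real, Complex.norm_real, Real.norm_of_nonneg (Real.sqrt_nonneg _),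
        Real.norm_of_nonneg hh0.le]
    have h8 := norm_sub_norm_le (√Real.pi * hh X : ℂ) (-∑' n, (if n = 1 then 0 else v n))
    rw [sub_neg_eq_add, norm_neg, h7] at h8
    linarith
  rw [norm_mul]
  have n2 : ‖(1 / (2 * Real.pi) : ℂ)‖ = 1 / (2 * Real.pi) := by
    rw [norm_div, norm_mul, Complex.norm_real, norm_one, Real.norm_eq_abs, abs_of_pos Real.pi_pos]
    norm_num
  rw [n2]
  have h9 : √Real.pi * √Real.pi = Real.pi := Real.mul_self_sqrt Real.pi_pos.le
  calc hh X / 5 ≤ 1 / (2 * Real.pi) * (√Real.pi * hh X * (15 / 16)) := by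
        have h10 : √Real.pi ≤ 1.8 := by
          rw [Real.sqrt_le_left (by norm_num)]
          linarith [Real.pi_lt_d2]
        have h11 : 1 / (2 * Real.pi) * (√Real.pi * hh X * (15 / 16)) =
            15 / 32 * hh X / √Real.pi := by
          rw [eq_div_iff hsp0.ne']
          calc 1 / (2 * Real.pi) * (√Real.pi * hh X * (15 / 16)) * √Real.pi
              = 1 / (2 * Real.pi) * (hh X * (15 / 16)) * (√Real.pi * √Real.pi) := by ring
            _ = 1 / (2 * Real.pi) * (hh X * (15 / 16)) * Real.pi := by rw [h9]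
            _ = _ := by field_simp; ring
        rw [h11, div_le_div_iff₀ (by norm_num) hsp0]
        nlinarith
    _ ≤ _ := by gcongr

end Pool.Agent.Helper44K9.AR
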