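import Pool.Agent.Helper44K9.AR.Loc
import Pool.Agent.Helper44K9.AR.Gam
import Pool.Agent.H402R2.T4bA

/-! The two local sums: `∑ W(ρ)/ζ'(ρ)` and `∑ x^{-ρ} e^{-iπρ/2} Γ(ρ) W(ρ)/ζ'(ρ)`. -/

set_option autoImplicit false

namespace Pool.Agent.Helper44K9.AR

open Complex Filter Topology Set MeasureTheory
open Pool.Agent.W120.WM (NT)

noncomputable def Wt (T X : ℝ) (s : ℂ) : ℂ := Complex.exp ((s - 1 / 2 - I * T) ^ 2 / (hh X : ℂ) ^ 2)

noncomputable def G0 (x : ℝ) (s : ℂ) : ℂ := Complex.exp (-(s * (Real.log x + I * (Real.pi / 2))))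

lemma hh_pos {X : ℝ} (hX : 3 ≤ X) : 1 ≤ hh X := by
  have := log_ge_one hX
  unfold hh; nlinarith

lemma Wt_arg (T X σ y : ℝ) : ((⟨σ, y⟩ : ℂ) - 1 / 2 - I * T) ^ 2 / (hh X : ℂ) ^ 2 =
    (((σ - 1 / 2) ^ 2 - (y - T) ^ 2) / hh X ^ 2 : ℝ) + (2 * (σ - 1 / 2) * (y - T) / hh X ^ 2 : ℝ) * I := by
  have e : (⟨σ, y⟩ : ℂ) = σ + y * I := by apply Complex.ext <;> simp
  rw [e]
  push_cast
  have h : ((σ : ℂ) + y * I - 1 / 2 - I * T) ^ 2 = ((σ - 1 / 2) ^ 2 - (y - T) ^ 2) +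
      2 * (σ - 1 / 2) * (y - T) * I := by
    linear_combination ((y : ℂ) - T) ^ 2 * Complex.I_sq
  rw [h, add_div]
  ring

lemma norm_Wt_eq (T X σ y : ℝ) : ‖Wt T X ⟨σ, y⟩‖ = Real.exp (((σ - 1 / 2) ^ 2 - (y - T) ^ 2) / hh X ^ 2) := by
  unfold Wt
  rw [Wt_arg, Complex.norm_exp]
  congr 1
  simp only [Complex.add_re, Complex.ofReal_re, Complex.mul_re, Complex.I_re, Complex.ofReal_im,
    Complex.I_im, mul_zero, zero_mul, sub_zero, add_zero]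

lemma norm_Wt {T X σ y : ℝ} (hX : 3 ≤ X) (hσ : σ ∈ Icc (-1 / 2 : ℝ) (3 / 2)) :
    ‖Wt T X ⟨σ, y⟩‖ ≤ 3 * Real.exp (-((y - T) ^ 2 / hh X ^ 2)) := by
  have h1 := hh_pos hX
  rw [norm_Wt_eq, sub_div, sub_eq_add_neg, Real.exp_add]
  gcongr
  have h2 : (σ - 1 / 2) ^ 2 / hh X ^ 2 ≤ 1 := by
    rw [div_le_one (by positivity)]
    nlinarith [hσ.1, hσ.2]
  calc Real.exp ((σ - 1 / 2) ^ 2 / hh X ^ 2) ≤ Real.exp 1 := Real.exp_le_exp.2 h2
    _ ≤ 3 := by linarith [Real.exp_one_lt_d9]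

lemma Wt_half (T X y : ℝ) : Wt T X ⟨1 / 2, y⟩ = ((Real.exp (-((y - T) ^ 2 / hh X ^ 2)) : ℝ) : ℂ) := by
  unfold Wt
  rw [Wt_arg, Complex.ofReal_exp]
  congr 1
  push_cast
  ring

lemma Wt_diff (T X : ℝ) : Differentiable ℂ (Wt T X) := by
  unfold Wt
  fun_prop

lemma G0_diff (x : ℝ) : Differentiable ℂ (G0 x) := by
  unfold G0
  fun_prop

lemma norm_G0 (x σ y : ℝ) : ‖G0 x ⟨σ, y⟩‖ = Real.exp (-(σ * Real.log x)) * Real.exp (Real.pi / 2 * y) := by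
  unfold G0
  rw [Complex.norm_exp, ← Real.exp_add]
  congr 1
  have h1 : ((Real.pi : ℂ) / 2).re = Real.pi / 2 := by
    have : ((Real.pi : ℂ) / 2) = ((Real.pi / 2 : ℝ) : ℂ) := by push_cast; ring
    rw [this, Complex.ofReal_re]
  have h2 : ((Real.pi : ℂ) / 2).im = 0 := by
    have : ((Real.pi : ℂ) / 2) = ((Real.pi / 2 : ℝ) : ℂ) := by push_cast; ring
    rw [this, Complex.ofReal_im]
  simp only [Complex.neg_re, Complex.mul_re, Complex.add_re, Complex.add_im, Complex.ofReal_re,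
    Complex.ofReal_im, Complex.mul_im, Complex.I_re, Complex.I_im, h1, h2]
  ring

noncomputable def kx (x : ℝ) : ℝ := Real.exp (2 * |Real.log x|)

lemma norm_G0_le {x σ y : ℝ} (hσ : σ ∈ Icc (-1 / 2 : ℝ) (3 / 2)) :
    ‖G0 x ⟨σ, y⟩‖ ≤ kx x * Real.exp (Real.pi / 2 * y) := by
  rw [norm_G0]
  gcongr
  unfold kx
  apply Real.exp_le_exp.2
  have h1 : -(σ * Real.log x) ≤ |σ * Real.log x| := by
    rw [← abs_neg]; exact le_abs_self _
  have h2 : |σ| ≤ 2 := abs_le.2 ⟨by linarith [hσ.1], by linarith [hσ.2]⟩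
  rw [abs_mul] at h1
  have := abs_nonneg (Real.log x)
  nlinarith

lemma one_le_kx (x : ℝ) : 1 ≤ kx x := by
  unfold kx
  rw [Real.one_le_exp_iff]
  positivity

lemma norm_Gamma_line (y : ℝ) : ‖Gamma (⟨3 / 2, y⟩ : ℂ)‖ * Real.exp (Real.pi / 2 * y) ≤ 32 * (1 + |y|) := by
  rcases le_or_gt 1 y with h | h
  · have h1 := norm_Gamma_crude (z := ⟨3 / 2, y⟩) (by norm_num) (by norm_num) h
    simp only at h1
    calc _ ≤ 32 * y * Real.exp (-(Real.pi / 2 * y)) * Real.exp (Real.pi / 2 * y) := by gcongr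
      _ = 32 * y := by rw [mul_assoc, ← Real.exp_add]; simp
      _ ≤ _ := by linarith [le_abs_self y]
  · have h1 := Pool.Agent.Helper242.KK.norm_Gamma_le_of_angle (σ := 3 / 2) (v := y) (θ := 0)
      (by norm_num) le_rfl (by positivity)
    have e : (⟨3 / 2, y⟩ : ℂ) = ((3 / 2 : ℝ) : ℂ) + y * I := by apply Complex.ext <;> simp
    rw [e]
    have h2 : Real.Gamma (3 / 2) ≤ 1 := by
      rw [show (3 / 2 : ℝ) = 1 / 2 + 1 by norm_num, Real.Gamma_add_one (by norm_num), Real.Gamma_one_half_eq]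
      have : √Real.pi ≤ 2 := by
        rw [Real.sqrt_le_left (by norm_num)]
        linarith [Real.pi_lt_d2]
      linarith
    have h3 : ‖Gamma (((3 / 2 : ℝ) : ℂ) + y * I)‖ ≤ 1 := by
      refine h1.trans ?_
      simp only [neg_zero, zero_mul, Real.exp_zero, one_mul, Real.cos_zero, Real.one_rpow, div_one]
      exact h2
    have h4 : Real.exp (Real.pi / 2 * y) ≤ 32 := by
      calc Real.exp (Real.pi / 2 * y) ≤ Real.exp 2 := by
            apply Real.exp_le_exp.2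
            nlinarith [Real.pi_lt_d2, Real.pi_pos]
        _ = Real.exp 1 * Real.exp 1 := by rw [← Real.exp_add]; norm_num
        _ ≤ 32 := by nlinarith [Real.exp_one_lt_d9, Real.exp_pos 1]
    calc ‖Gamma (((3 / 2 : ℝ) : ℂ) + y * I)‖ * Real.exp (Real.pi / 2 * y) ≤ 1 * 32 := by gcongr
      _ ≤ 32 * (1 + |y|) := by linarith [abs_nonneg y]

lemma line_eq : (fun y : ℝ => (⟨3 / 2, y⟩ : ℂ)) = fun y : ℝ => ((3 / 2 : ℝ) : ℂ) + y * I := by
  funext y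
  apply Complex.ext <;> simp

lemma line_cont : Continuous (fun y : ℝ => (⟨3 / 2, y⟩ : ℂ)) := by
  rw [line_eq]; fun_prop

lemma Gam_line_cont : Continuous (fun y : ℝ => Gamma (⟨3 / 2, y⟩ : ℂ)) := by
  have h := Pool.Agent.H402R2.T4b.Gamma_line_cont (c := 3 / 2) (by norm_num)
  have e : (fun y : ℝ => Gamma (⟨3 / 2, y⟩ : ℂ)) = fun y : ℝ => Gamma (((3 / 2 : ℝ) : ℂ) + y * I) := by
    funext y
    congr 1
    apply Complex.ext <;> simp
  rw [e]; exact h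

lemma Gam_ne {s : ℂ} (hs : 0 < s.im) : Gamma s ≠ 0 := by
  apply Complex.Gamma_ne_zero
  intro m hm
  rw [hm] at hs
  simp at hs

theorem loc_U (C : ℝ) (hC : 0 < C) : ∃ X0 : ℝ, 3 ≤ X0 ∧ ∀ X : ℝ, X0 ≤ X →
    ∀ T ∈ Icc X (2 * X), ∀ c d : ℝ, c ∈ Icc (T - ll X) (T - ll X / 2) →
    d ∈ Icc (T + ll X / 2) (T + ll X) → Good C c → Good C d →
    (∀ ρ ∈ Zf c d, deriv riemannZeta ρ ≠ 0) →
    ‖∑ ρ ∈ Zf c d, Wt T X ρ / deriv riemannZeta ρ -
      1 / (2 * Real.pi) * ∫ y : ℝ, Wt T X (⟨3 / 2, y⟩ : ℂ) * (riemannZeta ⟨3 / 2, y⟩)⁻¹‖ ≤ 1 := by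
  obtain ⟨X0, hX0, h⟩ := loc_main 3 C (by norm_num) hC
  refine ⟨X0, hX0, fun X hX T hT c d hc hd hGc hGd hs => ?_⟩
  have hX3 := hX0.trans hX
  have := h X hX T hT c d hc hd hGc hGd (fun _ => 1) (Wt T X) (differentiable_const 1)
    (fun s _ => one_ne_zero) (Wt_diff T X) ?_ ?_ ?_ ?_ hs
  · simp only [one_mul] at this
    simp only [← div_eq_mul_inv]
    exact this
  · intro σ hσ y hy
    rw [div_one]
    refine (norm_Wt hX3 hσ).trans ?_
    have := Real.exp_pos (-((y - T) ^ 2 / hh X ^ 2))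
    nlinarith
  · intro y hy
    rw [div_one]
    exact norm_Wt hX3 ⟨le_rfl, by norm_num⟩
  · intro y
    rw [div_one]
    refine (norm_Wt hX3 ⟨by norm_num, le_rfl⟩).trans ?_
    have := Real.exp_pos (-((y - T) ^ 2 / hh X ^ 2))
    have := abs_nonneg y
    nlinarith
  · simp only [div_one]
    exact (Wt_diff T X).continuous.comp line_cont

theorem loc_S (x C : ℝ) (hC : 0 < C) : ∃ X0 : ℝ, 3 ≤ X0 ∧ ∀ X : ℝ, X0 ≤ X →
    ∀ T ∈ Icc X (2 * X), ∀ c d : ℝ, c ∈ Icc (T - ll X) (T - ll X / 2) →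
    d ∈ Icc (T + ll X / 2) (T + ll X) → Good C c → Good C d →
    (∀ ρ ∈ Zf c d, deriv riemannZeta ρ ≠ 0) →
    ‖∑ ρ ∈ Zf c d, G0 x ρ * Gamma ρ * Wt T X ρ / deriv riemannZeta ρ -
      1 / (2 * Real.pi) * ∫ y : ℝ, G0 x (⟨3 / 2, y⟩ : ℂ) * Gamma (⟨3 / 2, y⟩ : ℂ) *
        Wt T X (⟨3 / 2, y⟩ : ℂ) * (riemannZeta ⟨3 / 2, y⟩)⁻¹‖ ≤ 1 := by
  have hk := one_le_kx x
  obtain ⟨X0, hX0, h⟩ := loc_main (96 * kx x) C (by positivity) hC
  refine ⟨X0, hX0, fun X hX T hT c d hc hd hGc hGd hs => ?_⟩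
  have hX3 := hX0.trans hX
  have hq : ∀ s : ℂ, G0 x s * Wt T X s / (Gamma s)⁻¹ = G0 x s * Gamma s * Wt T X s := by
    intro s
    rw [div_inv_eq_mul]; ring
  have hsplit : ∀ y : ℝ, Real.exp (Real.pi / 2 * y) * Real.exp (-(Real.pi / 2 * y)) = 1 := by
    intro y
    rw [← Real.exp_add]; simp
  have := h X hX T hT c d hc hd hGc hGd (fun s => (Gamma s)⁻¹) (fun s => G0 x s * Wt T X s)
    Complex.differentiable_one_div_Gamma
    (fun s hs => inv_ne_zero (Gam_ne hs)) ((G0_diff x).mul (Wt_diff T X)) ?_ ?_ ?_ ?_ hs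
  · have e1 : ∀ s z : ℂ, G0 x s * Wt T X s / ((Gamma s)⁻¹ * z) = G0 x s * Gamma s * Wt T X s / z := by
      intro s z
      rw [← div_div, hq]
    simp only [e1] at this
    simp only [← div_eq_mul_inv]
    exact this
  · intro σ hσ y hy
    simp only [hq]
    rw [norm_mul, norm_mul]
    calc ‖G0 x ⟨σ, y⟩‖ * ‖Gamma ⟨σ, y⟩‖ * ‖Wt T X ⟨σ, y⟩‖ ≤
        (kx x * Real.exp (Real.pi / 2 * y)) * (32 * y * Real.exp (-(Real.pi / 2 * y))) *
          (3 * Real.exp (-((y - T) ^ 2 / hh X ^ 2))) := by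
          gcongr
          · exact norm_G0_le hσ
          · exact norm_Gamma_crude (z := ⟨σ, y⟩) hσ.1 hσ.2 hy
          · exact norm_Wt hX3 hσ
      _ = 96 * kx x * y * Real.exp (-((y - T) ^ 2 / hh X ^ 2)) *
          (Real.exp (Real.pi / 2 * y) * Real.exp (-(Real.pi / 2 * y))) := by ring
      _ = _ := by rw [hsplit, mul_one]
  · intro y hy
    simp only [hq]
    rw [norm_mul, norm_mul]
    calc ‖G0 x ⟨-1 / 2, y⟩‖ * ‖Gamma ⟨-1 / 2, y⟩‖ * ‖Wt T X ⟨-1 / 2, y⟩‖ ≤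
        (kx x * Real.exp (Real.pi / 2 * y)) * (8 / y * Real.exp (-(Real.pi / 2 * y))) *
          (3 * Real.exp (-((y - T) ^ 2 / hh X ^ 2))) := by
          gcongr
          · exact norm_G0_le ⟨le_rfl, by norm_num⟩
          · exact norm_Gamma_left hy
          · exact norm_Wt hX3 ⟨le_rfl, by norm_num⟩
      _ = 24 * kx x * Real.exp (-((y - T) ^ 2 / hh X ^ 2)) * (1 / y) *
          (Real.exp (Real.pi / 2 * y) * Real.exp (-(Real.pi / 2 * y))) := by ring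
      _ = 24 * kx x * Real.exp (-((y - T) ^ 2 / hh X ^ 2)) * (1 / y) := by rw [hsplit, mul_one]
      _ ≤ 24 * kx x * Real.exp (-((y - T) ^ 2 / hh X ^ 2)) * 1 := by
          gcongr
          rw [div_le_one (by linarith)]
          exact hy
      _ ≤ _ := by
          have := Real.exp_pos (-((y - T) ^ 2 / hh X ^ 2))
          have h0 : 0 < kx x * Real.exp (-((y - T) ^ 2 / hh X ^ 2)) := by positivity
          nlinarith
  · intro y
    simp only [hq]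
    rw [norm_mul, norm_mul]
    calc ‖G0 x ⟨3 / 2, y⟩‖ * ‖Gamma ⟨3 / 2, y⟩‖ * ‖Wt T X ⟨3 / 2, y⟩‖ ≤
        (kx x * Real.exp (Real.pi / 2 * y)) * ‖Gamma ⟨3 / 2, y⟩‖ *
          (3 * Real.exp (-((y - T) ^ 2 / hh X ^ 2))) := by
          gcongr
          · exact norm_G0_le ⟨by norm_num, le_rfl⟩
          · exact norm_Wt hX3 ⟨by norm_num, le_rfl⟩
      _ = 3 * kx x * Real.exp (-((y - T) ^ 2 / hh X ^ 2)) *
          (‖Gamma ⟨3 / 2, y⟩‖ * Real.exp (Real.pi / 2 * y)) := by ring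
      _ ≤ 3 * kx x * Real.exp (-((y - T) ^ 2 / hh X ^ 2)) * (32 * (1 + |y|)) :=
          mul_le_mul_of_nonneg_left (norm_Gamma_line y) (by positivity)
      _ = _ := by ring
  · simp only [hq]
    exact (((G0_diff x).continuous.comp line_cont).mul Gam_line_cont).mul
      ((Wt_diff T X).continuous.comp line_cont)

end Pool.Agent.Helper44K9.AR
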