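import Pool.Agent.H370R2.Local
import Pool.Agent.H156R2.DZArc

/-! A lower bound for the derivative at a zero in terms of the separation of the zeros. -/

set_option autoImplicit false

namespace Pool.Agent.Helper44K9.AR

open Complex Filter Topology Set Metric
open H370.Loc (Pf extract logDeriv_zero_free Pf_diff Pf_cons Pf_norm_ge Pf_norm_le Pf_ne_zero)

lemma sep_card (δ : ℝ) : ∀ (n : ℕ) (S : Finset ℝ), S.card = n + 1 →
    (∀ x ∈ S, ∀ y ∈ S, x ≠ y → δ ≤ |x - y|) → ∃ x ∈ S, ∃ y ∈ S, (n : ℝ) * δ ≤ x - y := by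
  intro n
  induction n with
  | zero =>
    intro S hS _
    obtain ⟨x, hx⟩ := Finset.card_pos.1 (by omega : 0 < S.card)
    exact ⟨x, hx, x, hx, by simp⟩
  | succ n ih =>
    intro S hS hsep
    have hne : S.Nonempty := Finset.card_pos.1 (by omega)
    set M := S.max' hne with hM
    have hMS : M ∈ S := S.max'_mem hne
    obtain ⟨x, hx, y, hy, hxy⟩ := ih (S.erase M) (by rw [Finset.card_erase_of_mem hMS]; omega)
      (fun x hx y hy => hsep x (Finset.mem_of_mem_erase hx) y (Finset.mem_of_mem_erase hy))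
    have hx1 := Finset.mem_erase.1 hx
    have hle : x ≤ M := S.le_max' x hx1.2
    have h1 := hsep M hMS x hx1.2 hx1.1.symm
    rw [abs_of_nonneg (by linarith)] at h1
    refine ⟨M, hMS, y, Finset.mem_of_mem_erase hy, ?_⟩
    push_cast
    linarith

lemma sep_prod {δ : ℝ} (hδ : 0 < δ) : ∀ (n : ℕ) (S : Finset ℝ), S.card = n →
    (∀ x ∈ S, δ ≤ |x|) → (∀ x ∈ S, ∀ y ∈ S, x ≠ y → δ ≤ |x - y|) →
    (δ / 2) ^ n * (n.factorial : ℝ) ≤ ∏ x ∈ S, |x| := by
  intro n
  induction n with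
  | zero =>
    intro S hS _ _
    rw [Finset.card_eq_zero.1 hS]
    simp
  | succ n ih =>
    intro S hS h0 hsep
    have h0S : (0 : ℝ) ∉ S := by
      intro h
      have := h0 0 h
      rw [abs_zero] at this
      linarith
    obtain ⟨x, hx, y, hy, hxy⟩ := sep_card δ (n + 1) (insert 0 S)
      (by rw [Finset.card_insert_of_notMem h0S, hS]) (by
        intro x hx y hy hne
        rw [Finset.mem_insert] at hx hy
        rcases hx with rfl | hx
        · rcases hy with rfl | hy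
          · exact absurd rfl hne
          · rw [zero_sub, abs_neg]; exact h0 y hy
        · rcases hy with rfl | hy
          · rw [sub_zero]; exact h0 x hx
          · exact hsep x hx y hy hne)
    have hpos : 0 < ((n + 1 : ℕ) : ℝ) * δ := by positivity
    obtain ⟨z, hz, hzb⟩ : ∃ z ∈ S, ((n + 1 : ℕ) : ℝ) * δ / 2 ≤ |z| := by
      have h1 : ((n + 1 : ℕ) : ℝ) * δ ≤ |x| + |y| := by
        have := le_abs_self x
        have := neg_abs_le y
        linarith
      rcases le_total |x| |y| with h | h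
      · have h2 : ((n + 1 : ℕ) : ℝ) * δ / 2 ≤ |y| := by linarith
        refine ⟨y, ?_, h2⟩
        rcases Finset.mem_insert.1 hy with h3 | h3
        · rw [h3, abs_zero] at h2
          linarith
        · exact h3
      · have h2 : ((n + 1 : ℕ) : ℝ) * δ / 2 ≤ |x| := by linarith
        refine ⟨x, ?_, h2⟩
        rcases Finset.mem_insert.1 hx with h3 | h3
        · rw [h3, abs_zero] at h2
          linarith
        · exact h3
    have ih2 := ih (S.erase z) (by rw [Finset.card_erase_of_mem hz]; omega)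
      (fun x hx => h0 x (Finset.mem_of_mem_erase hx))
      (fun x hx y hy => hsep x (Finset.mem_of_mem_erase hx) y (Finset.mem_of_mem_erase hy))
    rw [← Finset.mul_prod_erase S (fun x => |x|) hz]
    calc (δ / 2) ^ (n + 1) * ((n + 1).factorial : ℝ) =
        (((n + 1 : ℕ) : ℝ) * δ / 2) * ((δ / 2) ^ n * (n.factorial : ℝ)) := by
          rw [Nat.factorial_succ]
          push_cast
          ring
      _ ≤ |z| * ∏ x ∈ S.erase z, |x| := by gcongr

lemma fac_low {δ τ : ℝ} (hδ : 0 < δ) (hτ : 0 < τ) (n : ℕ) :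
    τ ^ n * Real.exp (-(2 * τ / δ)) ≤ (δ / 2) ^ n * (n.factorial : ℝ) := by
  have h := Real.pow_div_factorial_le_exp (2 * τ / δ) (by positivity) n
  rw [div_le_iff₀ (by positivity)] at h
  rw [Real.exp_neg, ← div_eq_mul_inv, div_le_iff₀ (Real.exp_pos _)]
  calc τ ^ n = (δ / 2) ^ n * (2 * τ / δ) ^ n := by
        rw [← mul_pow]; congr 1; field_simp
    _ ≤ (δ / 2) ^ n * (Real.exp (2 * τ / δ) * (n.factorial : ℝ)) := by gcongr
    _ = _ := by ring

lemma norm_prod_map (c : ℂ) (t : Multiset ℂ) :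
    ‖(Multiset.map (fun ρ => c - ρ) t).prod‖ = (Multiset.map (fun ρ => ‖c - ρ‖) t).prod := by
  induction t using Multiset.induction_on with
  | empty => simp
  | cons a t ih => rw [Multiset.map_cons, Multiset.prod_cons, norm_mul, ih, Multiset.map_cons, Multiset.prod_cons]

/-- the local lower bound -/
theorem low_deriv {f : ℂ → ℂ} {ρ₀ : ℂ} {a δ M τ : ℝ} (ha : 0 < a) (ha2 : a ≤ 1 / 2) (hδ : 0 < δ)
    (hM : 1 ≤ M) (hτ : 0 < τ) (hτ1 : τ ≤ 1)
    (hf : AnalyticOnNhd ℂ f (closedBall (ρ₀ + a) (4 * a))) (hc : f (ρ₀ + a) ≠ 0)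
    (hb : ∀ z ∈ closedBall (ρ₀ + a) (4 * a), ‖f z‖ ≤ M) (h0 : f ρ₀ = 0)
    (hline : ∀ ρ ∈ closedBall (ρ₀ + a) (2 * a), f ρ = 0 → ρ.re = ρ₀.re)
    (hsimp : ∀ ρ ∈ closedBall (ρ₀ + a) (2 * a), f ρ = 0 → deriv f ρ ≠ 0)
    (hsep : ∀ ρ ∈ closedBall (ρ₀ + a) (2 * a), f ρ = 0 → ∀ ρ' ∈ closedBall (ρ₀ + a) (2 * a), f ρ' = 0 →
      ρ ≠ ρ' → δ ≤ |ρ.im - ρ'.im|) :
    ‖f (ρ₀ + a)‖ * (Real.exp (-(12 * (Real.log (M / ‖f (ρ₀ + a)‖) + 1))) *
      (τ ^ (2 * Real.log (M / ‖f (ρ₀ + a)‖)) * Real.exp (-(2 * τ / δ)))) ≤ ‖deriv f ρ₀‖ := by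
  set c : ℂ := ρ₀ + a with hcdef
  set B : ℝ := Real.log (M / ‖f c‖) with hB
  have hfc : 0 < ‖f c‖ := norm_pos_iff.2 hc
  have hcR : c ∈ closedBall c (4 * a) := mem_closedBall_self (by positivity)
  have hB0 : 0 ≤ B := Real.log_nonneg (by
    rw [le_div_iff₀ hfc, one_mul]; exact hb c hcR)
  obtain ⟨s, g, hs, hg, hfg, hgr, hcard⟩ := extract (r := 2 * a) (R := 4 * a) (M := M) (by positivity)
    (by linarith) hM hf hc hb
  have hsub : closedBall c (2 * a) ⊆ closedBall c (4 * a) := closedBall_subset_closedBall (by linarith)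
  have hρ₀ : ρ₀ ∈ closedBall c a := by
    rw [mem_closedBall, hcdef, dist_self_add_right, Complex.norm_real, Real.norm_of_nonneg ha.le]
  have hρ₀2 : ρ₀ ∈ closedBall c (2 * a) := closedBall_subset_closedBall (by linarith) hρ₀
  have hρ₀4 : ρ₀ ∈ closedBall c (4 * a) := hsub hρ₀2
  -- simplicity of the roots
  have hnod : s.Nodup := by
    rw [Multiset.nodup_iff_ne_cons_cons]
    rintro ρ t rfl
    obtain ⟨h1, h2⟩ := hs ρ (Multiset.mem_cons_self _ _)
    apply hsimp ρ h1 h2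
    have h3 : ∀ z, f z = (z - ρ) * ((z - ρ) * (Pf t z * g z)) := by
      intro z
      rw [hfg z, Pf_cons, Pf_cons]; ring
    have hgd : DifferentiableAt ℂ g ρ := (hg ρ (hsub h1)).differentiableAt
    have h4 : HasDerivAt (fun z => (z - ρ) * ((z - ρ) * (Pf t z * g z)))
        (1 * ((ρ - ρ) * (Pf t ρ * g ρ)) + (ρ - ρ) * deriv (fun z => (z - ρ) * (Pf t z * g z)) ρ) ρ := by
      apply ((hasDerivAt_id ρ).sub_const ρ).mul
      apply DifferentiableAt.hasDerivAt
      exact (differentiableAt_id.sub_const ρ).mul ((Pf_diff t ρ).mul hgd)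
    have h5 : f = fun z => (z - ρ) * ((z - ρ) * (Pf t z * g z)) := funext h3
    rw [h5, h4.deriv]
    ring
  have hmem : ρ₀ ∈ s := by
    by_contra hcon
    have h1 : Pf s ρ₀ ≠ 0 := Pf_ne_zero (fun ρ hρ h => hcon (h ▸ hρ))
    have h2 := hfg ρ₀
    rw [h0] at h2
    exact mul_ne_zero h1 (hgr ρ₀ hρ₀2) h2.symm
  obtain ⟨t, rfl⟩ := Multiset.exists_cons_of_mem hmem
  rw [Multiset.nodup_cons] at hnod
  -- the derivative
  have hder : deriv f ρ₀ = Pf t ρ₀ * g ρ₀ := by
    have h3 : ∀ z, f z = (z - ρ₀) * (Pf t z * g z) := by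
      intro z
      rw [hfg z, Pf_cons]; ring
    have hgd : DifferentiableAt ℂ g ρ₀ := (hg ρ₀ hρ₀4).differentiableAt
    have h4 : HasDerivAt (fun z => (z - ρ₀) * (Pf t z * g z))
        (1 * (Pf t ρ₀ * g ρ₀) + (ρ₀ - ρ₀) * deriv (fun z => Pf t z * g z) ρ₀) ρ₀ := by
      apply ((hasDerivAt_id ρ₀).sub_const ρ₀).mul
      apply DifferentiableAt.hasDerivAt
      exact (Pf_diff t ρ₀).mul hgd
    have h5 : f = fun z => (z - ρ₀) * (Pf t z * g z) := funext h3
    rw [h5, h4.deriv]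
    ring
  -- the bounds for `g`
  set m := Multiset.card (ρ₀ ::ₘ t) with hm
  have h2a : 2 * a ≤ 1 := by linarith
  have hPc : ‖Pf (ρ₀ ::ₘ t) c‖ ≤ (2 * a) ^ m := by
    apply Pf_norm_le
    intro ρ hρ
    have := (hs ρ hρ).1
    rwa [mem_closedBall, dist_comm, dist_eq_norm] at this
  have hgc0 : g c ≠ 0 := hgr c (mem_closedBall_self (by positivity))
  have hgcp : 0 < ‖g c‖ := norm_pos_iff.2 hgc0
  have hgc : ‖f c‖ ≤ (2 * a) ^ m * ‖g c‖ := by
    rw [hfg c, norm_mul]
    gcongr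
  have hgle : ∀ z ∈ closedBall c (4 * a), ‖g z‖ ≤ M / (2 * a) ^ m := by
    intro z hz
    have h4a : (0 : ℝ) < 4 * a := by positivity
    have hcl : closure (ball c (4 * a)) = closedBall c (4 * a) := closure_ball c h4a.ne'
    refine Complex.norm_le_of_forall_mem_frontier_norm_le (U := ball c (4 * a)) isBounded_ball
      ⟨fun w hw => (hg w (ball_subset_closedBall hw)).differentiableAt.differentiableWithinAt, ?_⟩ ?_
      (by rw [hcl]; exact hz)
    · rw [hcl]
      exact fun w hw => (hg w hw).continuousAt.continuousWithinAt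
    · intro w hw
      rw [frontier_ball c h4a.ne', mem_sphere, dist_eq_norm] at hw
      have hw4 : w ∈ closedBall c (4 * a) := by rw [mem_closedBall, dist_eq_norm]; exact hw.le
      have h6 : (2 * a) ^ m ≤ ‖Pf (ρ₀ ::ₘ t) w‖ := by
        apply Pf_norm_ge (by positivity)
        intro ρ hρ
        have := (hs ρ hρ).1
        rw [mem_closedBall, dist_eq_norm] at this
        have h7 := norm_sub_norm_le (w - c) (ρ - c)
        rw [sub_sub_sub_cancel_right] at h7
        linarith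
      have h7 := hb w hw4
      rw [hfg w, norm_mul] at h7
      rw [le_div_iff₀ (by positivity)]
      have := norm_nonneg (g w)
      nlinarith
  have hgB : ∀ z ∈ closedBall c (2 * a), ‖g z‖ ≤ Real.exp B * ‖g c‖ := by
    intro z hz
    have h8 := hgle z (hsub hz)
    rw [hB, Real.exp_log (by positivity)]
    have h2am : 0 < (2 * a) ^ m := by positivity
    calc ‖g z‖ ≤ M / (2 * a) ^ m := h8
      _ = M / ‖f c‖ * (‖f c‖ / (2 * a) ^ m) := by field_simp
      _ ≤ M / ‖f c‖ * ‖g c‖ := by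
          gcongr
          rw [div_le_iff₀ h2am]
          linarith
  have hld : ∀ z ∈ closedBall c a, ‖logDeriv g z‖ ≤ 12 * (B + 1) / a := by
    intro z hz
    have := logDeriv_zero_free (g := g) (c := c) (r := 2 * a) (r1 := 3 / 2 * a) (r2 := a) (B := B) ha
      (by linarith) (by linarith) hB0 (fun w hw => hg w (hsub hw)) hgr hgB hz
    refine this.trans (le_of_eq ?_)
    field_simp
    ring
  have hgrow := Pool.Agent.H156R2.DZArc.growth (S := closedBall c a) (convex_closedBall c a) (Q := g)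
    (K := 12 * (B + 1) / a)
    (fun w hw => (hg w (closedBall_subset_closedBall (by linarith) hw)).differentiableAt)
    (fun w hw => by
      have h9 := hld w hw
      have hgw : g w ≠ 0 := hgr w (closedBall_subset_closedBall (by linarith) hw)
      rw [logDeriv_apply, norm_div, div_le_iff₀ (norm_pos_iff.2 hgw)] at h9
      exact h9) (w' := ρ₀) (w := c) hρ₀ (mem_closedBall_self ha.le)
  have hnca : ‖c - ρ₀‖ = a := by
    rw [hcdef, add_sub_cancel_left, Complex.norm_real, Real.norm_of_nonneg ha.le]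
  rw [hnca, div_mul_cancel₀ _ ha.ne'] at hgrow
  have hg0 : ‖f c‖ * Real.exp (-(12 * (B + 1))) ≤ ‖g ρ₀‖ := by
    have h10 : ‖f c‖ ≤ ‖g c‖ := by
      refine hgc.trans ?_
      have : (2 * a) ^ m ≤ 1 := pow_le_one₀ (by positivity) h2a
      nlinarith
    rw [Real.exp_neg, ← div_eq_mul_inv, div_le_iff₀ (Real.exp_pos _)]
    exact h10.trans hgrow
  -- the product
  have hprod : τ ^ (2 * B) * Real.exp (-(2 * τ / δ)) ≤ ‖Pf t ρ₀‖ := by
    classical
    set S : Finset ℂ := ⟨t, hnod.2⟩ with hS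
    have hSm : ∀ ρ ∈ S, ρ ∈ closedBall c (2 * a) ∧ f ρ = 0 ∧ ρ ≠ ρ₀ := by
      intro ρ hρ
      have hρt : ρ ∈ t := hρ
      obtain ⟨h1, h2⟩ := hs ρ (Multiset.mem_cons_of_mem hρt)
      exact ⟨h1, h2, fun h => hnod.1 (h ▸ hρt)⟩
    have hre : ∀ ρ ∈ S, ρ.re = ρ₀.re := fun ρ hρ => hline ρ (hSm ρ hρ).1 (hSm ρ hρ).2.1
    set R : Finset ℝ := S.image (fun ρ => ρ.im - ρ₀.im) with hR
    have hinj : Set.InjOn (fun ρ : ℂ => ρ.im - ρ₀.im) S := by
      intro x hx y hy hxy
      simp only at hxy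
      exact Complex.ext (by rw [hre x hx, hre y hy]) (by linarith)
    have hRc : R.card = S.card := Finset.card_image_of_injOn hinj
    have hPf : ‖Pf t ρ₀‖ = ∏ x ∈ R, |x| := by
      rw [hR, Finset.prod_image hinj]
      unfold Pf
      rw [norm_prod_map ρ₀ t]
      have h12 : (Multiset.map (fun ρ => ‖ρ₀ - ρ‖) t).prod = ∏ ρ ∈ S, ‖ρ₀ - ρ‖ := rfl
      rw [h12]
      apply Finset.prod_congr rfl
      intro ρ hρ
      have h13 : ρ₀ - ρ = ((-(ρ.im - ρ₀.im) : ℝ) : ℂ) * I := by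
        apply Complex.ext
        · simp [hre ρ hρ]
        · simp
      rw [h13, norm_mul, Complex.norm_I, mul_one, Complex.norm_real, Real.norm_eq_abs, abs_neg]
    have h14 := sep_prod hδ R.card R rfl (by
      intro x hx
      rw [hR, Finset.mem_image] at hx
      obtain ⟨ρ, hρ, rfl⟩ := hx
      exact hsep ρ (hSm ρ hρ).1 (hSm ρ hρ).2.1 ρ₀ hρ₀2 h0 (hSm ρ hρ).2.2) (by
      intro x hx y hy hxy
      rw [hR, Finset.mem_image] at hx hy
      obtain ⟨ρ, hρ, rfl⟩ := hx
      obtain ⟨ρ', hρ', rfl⟩ := hy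
      rw [sub_sub_sub_cancel_right]
      exact hsep ρ (hSm ρ hρ).1 (hSm ρ hρ).2.1 ρ' (hSm ρ' hρ').1 (hSm ρ' hρ').2.1 (fun h => hxy (by rw [h])))
    have h15 := fac_low (τ := τ) hδ hτ R.card
    have hcard2 : ((R.card : ℕ) : ℝ) ≤ 2 * B := by
      have h16 : (R.card : ℝ) ≤ m := by
        rw [hRc, hm, Multiset.card_cons]
        have : S.card = Multiset.card t := rfl
        rw [this]
        push_cast
        linarith
      have h17 : Real.log (4 * a / (2 * a)) = Real.log 2 := by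
        congr 1
        field_simp
        norm_num
      rw [h17] at hcard
      have h18 : B / Real.log 2 ≤ 2 * B := by
        rw [div_le_iff₀ (Real.log_pos (by norm_num))]
        nlinarith [Real.log_two_gt_d9]
      exact h16.trans (hcard.trans h18)
    have h19 : τ ^ (2 * B) ≤ τ ^ R.card := by
      rw [← Real.rpow_natCast]
      exact Real.rpow_le_rpow_of_exponent_ge hτ hτ1 hcard2
    rw [hPf]
    calc τ ^ (2 * B) * Real.exp (-(2 * τ / δ)) ≤ τ ^ R.card * Real.exp (-(2 * τ / δ)) := by gcongr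
      _ ≤ _ := h15.trans h14
  rw [hder, norm_mul, mul_comm ‖Pf t ρ₀‖]
  calc _ = (‖f c‖ * Real.exp (-(12 * (B + 1)))) * (τ ^ (2 * B) * Real.exp (-(2 * τ / δ))) := by ring
    _ ≤ _ := by gcongr

end Pool.Agent.Helper44K9.AR
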